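import Pool.Agent.H26.Wrap
import Pool.Agent.H26.Periodic

/-!
Vanishing of `Ext` from an infinite projective resolution and exactness of the `Hom` complex.
-/
set_option autoImplicit false

namespace Pool.Agent.H45.B2

universe u

open CategoryTheory CategoryTheory.Abelian CategoryTheory.Limits Pool.Agent.H26

/-- `Ext^1(M, Z) = 0` if every map from the kernel of a projective cover extends. -/
theorem ext_one_vanish {R : Type u} [Ring R] {P M : Type u} [AddCommGroup P] [Module R P]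
    [AddCommGroup M] [Module R M] [Module.Projective R P] (p : P →ₗ[R] M)
    (hp : Function.Surjective p) (Z : ModuleCat.{u} R)
    (h : ∀ f : LinearMap.ker p →ₗ[R] Z, ∃ g : P →ₗ[R] Z, f = g ∘ₗ (LinearMap.ker p).subtype) :
    Subsingleton (Ext (ModuleCat.of R M) Z 1) := by
  have hS := LinearMap.shortExact_shortComplexKer hp
  have hproj : Projective (p.shortComplexKer.X₂) :=
    (IsProjective.iff_projective P).mp inferInstance
  refine subsingleton_of_forall_eq 0 fun x₃ => ?_
  have e : 1 + 0 = 1 := rfl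
  obtain ⟨x₁, hx₁⟩ := Ext.contravariant_sequence_exact₃ hS Z x₃
    (Ext.eq_zero_of_projective (n := 0) _) e
  obtain ⟨f, rfl⟩ := Ext.mk₀_bijective _ _ |>.2 x₁
  obtain ⟨g, hg⟩ := h f.hom
  have hf : f = p.shortComplexKer.f ≫ (ModuleCat.ofHom g : p.shortComplexKer.X₂ ⟶ Z) := by
    apply ModuleCat.hom_ext
    exact hg
  rw [← hx₁, hf, ← Ext.mk₀_comp_mk₀, ← Ext.comp_assoc_of_second_deg_zero, hS.extClass_comp, Ext.zero_comp]

/-- `Ext^i(M, Z) = 0` for all `i ≥ 1` from an infinite projective resolution of `M` such that the complex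
of maps to `Z` is exact. -/
theorem ext_vanish {R : Type u} [Ring R] (P : ℕ → Type u) [∀ l, AddCommGroup (P l)]
    [∀ l, Module R (P l)] [∀ l, Module.Projective R (P l)] {M : Type u} [AddCommGroup M]
    [Module R M] (d : ∀ l, P (l + 1) →ₗ[R] P l) (p : P 0 →ₗ[R] M)
    (hp : Function.Surjective p) (h0 : Function.Exact (d 0) p)
    (hd : ∀ l, Function.Exact (d (l + 1)) (d l))
    {Z : Type u} [AddCommGroup Z] [Module R Z]
    (hZ : ∀ l, ∀ f : P (l + 1) →ₗ[R] Z, f ∘ₗ d (l + 1) = 0 → ∃ g : P l →ₗ[R] Z, f = g ∘ₗ d l)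
    (i : ℕ) (hi : 1 ≤ i) :
    Subsingleton (Ext (ModuleCat.of R M) (ModuleCat.of R Z) i) := by
  obtain ⟨n, rfl⟩ : ∃ n, i = n + 1 := ⟨i - 1, by omega⟩
  clear hi
  induction n generalizing P M with
  | zero =>
    apply ext_one_vanish p hp
    intro f
    have hmem : ∀ x, d 0 x ∈ LinearMap.ker p := fun x => (h0 (d 0 x)).mpr ⟨x, rfl⟩
    let p' : P 1 →ₗ[R] LinearMap.ker p := (d 0).codRestrict (LinearMap.ker p) hmem
    have hp' : Function.Surjective p' := by
      rintro ⟨x, hx⟩
      obtain ⟨y, hy⟩ := (h0 x).mp hx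
      exact ⟨y, Subtype.ext hy⟩
    obtain ⟨g, hg⟩ := hZ 0 (f ∘ₗ p') (by
      ext x
      have h1 : p' (d 1 x) = 0 := Subtype.ext ((hd 0 (d 1 x)).mpr ⟨x, rfl⟩)
      simp [h1])
    refine ⟨g, ?_⟩
    ext x
    obtain ⟨y, rfl⟩ := hp' x
    exact congrArg (fun k => k y) hg
  | succ n ih =>
    have hmem : ∀ x, d 0 x ∈ LinearMap.ker p := fun x => (h0 (d 0 x)).mpr ⟨x, rfl⟩
    let p' : P 1 →ₗ[R] LinearMap.ker p := (d 0).codRestrict (LinearMap.ker p) hmem
    have hp' : Function.Surjective p' := by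
      rintro ⟨x, hx⟩
      obtain ⟨y, hy⟩ := (h0 x).mp hx
      exact ⟨y, Subtype.ext hy⟩
    apply ext_shift_rev p hp (ModuleCat.of R Z) n
    refine ih (fun l => P (l + 1)) (fun l => d (l + 1)) p' hp' ?_ (fun l => hd (l + 1)) (fun l => hZ (l + 1))
    intro x
    rw [← hd 0 x]
    constructor
    · intro h
      exact congrArg Subtype.val h
    · intro h
      exact Subtype.ext h

end Pool.Agent.H45.B2
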