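import Mathlib
set_option autoImplicit false
namespace H45.CH0
open Polynomial

section
variable {R T : Type*} [CommRing R] [CommRing T] {a : R}

/-- the adjoined square root -/
def qw (a : R) : QuadraticAlgebra R a 0 := ⟨0, 1⟩

lemma qw_sq : (qw a) ^ 2 = algebraMap R (QuadraticAlgebra R a 0) a := by
  ext <;> simp [qw, pow_two]

/-- ring homomorphisms from `R[√a]` -/
def qLift (f : R →+* T) (u : T) (hu : u ^ 2 = f a) : QuadraticAlgebra R a 0 →+* T where
  toFun z := f z.re + f z.im * u
  map_one' := by
    change f 1 + f 0 * u = 1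
    simp
  map_zero' := by simp
  map_add' z w := by simp; ring
  map_mul' z w := by
    simp
    linear_combination (-(f z.im) * (f w.im)) * hu

lemma qLift_apply (f : R →+* T) (u : T) (hu : u ^ 2 = f a) (z : QuadraticAlgebra R a 0) :
    qLift f u hu z = f z.re + f z.im * u := rfl

@[simp] lemma qLift_C (f : R →+* T) (u : T) (hu : u ^ 2 = f a) (c : R) :
    qLift f u hu (algebraMap R (QuadraticAlgebra R a 0) c) = f c := by
  simp [qLift_apply]

@[simp] lemma qLift_qw (f : R →+* T) (u : T) (hu : u ^ 2 = f a) : qLift f u hu (qw a) = u := by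
  simp [qLift_apply, qw]

lemma q_eta (z : QuadraticAlgebra R a 0) :
    z = algebraMap R (QuadraticAlgebra R a 0) z.re + algebraMap R (QuadraticAlgebra R a 0) z.im * qw a := by
  ext <;> simp [qw]

lemma q_hom_ext (u v : QuadraticAlgebra R a 0 →+* T)
    (h1 : ∀ c : R, u (algebraMap R _ c) = v (algebraMap R _ c)) (h2 : u (qw a) = v (qw a)) : u = v := by
  ext z
  rw [q_eta z, map_add, map_add, map_mul, map_mul, h1, h1, h2]

end

section
variable {F : Type} [Field F] (i : ℂ →+* F) (H : ℂ[X])

/-- coordinate ring of an open subset of the affine line over `F` -/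
abbrev Lam : Type := Localization.Away (H.map i)

/-- the coordinate on `Lam` -/
noncomputable def lx : Lam i H := algebraMap F[X] (Lam i H) X

/-- coordinate ring of an open subset of the affine curve `y ^ 2 = x ^ 3 - x` over `F` -/
abbrev RH : Type := QuadraticAlgebra (Lam i H) ((lx i H) ^ 3 - lx i H) 0

variable {T : Type*} [CommRing T] (jF : F →+* T) (x y : T) (hy : y ^ 2 = x ^ 3 - x)
  (hu : IsUnit (H.eval₂ (jF.comp i) x))

/-- construction of ring homomorphisms from `Lam` -/
noncomputable def lamLift : Lam i H →+* T :=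
  IsLocalization.Away.lift (S := Lam i H) (H.map i) (g := eval₂RingHom jF x)
    (by rw [coe_eval₂RingHom, eval₂_map]; exact hu)

@[simp] lemma lamLift_x : lamLift i H jF x hu (lx i H) = x := by
  unfold lamLift lx
  rw [IsLocalization.Away.lift_eq]; simp

@[simp] lemma lamLift_F (a : F) : lamLift i H jF x hu (algebraMap F _ a) = jF a := by
  unfold lamLift
  rw [IsScalarTower.algebraMap_apply F F[X] (Lam i H), IsLocalization.Away.lift_eq]; simp

/-- construction of ring homomorphisms from `RH` -/
noncomputable def rhLift : RH i H →+* T :=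
  qLift (lamLift i H jF x hu) y (by rw [map_sub, map_pow, lamLift_x, hy])

@[simp] lemma rhLift_x : rhLift i H jF x y hy hu (algebraMap _ _ (lx i H)) = x := by
  unfold rhLift
  rw [qLift_C, lamLift_x]

@[simp] lemma rhLift_F (a : F) : rhLift i H jF x y hy hu (algebraMap F _ a) = jF a := by
  unfold rhLift
  rw [IsScalarTower.algebraMap_apply F (Lam i H) (RH i H), qLift_C, lamLift_F]

@[simp] lemma rhLift_y : rhLift i H jF x y hy hu (qw _) = y := by
  unfold rhLift
  rw [qLift_qw]

lemma lam_hom_ext (u v : Lam i H →+* T) (h1 : ∀ a : F, u (algebraMap F _ a) = v (algebraMap F _ a))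
    (h2 : u (lx i H) = v (lx i H)) : u = v := by
  apply IsLocalization.ringHom_ext (Submonoid.powers (H.map i))
  apply Polynomial.ringHom_ext
  · intro a
    have := h1 a
    rwa [IsScalarTower.algebraMap_apply F F[X] (Lam i H)] at this
  · exact h2

lemma rh_hom_ext (u v : RH i H →+* T) (h1 : ∀ a : F, u (algebraMap F _ a) = v (algebraMap F _ a))
    (h2 : u (algebraMap _ _ (lx i H)) = v (algebraMap _ _ (lx i H)))
    (h3 : u (qw _) = v (qw _)) : u = v := by
  apply q_hom_ext
  · have : u.comp (algebraMap (Lam i H) (RH i H)) = v.comp (algebraMap (Lam i H) (RH i H)) := by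
      apply lam_hom_ext
      · intro a
        simp only [RingHom.comp_apply, ← IsScalarTower.algebraMap_apply]
        exact h1 a
      · exact h2
    intro c
    exact congrArg (fun f => f c) this
  · exact h3
end
end H45.CH0
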