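import Mathlib
import Pool.Agent.H45.CH0Quad
set_option autoImplicit false
namespace H45.CH0
open Polynomial

/-- `a` is not a square in the fraction field of `D` -/
def NS {D : Type*} [CommRing D] (a : D) : Prop := ∀ u v : D, u ^ 2 = a * v ^ 2 → v = 0

lemma isDomain_of_NS {D : Type*} [CommRing D] [IsDomain D] (a : D) (ha : NS a) :
    IsDomain (QuadraticAlgebra D a 0) := by
  have key : ∀ z : QuadraticAlgebra D a 0, QuadraticAlgebra.norm z = 0 → z = 0 := by
    intro z hz
    rw [QuadraticAlgebra.norm_def] at hz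
    have h1 : z.im = 0 := ha z.re z.im (by linear_combination hz)
    rw [h1] at hz
    have h2 : z.re = 0 := by
      apply pow_eq_zero_iff (two_ne_zero) |>.mp
      linear_combination hz
    ext
    · simpa using h2
    · simpa using h1
  have hnzd : NoZeroDivisors (QuadraticAlgebra D a 0) := by
    refine ⟨?_⟩
    intro z w hzw
    have h1 : QuadraticAlgebra.norm z * QuadraticAlgebra.norm w = 0 := by
      rw [← map_mul, hzw, QuadraticAlgebra.norm_zero]
    rcases mul_eq_zero.mp h1 with h | h
    · left; exact key z h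
    · right; exact key w h
  exact NoZeroDivisors.to_isDomain _

lemma NS_poly {D : Type*} [CommRing D] [IsDomain D] (a : D) (ha : NS a) : NS (C a : D[X]) := by
  intro u v h
  have h1 := congrArg leadingCoeff h
  rw [leadingCoeff_pow, leadingCoeff_mul, leadingCoeff_pow, leadingCoeff_C] at h1
  exact leadingCoeff_eq_zero.mp (ha _ _ h1)

lemma NS_away {R : Type*} [CommRing R] [IsDomain R] (f : R) (hf : f ≠ 0) (a : R) (ha : NS a) :
    NS (algebraMap R (Localization.Away f) a) := by
  have h0 : Submonoid.powers f ≤ nonZeroDivisors R := powers_le_nonZeroDivisors_of_noZeroDivisors hf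
  have hinj : Function.Injective (algebraMap R (Localization.Away f)) :=
    IsLocalization.injective (Localization.Away f) h0
  intro u v h
  obtain ⟨p, m, rfl⟩ := IsLocalization.exists_mk'_eq (Submonoid.powers f) u
  obtain ⟨q, l, rfl⟩ := IsLocalization.exists_mk'_eq (Submonoid.powers f) v
  have hm : (m : R) ≠ 0 := nonZeroDivisors.ne_zero (h0 m.2)
  have hl : (l : R) ≠ 0 := nonZeroDivisors.ne_zero (h0 l.2)
  have h1 : (p * l) ^ 2 = a * (q * m) ^ 2 := by
    apply hinj
    have e1 : algebraMap R (Localization.Away f) p = IsLocalization.mk' (Localization.Away f) p m *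
      algebraMap R (Localization.Away f) m := by rw [IsLocalization.mk'_spec]
    have e2 : algebraMap R (Localization.Away f) q = IsLocalization.mk' (Localization.Away f) q l *
      algebraMap R (Localization.Away f) l := by rw [IsLocalization.mk'_spec]
    rw [map_pow, map_mul, map_mul, map_pow, map_mul, e1, e2]
    linear_combination (algebraMap R (Localization.Away f) m) ^ 2 *
      (algebraMap R (Localization.Away f) l) ^ 2 * h
  have h2 := ha _ _ h1
  have h3 : q = 0 := (mul_eq_zero.mp h2).resolve_right hm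
  rw [h3, IsLocalization.mk'_zero]

lemma NS_X : NS (X : ℂ[X]) := by
  intro u v h
  by_contra hv
  have hu : u ≠ 0 := by
    rintro rfl
    rw [zero_pow two_ne_zero] at h
    exact (mul_ne_zero X_ne_zero (pow_ne_zero 2 hv)) h.symm
  have h1 := congrArg natDegree h
  rw [natDegree_pow, natDegree_mul X_ne_zero (pow_ne_zero 2 hv), natDegree_X, natDegree_pow] at h1
  omega

lemma NS_X3 : NS (X ^ 3 - X : ℂ[X]) := by
  have hd : (X ^ 3 - X : ℂ[X]).natDegree = 3 := by compute_degree!
  have h0 : (X ^ 3 - X : ℂ[X]) ≠ 0 := by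
    intro h; rw [h] at hd; simp at hd
  intro u v h
  by_contra hv
  have h1 := congrArg natDegree h
  rw [natDegree_pow, natDegree_mul h0 (pow_ne_zero 2 hv), hd, natDegree_pow] at h1
  omega

lemma NS_X2 : NS (X ^ 2 - 1 : ℂ[X]) := by
  intro u v h
  by_contra hv
  have hX : (X ^ 2 - 1 : ℂ[X]) = (X - C 1) * (X + C 1) := by
    simp; ring
  have h0 : (X + C 1 : ℂ[X]) ≠ 0 := X_add_C_ne_zero 1
  have h00 : (X - C 1 : ℂ[X]) ≠ 0 := X_sub_C_ne_zero 1
  have hu : u ≠ 0 := by
    rintro rfl
    rw [zero_pow two_ne_zero] at h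
    exact (mul_ne_zero (by rw [hX]; exact mul_ne_zero h00 h0) (pow_ne_zero 2 hv)) h.symm
  have h1 := congrArg (rootMultiplicity 1) h
  rw [pow_two, rootMultiplicity_mul (mul_ne_zero hu hu), hX,
    rootMultiplicity_mul (mul_ne_zero (mul_ne_zero h00 h0) (pow_ne_zero 2 hv)),
    rootMultiplicity_mul (mul_ne_zero h00 h0), pow_two, rootMultiplicity_mul (mul_ne_zero hv hv),
    rootMultiplicity_X_sub_C_self] at h1
  have h2 : rootMultiplicity 1 (X + C 1 : ℂ[X]) = 0 := by
    apply rootMultiplicity_eq_zero
    simp [IsRoot.def]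
  omega

/-- coordinate ring of the affine line minus three points -/
abbrev P0 : Type := Localization.Away (X ^ 3 - X : ℂ[X])

/-- the coordinate -/
noncomputable def xP : P0 := algebraMap ℂ[X] P0 X

lemma X3_ne : (X ^ 3 - X : ℂ[X]) ≠ 0 := by
  intro h
  have := NS_X3 0 1 (by rw [h]; ring)
  exact one_ne_zero this

instance : IsDomain P0 := IsLocalization.isDomain_localization (powers_le_nonZeroDivisors_of_noZeroDivisors X3_ne)

/-- coordinate ring of the elliptic curve `y ^ 2 = x ^ 3 - x` minus its two-torsion points -/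
abbrev EE : Type := QuadraticAlgebra P0 (xP ^ 3 - xP) 0

/-- the coordinate `x` -/
noncomputable def xE : EE := algebraMap P0 EE xP
/-- the coordinate `y` -/
noncomputable def yE : EE := qw _

lemma NS_d : NS (xP ^ 3 - xP) := by
  have := NS_away _ X3_ne _ NS_X3
  unfold xP
  rwa [map_sub, map_pow] at this

instance : IsDomain EE := isDomain_of_NS _ NS_d

lemma isUnit_d : IsUnit (xP ^ 3 - xP) := by
  have := IsLocalization.Away.algebraMap_isUnit (S := P0) (X ^ 3 - X : ℂ[X])
  unfold xP
  rwa [map_sub, map_pow] at this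

lemma isUnit_xP : IsUnit xP := by
  apply isUnit_of_mul_isUnit_left (y := xP ^ 2 - 1)
  have : xP * (xP ^ 2 - 1) = xP ^ 3 - xP := by ring
  rw [this]; exact isUnit_d

lemma isUnit_xE : IsUnit xE := isUnit_xP.map _

lemma yE_sq : yE ^ 2 = xE ^ 3 - xE := by
  unfold yE xE
  rw [qw_sq, map_sub, map_pow]

lemma isUnit_yE : IsUnit yE := by
  have h : IsUnit (yE ^ 2) := by
    unfold yE
    rw [qw_sq]; exact isUnit_d.map _
  exact (isUnit_pow_iff two_ne_zero).mp h

lemma two_ne_zero_P0 : (2 : P0) ≠ 0 := by
  have h2 : algebraMap ℂ P0 2 ≠ 0 := by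
    rw [Ne, FaithfulSMul.algebraMap_eq_zero_iff]; exact two_ne_zero
  rw [map_ofNat] at h2
  exact h2

lemma NS_xE : NS xE := by
  intro u v h
  by_contra hv
  -- reduce to a denominator in `P0`
  have h1 : (u * star v) ^ 2 = xE * (algebraMap P0 EE (QuadraticAlgebra.norm v)) ^ 2 := by
    rw [QuadraticAlgebra.algebraMap_norm_eq_mul_star]
    linear_combination (star v) ^ 2 * h
  have hn : QuadraticAlgebra.norm v ≠ 0 := by
    intro h0
    have h2 := QuadraticAlgebra.algebraMap_norm_eq_mul_star v
    rw [h0, map_zero] at h2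
    rcases mul_eq_zero.mp h2.symm with h3 | h3
    · exact hv h3
    · exact hv (star_eq_zero.mp h3)
  obtain ⟨w, hw⟩ : ∃ w, w = u * star v := ⟨_, rfl⟩
  obtain ⟨n, hn'⟩ : ∃ n, n = QuadraticAlgebra.norm v := ⟨_, rfl⟩
  rw [← hw, ← hn'] at h1
  rw [← hn'] at hn
  have hre := congrArg QuadraticAlgebra.re h1
  have him := congrArg QuadraticAlgebra.im h1
  unfold xE at hre him
  simp only [pow_two, QuadraticAlgebra.re_mul, QuadraticAlgebra.im_mul, QuadraticAlgebra.algebraMap_re,
    QuadraticAlgebra.algebraMap_im] at hre him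
  have h4 : w.re * w.im = 0 := by
    have h5 : (2 : P0) * (w.re * w.im) = 0 := by linear_combination him
    exact (mul_eq_zero.mp h5).resolve_left two_ne_zero_P0
  rcases mul_eq_zero.mp h4 with h5 | h5
  · -- `d * w.im ^ 2 = x * n ^ 2`
    have h6 : n ^ 2 = (xP ^ 2 - 1) * w.im ^ 2 := by
      apply mul_left_cancel₀ isUnit_xP.ne_zero
      rw [h5] at hre
      linear_combination -hre
    have h7 : NS (xP ^ 2 - 1) := by
      have := NS_away _ X3_ne _ NS_X2
      unfold xP
      rwa [map_sub, map_pow, map_one] at this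
    have h8 := h7 _ _ h6
    rw [h8] at h6
    apply hn
    apply pow_eq_zero_iff (two_ne_zero) |>.mp
    rw [h6]; ring
  · have h6 : w.re ^ 2 = xP * n ^ 2 := by
      rw [h5] at hre
      linear_combination hre
    have h7 : NS xP := NS_away _ X3_ne _ NS_X
    exact hn (h7 _ _ h6)

end H45.CH0
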