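import Mathlib
set_option autoImplicit false

namespace H45.CH0
open AlgebraicGeometry CategoryTheory CategoryTheory.Limits

/-- A zero-cycle on a scheme: a finitely supported integer valued function on the points all of whose
support consists of closed points. -/
def IsZeroCycle {X : Scheme.{0}} (z : X →₀ ℤ) : Prop := ∀ x ∈ z.support, IsClosed ({x} : Set X)

/-- Push-forward of cycles: the point `x` goes to `[κ(x) : κ(f x)]` times the point `f x`. -/
noncomputable def push {X Y : Scheme.{0}} (f : X ⟶ Y) (z : X →₀ ℤ) : Y →₀ ℤ :=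
  z.sum fun x n => Finsupp.single (f x) (n * (f.residueDegree x : ℤ))

/-- `n` is the valuation of `g`, an element of the fraction field `K` of the discrete valuation ring `O`. -/
def IsOrd (O K : Type*) [CommRing O] [Field K] [Algebra O K] (g : K) (n : ℤ) : Prop :=
  ∃ (ϖ : O) (u : Oˣ), Irreducible ϖ ∧ g = (algebraMap O K ϖ) ^ n * algebraMap O K (u : O)

/-- `d` is the divisor of the rational function `g` on the normal curve `C`. -/
structure IsDiv (C : Scheme.{0}) [IsIntegral C] (g : C.functionField) (d : C →₀ ℤ) : Prop where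
  isZeroCycle : IsZeroCycle d
  isOrd : ∀ c : C, IsClosed ({c} : Set C) → IsOrd (C.presheaf.stalk c) C.functionField g (d c)

/-- The group of zero-cycles on `X` that are rationally equivalent to zero: it is generated by the
push-forwards of the divisors of rational functions on normal curves finite over `X`. -/
noncomputable def Rat (X : Scheme.{0}) : AddSubgroup (X →₀ ℤ) :=
  AddSubgroup.closure {z | ∃ (C : Scheme.{0}) (_ : IsIntegral C) (p : C ⟶ X) (_ : IsFinite p)
    (_ : ∀ c : C, IsClosed ({c} : Set C) → IsDiscreteValuationRing (C.presheaf.stalk c))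
    (g : C.functionField) (d : C →₀ ℤ), g ≠ 0 ∧ IsDiv C g d ∧ z = push p d}

/-- The push-forward of zero-cycles induces a well defined isomorphism of Chow groups of zero-cycles. -/
def CH0Iso {W' W : Scheme.{0}} (q : W' ⟶ W) : Prop :=
  (∀ z : W →₀ ℤ, IsZeroCycle z → ∃ z' : W' →₀ ℤ, IsZeroCycle z' ∧ z - push q z' ∈ Rat W) ∧
  (∀ z' : W' →₀ ℤ, IsZeroCycle z' → (push q z' ∈ Rat W ↔ z' ∈ Rat W'))

/-- `f` is universally `CH_0`-trivial: for every field `F` containing the complex numbers the base
change of `f` along `V_F → V` induces an isomorphism on Chow groups of zero-cycles. -/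
def UnivCH0Trivial {V' V : Scheme.{0}} (s : V ⟶ Spec (.of ℂ)) (f : V' ⟶ V) : Prop :=
  ∀ (F : Type) (_ : Field F) (i : ℂ →+* F),
    CH0Iso (pullback.snd f (pullback.fst s (Spec.map (CommRingCat.ofHom i))))

/-- `f` is a resolution of singularities of the complex variety `V`. -/
structure IsResolution {V' V : Scheme.{0}} (s : V ⟶ Spec (.of ℂ)) (f : V' ⟶ V) : Prop where
  isProper : IsProper f
  smooth : Smooth (f ≫ s)
  birational : ∃ U : V.Opens, Dense (U : Set V) ∧ Dense (f ⁻¹ᵁ U : Set V') ∧ IsIso (f ∣_ U)

/-- Property (U) of the complex variety `X` at the point `x`: some Zariski open neighbourhood of `x`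
admits a `CH_0`-universally trivial resolution. -/
def HasU {X : Scheme.{0}} (s : X ⟶ Spec (.of ℂ)) (x : X) : Prop :=
  ∃ V : X.Opens, x ∈ V ∧ ∃ (V' : Scheme.{0}) (f : V' ⟶ V.toScheme),
    IsResolution (V.ι ≫ s) f ∧ UnivCH0Trivial (V.ι ≫ s) f

end H45.CH0
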