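import Mathlib
import Pool.Agent.H45.CH0Defs
set_option autoImplicit false
namespace H45.CH0
open AlgebraicGeometry CategoryTheory CategoryTheory.Limits

section
variable {W W' : Scheme.{0}} {A B : CommRingCat.{0}}

/-- global functions pulled back along a morphism to an affine scheme -/
noncomputable def gam (g : W ⟶ Spec A) : A ⟶ Γ(W, ⊤) := (Scheme.ΓSpecIso A).inv ≫ g.appTop

lemma eq_toSpecΓ (g : W ⟶ Spec A) : g = W.toSpecΓ ≫ Spec.map (gam g) := by
  unfold gam
  rw [Spec.map_comp, ← Scheme.toSpecΓ_naturality_assoc]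
  simp

lemma gam_toSpecΓ (φ : A ⟶ Γ(W, ⊤)) : gam (W.toSpecΓ ≫ Spec.map φ) = φ := by
  unfold gam
  simp

lemma hom_ext_gam {g g' : W ⟶ Spec A} (h : gam g = gam g') : g = g' := by
  rw [eq_toSpecΓ g, eq_toSpecΓ g', h]

lemma gam_comp (q : W' ⟶ W) (g : W ⟶ Spec A) : gam (q ≫ g) = gam g ≫ q.appTop := by
  unfold gam
  simp

lemma gam_spec (g : W ⟶ Spec B) (φ : A ⟶ B) : gam (g ≫ Spec.map φ) = φ ≫ gam g := by
  unfold gam
  rw [Scheme.Hom.comp_appTop, ← Category.assoc, ← Scheme.ΓSpecIso_inv_naturality, Category.assoc]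

/-- value of the function `a` at the point `w` -/
noncomputable def ev (g : W ⟶ Spec A) (w : W) : A →+* W.residueField w :=
  (Spec.preimage (W.fromSpecResidueField w ≫ g)).hom

lemma ev_spec (g : W ⟶ Spec B) (φ : A ⟶ B) (w : W) (a : A) :
    ev (g ≫ Spec.map φ) w a = ev g w (φ.hom a) := by
  have : Spec.preimage (W.fromSpecResidueField w ≫ (g ≫ Spec.map φ)) =
      φ ≫ Spec.preimage (W.fromSpecResidueField w ≫ g) := by
    apply Spec.map_injective
    simp
  unfold ev
  rw [this]
  rfl

lemma ev_comp (g : W ⟶ Spec A) (q : W' ⟶ W) (w : W') (a : A) :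
    ev (q ≫ g) w a = (q.residueFieldMap w).hom (ev g (q w) a) := by
  have : Spec.preimage (W'.fromSpecResidueField w ≫ (q ≫ g)) =
      Spec.preimage (W.fromSpecResidueField (q w) ≫ g) ≫ q.residueFieldMap w := by
    apply Spec.map_injective
    simp
  unfold ev
  rw [this]
  rfl

lemma ev_eq_evaluation (g : W ⟶ Spec A) (w : W) (a : A) :
    ev g w a = W.Γevaluation w ((gam g).hom a) := by
  have : Spec.preimage (W.fromSpecResidueField w ≫ g) = gam g ≫ W.Γevaluation w := by
    apply Spec.map_injective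
    rw [Spec.map_preimage, Spec.map_comp]
    conv_lhs => rw [eq_toSpecΓ g]
    rw [Scheme.fromSpecResidueField, Category.assoc, Scheme.fromSpecStalk_toSpecΓ_assoc,
      ← Spec.map_comp_assoc]
    rfl
  unfold ev
  rw [this]
  rfl

/-- the structure of an algebra on the residue field -/
noncomputable abbrev kalg (g : W ⟶ Spec A) (w : W) : Algebra A (W.residueField w) := (ev g w).toAlgebra

end

section
variable {F : Type} [Field F] {W W' : Scheme.{0}}

/-- norm from the residue field to the base field -/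
noncomputable def nrm (σ : W ⟶ Spec (.of F)) (w : W) (z : W.residueField w) : F :=
  @Algebra.norm F (W.residueField w) _ _ (kalg σ w) z

lemma finite_of_isClosed (σ : W ⟶ Spec (.of F)) [LocallyOfFiniteType σ] (w : W)
    (hw : IsClosed ({w} : Set W)) : (ev σ w).Finite := by
  have : JacobsonSpace W := LocallyOfFiniteType.jacobsonSpace σ
  have := isClosed_singleton_iff_locallyOfFiniteType.mp hw
  have h1 : LocallyOfFiniteType (W.fromSpecResidueField w ≫ σ) := inferInstance
  have h2 : IsFinite (W.fromSpecResidueField w ≫ σ) :=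
    isFinite_iff_locallyOfFiniteType_of_jacobsonSpace.mpr h1
  rw [← Spec.map_preimage (W.fromSpecResidueField w ≫ σ), IsFinite.SpecMap_iff] at h2
  exact h2

end
end H45.CH0

namespace H45.CH0
open AlgebraicGeometry CategoryTheory CategoryTheory.Limits

/-- multiplicative extension of a function on points to cycles -/
noncomputable def thetaC {F : Type} [Field F] {W : Scheme.{0}} (N : W → F) (z : W →₀ ℤ) : F :=
  z.prod fun w n => (N w) ^ n

section
variable {F : Type} [Field F] {W W' : Scheme.{0}} (N : W → F) (hN : ∀ w, N w ≠ 0)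

include hN in
lemma thetaC_add (z z' : W →₀ ℤ) : thetaC N (z + z') = thetaC N z * thetaC N z' := by
  classical
  unfold thetaC
  exact Finsupp.prod_add_index' (fun w => zpow_zero _) (fun w m n => zpow_add₀ (hN w) m n)

lemma thetaC_zero : thetaC N (0 : W →₀ ℤ) = 1 := by
  unfold thetaC; simp

lemma thetaC_single (w : W) (n : ℤ) : thetaC N (Finsupp.single w n) = (N w) ^ n := by
  unfold thetaC
  rw [Finsupp.prod_single_index]
  exact zpow_zero _

include hN in
lemma thetaC_sum {ι : Type*} (s : Finset ι) (f : ι → (W →₀ ℤ)) :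
    thetaC N (∑ j ∈ s, f j) = ∏ j ∈ s, thetaC N (f j) := by
  classical
  induction s using Finset.induction_on with
  | empty => simp [thetaC_zero]
  | insert a s ha ih => rw [Finset.sum_insert ha, Finset.prod_insert ha, thetaC_add N hN, ih]

include hN in
lemma thetaC_push (q : W' ⟶ W) (z : W' →₀ ℤ) :
    thetaC N (push q z) = ∏ w ∈ z.support, ((N (q w)) ^ (q.residueDegree w)) ^ (z w) := by
  unfold push Finsupp.sum
  rw [thetaC_sum N hN]
  apply Finset.prod_congr rfl
  intro w _
  rw [thetaC_single, mul_comm, zpow_mul, zpow_natCast]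

include hN in
lemma isSquare_thetaC_push (q : W' ⟶ W) (z : W' →₀ ℤ)
    (h : ∀ w ∈ z.support, IsSquare ((N (q w)) ^ (q.residueDegree w))) :
    IsSquare (thetaC N (push q z)) := by
  rw [thetaC_push N hN]
  exact Finset.isSquare_prod _ (fun w hw => (h w hw).zpow _)

include hN in
/-- a relation that would hold if the square class were invariant -/
lemma isSquare_thetaC_of_mem (z : W →₀ ℤ) (hz : z ∈ Rat W)
    (h : ∀ (C : Scheme.{0}) (_ : IsIntegral C) (p : C ⟶ W) (_ : IsFinite p)
    (_ : ∀ c : C, IsClosed ({c} : Set C) → IsDiscreteValuationRing (C.presheaf.stalk c))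
    (g : C.functionField) (d : C →₀ ℤ), g ≠ 0 → IsDiv C g d → IsSquare (thetaC N (push p d))) :
    IsSquare (thetaC N z) := by
  unfold Rat at hz
  induction hz using AddSubgroup.closure_induction with
  | mem x hx =>
    obtain ⟨C, h1, p, h2, h3, g, d, h4, h5, rfl⟩ := hx
    exact h C h1 p h2 h3 g d h4 h5
  | zero => rw [thetaC_zero]; exact IsSquare.one
  | add x y _ _ hx hy => rw [thetaC_add N hN]; exact hx.mul hy
  | neg x _ hx =>
    have h1 : thetaC N x * thetaC N (-x) = 1 := by
      rw [← thetaC_add N hN, add_neg_cancel, thetaC_zero]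
    have h2 : thetaC N (-x) = (thetaC N x)⁻¹ := eq_inv_of_mul_eq_one_right h1
    rw [h2]; exact hx.inv

end

section
variable {F : Type} [Field F] {W W' : Scheme.{0}}

lemma nrm_mul (σ : W ⟶ Spec (.of F)) (w : W) (z z' : W.residueField w) :
    nrm σ w (z * z') = nrm σ w z * nrm σ w z' := by
  unfold nrm
  exact map_mul _ _ _

lemma nrm_one (σ : W ⟶ Spec (.of F)) (w : W) : nrm σ w 1 = 1 := by
  unfold nrm
  exact map_one _

lemma nrm_ne_zero (σ : W ⟶ Spec (.of F)) (w : W) (z : W.residueField w) (hz : z ≠ 0) : nrm σ w z ≠ 0 := by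
  intro h
  have h1 := nrm_mul σ w z z⁻¹
  rw [mul_inv_cancel₀ hz, nrm_one, h, zero_mul] at h1
  exact one_ne_zero h1

/-- if the function becomes a square at `w'`, then the contribution of `w'` is a square -/
lemma isSquare_of_isSquare (σ : W ⟶ Spec (.of F)) (q : W' ⟶ W) (w : W') (z : W.residueField (q w))
    (hz : IsSquare ((q.residueFieldMap w).hom z)) :
    IsSquare ((nrm σ (q w) z) ^ (q.residueDegree w)) := by
  obtain ⟨a, ha⟩ := hz
  let alg : Algebra (W.residueField (q w)) (W'.residueField w) := (q.residueFieldMap w).hom.toAlgebra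
  have h1 : z ^ (q.residueDegree w) = Algebra.norm (W.residueField (q w)) a * Algebra.norm (W.residueField (q w)) a := by
    have h2 : (q.residueFieldMap w).hom z = algebraMap (W.residueField (q w)) (W'.residueField w) z := rfl
    rw [← map_mul, ← ha, h2, Algebra.norm_algebraMap]
    rfl
  have h3 : (nrm σ (q w) z) ^ (q.residueDegree w) = nrm σ (q w) (z ^ (q.residueDegree w)) := by
    unfold nrm
    exact (map_pow _ _ _).symm
  rw [h3, h1, nrm_mul]
  exact ⟨_, rfl⟩

/-- tower law for norms -/
lemma nrm_tower (σ : W ⟶ Spec (.of F)) (q : W' ⟶ W) (w : W') (z : W.residueField (q w))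
    (h1 : (ev σ (q w)).Finite) (h2 : (ev (q ≫ σ) w).Finite) :
    (nrm σ (q w) z) ^ (q.residueDegree w) = nrm (q ≫ σ) w ((q.residueFieldMap w).hom z) := by
  let a1 : Algebra F (W.residueField (q w)) := kalg σ (q w)
  let a2 : Algebra F (W'.residueField w) := kalg (q ≫ σ) w
  let a3 : Algebra (W.residueField (q w)) (W'.residueField w) := (q.residueFieldMap w).hom.toAlgebra
  have hst : IsScalarTower F (W.residueField (q w)) (W'.residueField w) := by
    apply IsScalarTower.of_algebraMap_eq
    intro a
    exact ev_comp σ q w a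
  have f1 : Module.Finite F (W.residueField (q w)) := h1
  have f2 : Module.Finite F (W'.residueField w) := h2
  have f3 : Module.Finite (W.residueField (q w)) (W'.residueField w) :=
    Module.Finite.of_restrictScalars_finite F _ _
  change (Algebra.norm F z) ^ (Module.finrank (W.residueField (q w)) (W'.residueField w)) =
    Algebra.norm F (algebraMap (W.residueField (q w)) (W'.residueField w) z)
  rw [← Algebra.norm_norm (R := F) (S := W.residueField (q w))
    (a := algebraMap (W.residueField (q w)) (W'.residueField w) z), Algebra.norm_algebraMap, map_pow]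

end
end H45.CH0

namespace H45.CH0
open AlgebraicGeometry CategoryTheory CategoryTheory.Limits

/-- square roots of `x (t + 1)` in integrally closed domains -/
lemma sqrt_dom {D : Type*} [CommRing D] [IsDomain D] [IsIntegrallyClosed D] (x t r : D)
    (h : r ^ 2 = x * t ^ 2 * (t + 1)) (ht : t ≠ 0) : ∃ ρ, ρ ^ 2 = x * (t + 1) := by
  have h1 : t ^ 2 ∣ r ^ 2 := ⟨x * (t + 1), by rw [h]; ring⟩
  rw [IsIntegrallyClosed.pow_dvd_pow_iff two_ne_zero] at h1
  obtain ⟨ρ, rfl⟩ := h1
  refine ⟨ρ, ?_⟩
  apply mul_left_cancel₀ (pow_ne_zero 2 ht)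
  linear_combination h

section
variable {A : CommRingCat.{0}} (x t r : A) (hr : r ^ 2 = x * t ^ 2 * (t + 1)) {C : Scheme.{0}}

include hr in
lemma isSquare_ev_of_curve [IsIntegral C] (b : C ⟶ Spec A) (c : C)
    [IsDiscreteValuationRing (C.presheaf.stalk c)] (ht : gam b t ≠ 0) (hc : ev b c t = 0) :
    IsSquare (ev b c x) := by
  let G : A →+* C.presheaf.stalk c := (C.presheaf.germ ⊤ c trivial).hom.comp (gam b).hom
  have hG : ∀ a : A, ev b c a = C.residue c (G a) := by
    intro a
    rw [ev_eq_evaluation]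
    rfl
  have hGt : G t ≠ 0 := by
    intro h
    apply ht
    apply germ_injective_of_isIntegral (X := C) (U := ⊤) c trivial
    rw [map_zero]
    exact h
  have h1 : (G r) ^ 2 = G x * (G t) ^ 2 * (G t + 1) := by
    rw [← map_pow, hr]
    simp
  obtain ⟨ρ, hρ⟩ := sqrt_dom _ _ _ h1 hGt
  refine ⟨C.residue c ρ, ?_⟩
  rw [← map_mul, ← pow_two, hρ, hG, map_mul, map_add, ← hG t, hc]
  simp
end
end H45.CH0
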