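import Mathlib
import Pool.Agent.H45.CH0Ev
set_option autoImplicit false
namespace H45.CH0
open AlgebraicGeometry CategoryTheory CategoryTheory.Limits

section
variable {A : CommRingCat.{0}} {W : Scheme.{0}}

lemma ev_id_eq (pt : Spec A) (hp : pt.asIdeal.IsPrime) : (ev (𝟙 (Spec A)) pt) =
      ((CommRingCat.ofHom (algebraMap A (pt.asIdeal.ResidueField))) ≫
        (Scheme.Spec.residueFieldIso A pt).inv).hom := by
  unfold ev
  congr 1
  apply Spec.map_injective
  rw [Spec.map_preimage, Category.comp_id, Spec.map_comp]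
  exact (Scheme.Spec.map_residueFieldIso_inv_eq_fromSpecResidueField A pt).symm

lemma ev_eq_zero_iff (g : W ⟶ Spec A) (w : W) (z : A) : ev g w z = 0 ↔ z ∈ (g w).asIdeal := by
  have h1 : ev g w z = (g.residueFieldMap w).hom (ev (𝟙 (Spec A)) (g w) z) := by
    have := ev_comp (𝟙 (Spec A)) g w z
    rwa [Category.comp_id] at this
  have hp : (g w).asIdeal.IsPrime := (g w).isPrime
  rw [h1, map_eq_zero, ev_id_eq (g w) hp]
  change (Scheme.Spec.residueFieldIso A (g w)).inv.hom (algebraMap A ((g w).asIdeal.ResidueField) z) = 0 ↔ _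
  have h2 : ∀ y, (Scheme.Spec.residueFieldIso A (g w)).inv.hom y = 0 ↔ y = 0 := by
    intro y
    exact (Scheme.Spec.residueFieldIso A (g w)).symm.commRingCatIsoToRingEquiv.map_eq_zero_iff
  rw [h2]
  exact Ideal.algebraMap_residueField_eq_zero
end

section
variable {A : CommRingCat.{0}} [IsDomain A]

/-- the complement of a hypersurface is dense in the resolution -/
lemma dense_of_resolution (V : (Spec A).Opens) (V' : Scheme.{0}) (f : V' ⟶ V.toScheme) (U : V.toScheme.Opens)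
    (hU' : Dense (f ⁻¹ᵁ U : Set V')) (hiso : IsIso (f ∣_ U)) (t : A) (ht : t ≠ 0)
    (O : V'.Opens) (hO : (O : Set V').Nonempty) : ∃ v ∈ O, ev (f ≫ V.ι) v t ≠ 0 := by
  obtain ⟨v1, hv1O, hv1U⟩ := hU'.inter_open_nonempty O O.isOpen hO
  let h := f ∣_ U
  let g : U.toScheme ⟶ V' := inv h ≫ (f ⁻¹ᵁ U).ι
  let O1 : U.toScheme.Opens := g ⁻¹ᵁ O
  let b : U.toScheme ⟶ Spec A := U.ι ≫ V.ι
  have hgf : g ≫ f = U.ι := by
    simp only [g, h, Category.assoc]
    rw [← morphismRestrict_ι, IsIso.inv_hom_id_assoc]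
  -- a point of `O1`
  have hne : (O1 : Set U.toScheme).Nonempty := by
    refine ⟨h ⟨v1, hv1U⟩, ?_⟩
    change g (h ⟨v1, hv1U⟩) ∈ O
    have : g (h ⟨v1, hv1U⟩) = v1 := by
      have h1 : h ≫ g = (f ⁻¹ᵁ U).ι := by simp only [g]; rw [IsIso.hom_inv_id_assoc]
      have h2 := congrArg (fun k => k.base ⟨v1, hv1U⟩) h1
      exact h2
    rw [this]; exact hv1O
  have hopen : IsOpen (b '' (O1 : Set U.toScheme)) := b.isOpenEmbedding.isOpenMap _ O1.isOpen
  have hD : IsOpen ((PrimeSpectrum.basicOpen t : TopologicalSpace.Opens (PrimeSpectrum A)) : Set (PrimeSpectrum A)) :=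
    (PrimeSpectrum.basicOpen t).isOpen
  have hirr : IrreducibleSpace (PrimeSpectrum A) := inferInstance
  have hDne : ((PrimeSpectrum.basicOpen t : TopologicalSpace.Opens (PrimeSpectrum A)) : Set (PrimeSpectrum A)).Nonempty := by
    refine ⟨⟨⊥, Ideal.isPrime_bot⟩, ?_⟩
    rw [SetLike.mem_coe, PrimeSpectrum.mem_basicOpen]
    exact ht
  have hpre : PreirreducibleSpace (PrimeSpectrum A) := hirr.toPreirreducibleSpace
  have hne1 : (b '' (O1 : Set U.toScheme)).Nonempty := hne.image _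
  obtain ⟨z, -, hz1, hz2⟩ := hpre.isPreirreducible_univ _ _ hopen hD (by
    obtain ⟨z, hz⟩ := hne1
    exact ⟨z, trivial, hz⟩) (by
    obtain ⟨z, hz⟩ := hDne
    exact ⟨z, trivial, hz⟩)
  obtain ⟨u, hu, rfl⟩ := hz1
  refine ⟨g u, hu, ?_⟩
  have h3 : (f ≫ V.ι) (g u) = b u := by
    have h1 : g ≫ (f ≫ V.ι) = b := by rw [← Category.assoc, hgf]
    have h2 := congrArg (fun k => k u) h1
    simpa using h2
  rw [Ne, ev_eq_zero_iff, h3]
  exact hz2
end
end H45.CH0
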