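import Mathlib
import Pool.Agent.H45.CH0Ev
set_option autoImplicit false
namespace H45.CH0
open AlgebraicGeometry CategoryTheory CategoryTheory.Limits

section
variable {F : Type} [Field F] {A : CommRingCat.{0}} {W : Scheme.{0}} (a : W ⟶ Spec A) (σ : W ⟶ Spec (.of F))
  (e : Spec (.of F) ⟶ W) (he : e ≫ σ = 𝟙 _) (θ : A →+* F) (hθ : e ≫ a = Spec.map (CommRingCat.ofHom θ))

lemma ev_id_surjective (pt : Spec (.of F)) : Function.Surjective (ev (𝟙 (Spec (.of F))) pt) := by
  have hp : pt.asIdeal.IsPrime := pt.isPrime
  have h1 : (ev (𝟙 (Spec (.of F))) pt) =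
      ((CommRingCat.ofHom (algebraMap F (pt.asIdeal.ResidueField))) ≫
        (Scheme.Spec.residueFieldIso (.of F) pt).inv).hom := by
    unfold ev
    congr 1
    apply Spec.map_injective
    rw [Spec.map_preimage, Category.comp_id, Spec.map_comp]
    exact (Scheme.Spec.map_residueFieldIso_inv_eq_fromSpecResidueField (.of F) pt).symm
  rw [h1]
  have h2 : Function.Surjective (algebraMap F (pt.asIdeal.ResidueField)) := by
    have : pt.asIdeal.IsMaximal := by
      have h := Ideal.isPrime_bot (α := F)
      have h3 : pt.asIdeal = ⊥ := (Ideal.eq_bot_or_top pt.asIdeal).resolve_right pt.isPrime.ne_top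
      rw [h3]
      exact Ideal.bot_isMaximal
    exact Ideal.algebraMap_residueField_surjective pt.asIdeal
  exact (Scheme.Spec.residueFieldIso (.of F) pt).symm.commRingCatIsoToRingEquiv.surjective.comp h2

include he in
lemma ev_bijective (pt : Spec (.of F)) : Function.Bijective (ev σ (e pt)) := by
  refine ⟨(ev σ (e pt)).injective, ?_⟩
  intro z
  obtain ⟨w, hw⟩ := ev_id_surjective pt ((e.residueFieldMap pt).hom z)
  refine ⟨w, ?_⟩
  apply (e.residueFieldMap pt).hom.injective
  rw [← hw, ← ev_comp, he]

include he hθ in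
lemma ev_section (pt : Spec (.of F)) (z : A) : ev a (e pt) z = ev σ (e pt) (θ z) := by
  apply (e.residueFieldMap pt).hom.injective
  rw [← ev_comp, ← ev_comp, he, hθ]
  have h := ev_spec (𝟙 (Spec (.of F))) (CommRingCat.ofHom θ) pt z
  rw [Category.id_comp] at h
  exact h

include he in
lemma nrm_section (pt : Spec (.of F)) (z : F) : nrm σ (e pt) (ev σ (e pt) z) = z := by
  let alg : Algebra F (W.residueField (e pt)) := kalg σ (e pt)
  have h1 : nrm σ (e pt) (ev σ (e pt) z) = Algebra.norm F (algebraMap F (W.residueField (e pt)) z) := rfl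
  have h2 : Module.finrank F (W.residueField (e pt)) = 1 := by
    rw [finrank_eq_one_iff_of_nonzero' (1 : W.residueField (e pt)) one_ne_zero]
    intro w
    obtain ⟨c, hc⟩ := (ev_bijective σ e he pt).2 w
    refine ⟨c, ?_⟩
    rw [Algebra.smul_def, mul_one]
    exact hc
  rw [h1, Algebra.norm_algebraMap, h2, pow_one]

include he in
lemma isClosed_section [LocallyOfFiniteType σ] (pt : Spec (.of F)) : IsClosed ({e pt} : Set W) := by
  have hj : JacobsonSpace W := LocallyOfFiniteType.jacobsonSpace σ
  have h1 : LocallyOfFiniteType (e ≫ σ) := by rw [he]; infer_instance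
  have h2 : LocallyOfFiniteType e := locallyOfFiniteType_of_comp e σ
  have h3 : IsClosed ({pt} : Set (Spec (.of F))) := by
    have : ({pt} : Set (Spec (.of F))) = Set.univ := by
      ext z
      simp only [Set.mem_singleton_iff, Set.mem_univ, iff_true]
      exact Subsingleton.elim _ _
    rw [this]
    exact isClosed_univ
  exact e.closePoints_subset_preimage_closedPoints h3

end
end H45.CH0
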