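import Mathlib
set_option autoImplicit false
namespace H45.CH0
open PowerSeries

/-- Arc lemma: a point of a scheme etale over affine space is the origin of a formal arc along which a
given non-zero function of the affine space does not vanish. -/
theorem exists_arc {k : Type*} [Field k] [Infinite k] {n : ℕ} {R : Type*} [CommRing R]
    (g : MvPolynomial (Fin n) k →+* R) (hg : g.Etale) {K : Type*} [Field K] (φ : R →+* K)
    (h : MvPolynomial (Fin n) k) (h0 : h ≠ 0) :
    ∃ Φ : R →+* PowerSeries K, (∀ a, PowerSeries.constantCoeff (Φ a) = φ a) ∧ Φ (g h) ≠ 0 := by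
  classical
  let ι : k →+* K := φ.comp (g.comp MvPolynomial.C)
  let xb : Fin n → K := fun j => φ (g (MvPolynomial.X j))
  -- choose a direction
  obtain ⟨c, hc⟩ : ∃ c : Fin n → k, MvPolynomial.eval (fun j => xb j + ι (c j)) (MvPolynomial.map ι h) ≠ 0 := by
    by_contra hcon
    push Not at hcon
    apply h0
    apply MvPolynomial.map_injective ι ι.injective
    rw [map_zero]
    apply MvPolynomial.funext_set (fun j => Set.range (fun c : k => xb j + ι c))
    · intro j
      apply Set.infinite_range_of_injective
      intro a b hab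
      exact ι.injective (add_left_cancel hab)
    · intro z hz
      rw [map_zero]
      have : ∀ j, ∃ c : k, xb j + ι c = z j := by
        intro j
        exact hz j (Set.mem_univ j)
      choose c hc using this
      rw [← hcon c]
      congr 2
      funext j
      exact (hc j).symm
  let ψ' : MvPolynomial (Fin n) k →+* Polynomial K :=
    MvPolynomial.eval₂Hom (Polynomial.C.comp ι)
      (fun j => Polynomial.C (xb j) + Polynomial.C (ι (c j)) * Polynomial.X)
  have hψ'1 : (Polynomial.evalRingHom 1).comp ψ' =
      (MvPolynomial.eval (fun j => xb j + ι (c j))).comp (MvPolynomial.map ι) := by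
    apply MvPolynomial.ringHom_ext
    · intro a; simp [ψ']
    · intro j; simp [ψ']
  have hψ'0 : (Polynomial.evalRingHom 0).comp ψ' = φ.comp g := by
    apply MvPolynomial.ringHom_ext
    · intro a; simp [ψ', ι]
    · intro j; simp [ψ', xb]
  let ψ : MvPolynomial (Fin n) k →+* PowerSeries K := Polynomial.coeToPowerSeries.ringHom.comp ψ'
  have hψh : ψ h ≠ 0 := by
    intro h1
    have h2 : ψ' h = 0 := Polynomial.coe_injective K (by rw [Polynomial.coe_zero]; exact h1)
    apply hc
    have h3 := congrArg (fun f => f h) hψ'1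
    simp only [RingHom.comp_apply] at h3
    rw [← h3, h2, map_zero]
  have hψc : ∀ p, PowerSeries.constantCoeff (ψ p) = φ (g p) := by
    intro p
    have h3 := congrArg (fun f => f p) hψ'0
    simp only [RingHom.comp_apply] at h3
    rw [← h3]
    change PowerSeries.constantCoeff (ψ' p : PowerSeries K) = Polynomial.eval 0 (ψ' p)
    rw [Polynomial.constantCoeff_coe, Polynomial.coeff_zero_eq_eval_zero]
  let P := MvPolynomial (Fin n) k
  let _ : Algebra P R := g.toAlgebra
  let _ : Algebra P (PowerSeries K) := ψ.toAlgebra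
  have hfs : Algebra.FormallySmooth P R := by
    have : Algebra.Etale P R := hg
    infer_instance
  let I : Ideal (PowerSeries K) := Ideal.span {PowerSeries.X}
  have hmem : ∀ z : PowerSeries K, z - PowerSeries.C (PowerSeries.constantCoeff z) ∈ I := by
    intro z
    rw [Ideal.mem_span_singleton, PowerSeries.X_dvd_iff]
    simp
  let f : R →ₐ[P] (PowerSeries K ⧸ I) :=
    { toRingHom := (Ideal.Quotient.mk I).comp (PowerSeries.C.comp φ)
      commutes' := by
        intro p
        change Ideal.Quotient.mk I (PowerSeries.C (φ (g p))) = Ideal.Quotient.mk I (ψ p)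
        rw [eq_comm, Ideal.Quotient.eq, ← hψc]
        exact hmem _ }
  obtain ⟨Φ, hΦ⟩ := Algebra.FormallySmooth.exists_mkₐ_comp_eq_of_isAdicComplete (I := I) f
  refine ⟨Φ.toRingHom, ?_, ?_⟩
  · intro a
    have h1 := congrArg (fun f => f a) hΦ
    have h2 : Ideal.Quotient.mk I (Φ a) = Ideal.Quotient.mk I (PowerSeries.C (φ a)) := h1
    rw [Ideal.Quotient.eq, Ideal.mem_span_singleton, PowerSeries.X_dvd_iff] at h2
    rw [map_sub, PowerSeries.constantCoeff_C, sub_eq_zero] at h2
    exact h2
  · have h1 : Φ.toRingHom (g h) = ψ h := Φ.commutes h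
    rw [h1]
    exact hψh

end H45.CH0
namespace H45.CH0

/-- a function which vanishes on no non-empty open set divides a non-zero function of affine space -/
theorem exists_dvd {k : Type*} [Field k] {n : ℕ} {R : Type*} [CommRing R]
    (g : MvPolynomial (Fin n) k →+* R) (hg : g.Etale) (t : R)
    (ht : ∀ s : R, IsNilpotent (s * t) → IsNilpotent s) :
    ∃ h : MvPolynomial (Fin n) k, h ≠ 0 ∧ t ∣ g h := by
  let P := MvPolynomial (Fin n) k
  let _ : Algebra P R := g.toAlgebra
  have het : Algebra.Etale P R := hg
  have hqf : Algebra.QuasiFinite P R := inferInstance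
  by_contra hcon
  push Not at hcon
  have hcomap : (Ideal.span {t}).comap g = ⊥ := by
    rw [eq_bot_iff]
    intro h hh
    rw [Ideal.mem_comap, Ideal.mem_span_singleton] at hh
    by_contra h0
    exact hcon h h0 hh
  have hmin : (⊥ : Ideal P) ∈ ((Ideal.span {t}).comap g).minimalPrimes := by
    rw [hcomap]
    simp [Ideal.minimalPrimes_eq_subsingleton_self]
  obtain ⟨q, hq, htq, hq0⟩ := Ideal.exists_comap_eq_of_mem_minimalPrimes g _ hmin
  have hqmin : q ∈ minimalPrimes R := by
    obtain ⟨p, hp, hpq⟩ := Ideal.exists_minimalPrimes_le (I := (⊥ : Ideal R)) (J := q) bot_le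
    have hpp : p.IsPrime := hp.1.1
    have : p = q := by
      apply Algebra.QuasiFinite.eq_of_le_of_under_eq (R := P) p q hpq
      have h1 : q.under P = ⊥ := hq0
      rw [h1, eq_bot_iff, ← h1]
      exact Ideal.comap_mono hpq
    rw [← this]
    exact hp
  have htq' : t ∈ q := htq (Ideal.mem_span_singleton_self t)
  obtain ⟨s, hs, hs'⟩ := Ideal.iUnion_minimalPrimes.subset (Set.mem_biUnion hqmin htq')
  apply hs
  have h1 : IsNilpotent (t * s) := mem_nilradical.mp hs'
  rw [mul_comm] at h1
  exact mem_nilradical.mpr (ht s h1)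
end H45.CH0
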