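import Mathlib
import Pool.Agent.H45.CH0Ev
import Pool.Agent.H45.CH0Arc
set_option autoImplicit false
namespace H45.CH0
open AlgebraicGeometry CategoryTheory CategoryTheory.Limits

section
variable {A : CommRingCat.{0}} (x t r : A) (hr : r ^ 2 = x * t ^ 2 * (t + 1)) {V' : Scheme.{0}}

/-- a smooth complex scheme is locally etale over an affine space -/
lemma exists_etale_chart (s : V' ⟶ Spec (.of ℂ)) [Smooth s] (w : V') :
    ∃ (V : V'.Opens) (_ : IsAffineOpen V) (_ : w ∈ V) (n : ℕ) (g : MvPolynomial (Fin n) ℂ →+* Γ(V', V)),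
      g.Etale := by
  obtain ⟨U, hU, V, hV, hw, e, he⟩ := Smooth.exists_isStandardSmooth s w
  have hUtop : U = ⊤ := by
    ext z
    simp only [TopologicalSpace.Opens.coe_top, Set.mem_univ, iff_true]
    have : z = s w := Subsingleton.elim _ _
    rw [this]
    exact e hw
  subst hUtop
  let f : ℂ →+* Γ(V', V) := (s.appLE ⊤ V e).hom.comp (Scheme.ΓSpecIso (.of ℂ)).inv.hom
  have hf : f.IsStandardSmooth := by
    have := RingHom.isStandardSmooth_respectsIso.2 (s.appLE ⊤ V e).hom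
      (Scheme.ΓSpecIso (.of ℂ)).symm.commRingCatIsoToRingEquiv he
    exact this
  obtain ⟨n, g, -, hg⟩ := RingHom.IsStandardSmooth.exists_etale_mvPolynomial hf
  exact ⟨V, hV, hw, n, g, hg⟩

include hr in
lemma isSquare_ev_of_smooth (s : V' ⟶ Spec (.of ℂ)) [Smooth s] (b : V' ⟶ Spec A)
    (hdense : ∀ U : V'.Opens, (U : Set V').Nonempty → ∃ v ∈ U, ev b v t ≠ 0)
    (w : V') (hw : ev b w t = 0) : IsSquare (ev b w x) := by
  obtain ⟨V, hV, hwV, n, g, hg⟩ := exists_etale_chart s w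
  let ρ : A →+* Γ(V', V) := (V'.presheaf.map (homOfLE le_top : V ⟶ ⊤).op).hom.comp (gam b).hom
  have hev : ∀ (v : V') (hv : v ∈ V) (a : A), ev b v a = V'.evaluation V v hv (ρ a) := by
    intro v hv a
    rw [ev_eq_evaluation]
    change V'.residue v (V'.presheaf.germ ⊤ v trivial (gam b a)) =
      V'.residue v (V'.presheaf.germ V v hv (V'.presheaf.map (homOfLE le_top : V ⟶ ⊤).op (gam b a)))
    rw [TopCat.Presheaf.germ_res_apply]
  have hnil : ∀ z : Γ(V', V), IsNilpotent (z * ρ t) → IsNilpotent z := by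
    intro z hz
    by_contra hcon
    rw [Scheme.isNilpotent_iff_basicOpen_eq_bot_of_isCompact hV.isCompact] at hcon hz
    obtain ⟨v, hv⟩ : (V'.basicOpen z : Set V').Nonempty := by
      rwa [Set.nonempty_iff_ne_empty, Ne, TopologicalSpace.Opens.coe_eq_empty]
    obtain ⟨v, hv, hvt⟩ := hdense _ ⟨v, hv⟩
    have hvV : v ∈ V := V'.basicOpen_le z hv
    have : v ∈ V'.basicOpen (z * ρ t) := by
      rw [← Scheme.evaluation_ne_zero_iff_mem_basicOpen V' v hvV, map_mul]
      apply mul_ne_zero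
      · rwa [Scheme.evaluation_ne_zero_iff_mem_basicOpen V' v hvV]
      · rwa [← hev v hvV]
    rw [hz] at this
    exact this
  obtain ⟨h, h0, hdvd⟩ := exists_dvd g hg (ρ t) hnil
  obtain ⟨Φ, hΦ, hΦh⟩ := exists_arc g hg (V'.evaluation V w hwV).hom h h0
  have hΦt : Φ (ρ t) ≠ 0 := by
    intro h1
    apply hΦh
    obtain ⟨y, hy⟩ := hdvd
    rw [hy, map_mul, h1, zero_mul]
  have h1 : (Φ (ρ r)) ^ 2 = Φ (ρ x) * (Φ (ρ t)) ^ 2 * (Φ (ρ t) + 1) := by
    rw [← map_pow, ← map_pow, hr]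
    simp
  obtain ⟨σ, hσ⟩ := sqrt_dom _ _ _ h1 hΦt
  refine ⟨PowerSeries.constantCoeff σ, ?_⟩
  have h2 := congrArg PowerSeries.constantCoeff hσ
  rw [map_pow, map_mul, map_add, hΦ, hΦ] at h2
  rw [hev w hwV] at hw ⊢
  have h3 : (V'.evaluation V w hwV).hom (ρ t) = 0 := hw
  rw [h3, map_one, zero_add, mul_one] at h2
  rw [← pow_two, h2]
end
end H45.CH0
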