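import Mathlib
import Pool.Agent.H45.CH0Sect
set_option autoImplicit false
namespace H45.CH0
open AlgebraicGeometry CategoryTheory CategoryTheory.Limits Polynomial

section
variable (R : CommRingCat.{0})

/-- the stalk is an algebra over the ring -/
noncomputable abbrev stAlg (c : Spec R) : Algebra R ((Spec R).presheaf.stalk c) := StructureSheaf.stalkAlgebra R c

lemma stAlg_loc (c : Spec R) (hp : c.asIdeal.IsPrime) :
    @IsLocalization.AtPrime R _ ((Spec R).presheaf.stalk c) _ (stAlg R c) c.asIdeal hp :=
  StructureSheaf.IsLocalization.to_stalk R c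

lemma stAlg_apply (c : Spec R) (a : R) : (stAlg R c).algebraMap a =
    ((Spec R).presheaf.germ ⊤ c trivial).hom ((Scheme.ΓSpecIso R).inv.hom a) := by
  rfl

lemma spec_dvr [IsDomain R] [IsDedekindRing R] (hR : ¬ IsField R) (c : Spec R) (hc : IsClosed ({c} : Set (Spec R))) :
    IsDiscreteValuationRing ((Spec R).presheaf.stalk c) := by
  have h1 : c.asIdeal.IsMaximal := (PrimeSpectrum.isClosed_singleton_iff_isMaximal c).mp hc
  have h2 : c.asIdeal ≠ ⊥ := Ring.ne_bot_of_isMaximal_of_not_isField h1 hR
  have hp : c.asIdeal.IsPrime := c.isPrime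
  let h0 := stAlg R c
  have h3 : IsLocalization.AtPrime ((Spec R).presheaf.stalk c) c.asIdeal := stAlg_loc R c hp
  have h4 : IsDomain ((Spec R).presheaf.stalk c) := inferInstance
  have h5 : IsDedekindDomain R := ⟨⟩
  exact IsLocalization.AtPrime.isDiscreteValuationRing_of_dedekind_domain R h2 _

instance (Y : Scheme.{0}) [Nonempty Y] : Nonempty (⊤ : Y.Opens) := by
  obtain ⟨y⟩ := ‹Nonempty Y›
  exact ⟨⟨y, trivial⟩⟩

/-- the rational function on `Spec R` given by an element of `R` -/
noncomputable def ratf [IsDomain R] (a : R) : (Spec R).functionField :=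
  ((Spec R).germToFunctionField ⊤).hom ((Scheme.ΓSpecIso R).inv.hom a)

lemma ratf_eq [IsDomain R] (c : Spec R) (a : R) : algebraMap ((Spec R).presheaf.stalk c) (Spec R).functionField
    ((stAlg R c).algebraMap a) = ratf R a := by
  rw [stAlg_apply]
  exact Scheme.algebraMap_germ_eq_germToFunctionField (X := Spec R) (U := ⊤) trivial _

lemma ratf_ne_zero [IsDomain R] (a : R) (ha : a ≠ 0) : ratf R a ≠ 0 := by
  intro h
  apply ha
  have h1 := (Spec R).germToFunctionField_injective ⊤
  have h2 : (Scheme.ΓSpecIso R).inv.hom a = 0 := by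
    apply h1
    rw [map_zero]
    exact h
  have h3 : Function.Injective (Scheme.ΓSpecIso R).inv.hom :=
    (Scheme.ΓSpecIso R).symm.commRingCatIsoToRingEquiv.injective
  apply h3
  rw [h2, map_zero]

/-- the divisor of a prime element generating a maximal ideal -/
lemma isDiv_single [IsDomain R] [IsDedekindRing R] (hR : ¬ IsField R) (a : R) (c0 : Spec R) (hc0 : IsClosed ({c0} : Set (Spec R)))
    (ha : c0.asIdeal = Ideal.span {a}) : IsDiv (Spec R) (ratf R a) (Finsupp.single c0 1) := by
  classical
  refine ⟨?_, ?_⟩
  · intro x hx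
    have h1 := Finsupp.support_single_subset hx
    rw [Finset.mem_singleton] at h1
    rw [h1]
    exact hc0
  · intro c hc
    have h1 : c.asIdeal.IsMaximal := (PrimeSpectrum.isClosed_singleton_iff_isMaximal c).mp hc
    have h0m : c0.asIdeal.IsMaximal := (PrimeSpectrum.isClosed_singleton_iff_isMaximal c0).mp hc0
    have hdvr := spec_dvr R hR c hc
    have hp : c.asIdeal.IsPrime := c.isPrime
    let h0 := stAlg R c
    have h3 : IsLocalization.AtPrime ((Spec R).presheaf.stalk c) c.asIdeal := stAlg_loc R c hp
    by_cases hcc : c = c0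
    · subst hcc
      rw [Finsupp.single_eq_same]
      refine ⟨(stAlg R c).algebraMap a, 1, ?_, ?_⟩
      · rw [IsDiscreteValuationRing.irreducible_iff_uniformizer]
        have h4 := IsLocalization.AtPrime.map_eq_maximalIdeal c.asIdeal ((Spec R).presheaf.stalk c)
        rw [← h4, ha, Ideal.map_span, Set.image_singleton]
      · rw [zpow_one, Units.val_one, map_one, mul_one, ratf_eq]
    · rw [Finsupp.single_eq_of_ne hcc]
      obtain ⟨ϖ, hϖ⟩ := IsDiscreteValuationRing.exists_irreducible ((Spec R).presheaf.stalk c)
      have h4 : a ∉ c.asIdeal := by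
        intro h5
        apply hcc
        have h6 : c0.asIdeal ≤ c.asIdeal := by
          rw [ha, Ideal.span_singleton_le_iff_mem]
          exact h5
        have h7 := h0m.eq_of_le h1.ne_top h6
        exact PrimeSpectrum.ext h7.symm
      have h5 : IsUnit ((stAlg R c).algebraMap a) :=
        (IsLocalization.AtPrime.isUnit_to_map_iff ((Spec R).presheaf.stalk c) c.asIdeal a).mpr h4
      obtain ⟨u, hu⟩ := h5
      refine ⟨ϖ, u, hϖ, ?_⟩
      rw [zpow_zero, one_mul, hu, ratf_eq]

end
section
variable {W C : Scheme.{0}}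

lemma fromSpec_residueFieldMap_surjective (w : W) (pt : Spec (W.residueField w)) :
    Function.Surjective ((W.fromSpecResidueField w).residueFieldMap pt).hom := by
  have h1 : Function.Surjective ((W.fromSpecResidueField w).stalkMap pt).hom :=
    (W.fromSpecResidueField w).stalkMap_surjective pt
  have h2 := (Spec (W.residueField w)).residue_surjective pt
  have h3 := Scheme.residue_residueFieldMap (W.fromSpecResidueField w) pt
  intro z
  obtain ⟨a, ha⟩ := h2 z
  obtain ⟨b, hb⟩ := h1 a
  refine ⟨(W.residue _).hom b, ?_⟩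
  have h4 := congrArg (fun f => f.hom b) h3
  rw [← ha]
  refine h4.trans ?_
  change (Scheme.residue _ pt).hom (((W.fromSpecResidueField w).stalkMap pt).hom b) = _
  rw [hb]

lemma residueDegree_eq_one (p : C ⟶ W) (w : W) (h : Spec (W.residueField w) ⟶ C)
    (hh : h ≫ p = W.fromSpecResidueField w) (pt : Spec (W.residueField w)) :
    p.residueDegree (h pt) = 1 := by
  have h1 : Function.Surjective (p.residueFieldMap (h pt)).hom := by
    have h2 : Function.Surjective ((h ≫ p).residueFieldMap pt).hom := by
      rw [hh]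
      exact fromSpec_residueFieldMap_surjective w pt
    rw [Scheme.residueFieldMap_comp] at h2
    intro z
    obtain ⟨y, hy⟩ := h2 ((h.residueFieldMap pt).hom z)
    exact ⟨y, (h.residueFieldMap pt).hom.injective hy⟩
  let alg : Algebra (W.residueField (p (h pt))) (C.residueField (h pt)) := (p.residueFieldMap (h pt)).hom.toAlgebra
  change Module.finrank (W.residueField (p (h pt))) (C.residueField (h pt)) = 1
  rw [finrank_eq_one_iff_of_nonzero' (1 : C.residueField (h pt)) one_ne_zero]
  intro z
  obtain ⟨c, hc⟩ := h1 z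
  refine ⟨c, ?_⟩
  rw [Algebra.smul_def, mul_one]
  exact hc

end
end H45.CH0
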