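import Mathlib
import Pool.Agent.H45.CH0Div
set_option autoImplicit false
namespace H45.CH0
open AlgebraicGeometry CategoryTheory CategoryTheory.Limits Polynomial

section
variable {W : Scheme.{0}} (w : W)

lemma push_single {C : Scheme.{0}} (p : C ⟶ W) (c : C) (n : ℤ) :
    push p (Finsupp.single c n) = Finsupp.single (p c) (n * (p.residueDegree c : ℤ)) := by
  unfold push
  rw [Finsupp.sum_single_index]
  rw [zero_mul, Finsupp.single_zero]

/-- a closed point on an affine line -/
lemma single_mem_Rat (p : Spec (.of (W.residueField w)[X]) ⟶ W) [IsFinite p] (c0 : W.residueField w)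
    (hp : Spec.map (CommRingCat.ofHom (evalRingHom c0)) ≫ p = W.fromSpecResidueField w) :
    Finsupp.single w 1 ∈ Rat W := by
  let h : Spec (W.residueField w) ⟶ Spec (.of (W.residueField w)[X]) := Spec.map (CommRingCat.ofHom (evalRingHom c0))
  let pt : Spec (W.residueField w) := (⟨⊥, Ideal.isPrime_bot⟩ : PrimeSpectrum (W.residueField w))
  have hpc : p (h pt) = w := by
    have h1 : (h ≫ p) pt = (W.fromSpecResidueField w) pt := congrArg (fun f => f.base pt) hp
    exact h1.trans (Scheme.fromSpecResidueField_apply _ _)
  have hdeg : p.residueDegree (h pt) = 1 := residueDegree_eq_one p w h hp pt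
  have hid : (h pt).asIdeal = Ideal.span {X - C c0} := by
    have h1 : (h pt).asIdeal = RingHom.ker (evalRingHom c0) := rfl
    rw [h1, Polynomial.ker_evalRingHom]
  have hmax : (h pt).asIdeal.IsMaximal := by
    have h1 : (h pt).asIdeal = RingHom.ker (evalRingHom c0) := rfl
    rw [h1]
    exact RingHom.ker_isMaximal_of_surjective _ (fun z => ⟨C z, by simp⟩)
  have hcl : IsClosed ({h pt} : Set (Spec (.of (W.residueField w)[X]))) :=
    (PrimeSpectrum.isClosed_singleton_iff_isMaximal _).mpr hmax
  have hdom : IsDomain (CommRingCat.of (W.residueField w)[X]) := inferInstanceAs (IsDomain (W.residueField w)[X])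
  have hded : IsDedekindRing (CommRingCat.of (W.residueField w)[X]) := inferInstanceAs (IsDedekindRing (W.residueField w)[X])
  have hnf : ¬ IsField (CommRingCat.of (W.residueField w)[X]) := Polynomial.not_isField _
  apply AddSubgroup.subset_closure
  refine ⟨Spec (.of (W.residueField w)[X]), inferInstance, p, inferInstance, fun c hc => spec_dvr _ hnf c hc,
    ratf _ (X - C c0), Finsupp.single (h pt) 1, ?_, ?_, ?_⟩
  · exact ratf_ne_zero _ _ (X_sub_C_ne_zero c0)
  · exact isDiv_single _ hnf _ _ hcl hid
  · rw [push_single, hpc, hdeg]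
    simp

end

section
variable {F : Type} [Field F]

/-- a finite map between polynomial rings -/
lemma finite_poly {κ : Type} [Field κ] (v : F →+* κ) (hv : v.Finite) :
    (eval₂RingHom ((C : κ →+* κ[X]).comp v) (X ^ 2 - 1)).Finite := by
  let alg : Algebra F[X] κ[X] := (eval₂RingHom ((C : κ →+* κ[X]).comp v) (X ^ 2 - 1)).toAlgebra
  apply RingHom.IsIntegral.to_finite
  · have h1 : ∀ z : κ, (eval₂RingHom ((C : κ →+* κ[X]).comp v) (X ^ 2 - 1)).IsIntegralElem (C z) := by
      intro z
      obtain ⟨P, hP, hz⟩ := hv.to_isIntegral z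
      refine ⟨P.map C, hP.map C, ?_⟩
      rw [eval₂_map]
      have h2 : (eval₂RingHom ((C : κ →+* κ[X]).comp v) (X ^ 2 - 1)).comp C = (C : κ →+* κ[X]).comp v := by
        ext a; simp
      rw [h2, ← Polynomial.hom_eval₂, hz, map_zero]
    have h2 : (eval₂RingHom ((C : κ →+* κ[X]).comp v) (X ^ 2 - 1)).IsIntegralElem X := by
      refine ⟨X ^ 2 - C (X + 1), ?_, ?_⟩
      · exact monic_X_pow_sub_C _ two_ne_zero
      · simp
    intro z
    induction z using Polynomial.induction_on with
    | C a => exact h1 a
    | add p q hp hq => exact hp.add _ hq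
    | monomial n a h =>
      have e : C a * X ^ (n + 1) = C a * X ^ n * X := by ring
      rw [e]
      exact h.mul _ h2
  · have h1 : ((C : κ →+* κ[X]).comp v).FiniteType := by
      apply RingHom.FiniteType.comp
      · have : Algebra.FiniteType κ κ[X] := inferInstance
        exact (RingHom.finiteType_algebraMap).mpr this
      · exact hv.finiteType
    have h2 : (eval₂RingHom ((C : κ →+* κ[X]).comp v) (X ^ 2 - 1)).comp C = (C : κ →+* κ[X]).comp v := by
      ext a; simp
    rw [← h2] at h1
    exact RingHom.FiniteType.of_comp_finiteType h1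

end
end H45.CH0
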