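import Mathlib

open Set Filter Topology

namespace Pool.Agent.H45.AF

/-- Combinatorial data of the equivalence relation attached to an increasing sequence of full
matrix algebras: `loc n x` is the level-`n` position of `x`, and `tr n j x` is the point
equivalent to `x` at level `n` located at `j`. -/
structure Sys (X : Type*) [TopologicalSpace X] where
  k : ℕ → ℕ
  loc : ∀ n, X → Fin (k n)
  tr : ∀ n, Fin (k n) → X → X
  loc_tr : ∀ n j x, loc n (tr n j x) = j
  tr_loc : ∀ n x, tr n (loc n x) x = x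
  tr_tr : ∀ n i j x, tr n j (tr n i x) = tr n j x
  succ : ∀ n j x, ∃ q, ∀ x', loc (n + 1) x' = loc (n + 1) x → tr n j x' = tr (n + 1) q x'
  isOpen_loc : ∀ n i, IsOpen {x | loc n x = i}
  basis : ∀ x, ∀ U ∈ 𝓝 x, ∃ n, ∀ x', loc n x' = loc n x → x' ∈ U

variable {X : Type*} [TopologicalSpace X]

namespace Sys

variable (s : Sys X)

/-- Level-`n` equivalence. -/
def Rel (n : ℕ) (x y : X) : Prop := s.tr n (s.loc n y) x = y

lemma rel_tr (n : ℕ) (j : Fin (s.k n)) (x : X) : s.Rel n x (s.tr n j x) := by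
  rw [Rel, s.loc_tr]

lemma Rel.refl (n : ℕ) (x : X) : s.Rel n x x := s.tr_loc n x

variable {s}

lemma Rel.symm {n : ℕ} {x y : X} (h : s.Rel n x y) : s.Rel n y x := by
  rw [Rel] at h ⊢
  rw [← h, s.tr_tr, s.tr_loc]

lemma Rel.trans {n : ℕ} {x y z : X} (h : s.Rel n x y) (h' : s.Rel n y z) : s.Rel n x z := by
  rw [Rel] at h h' ⊢
  rw [← h, s.tr_tr] at h'
  exact h'

lemma Rel.succ {n : ℕ} {x y : X} (h : s.Rel n x y) : s.Rel (n + 1) x y := by
  rw [Rel] at h
  obtain ⟨q, hq⟩ := s.succ n (s.loc n y) x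
  have h1 := hq x rfl
  rw [h] at h1
  rw [h1]
  exact s.rel_tr _ _ _

lemma Rel.mono {n m : ℕ} (hnm : n ≤ m) {x y : X} (h : s.Rel n x y) : s.Rel m x y := by
  induction m, hnm using Nat.le_induction with
  | base => exact h
  | succ m _ ih => exact ih.succ

/-- A continuous cocycle. -/
structure Cocycle (s : Sys X) (c : X → X → ℝ) : Prop where
  add : ∀ n x y z, s.Rel n x y → s.Rel n y z → c x y + c y z = c x z
  cont : ∀ n j, Continuous fun x => c x (s.tr n j x)

lemma Cocycle.neg {c : X → X → ℝ} (hc : s.Cocycle c) : s.Cocycle fun x y => - c x y where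
  add n x y z h h' := by rw [← hc.add n x y z h h']; ring
  cont n j := (hc.cont n j).neg

lemma Cocycle.self {c : X → X → ℝ} (hc : s.Cocycle c) (x : X) : c x x = 0 := by
  have := hc.add 0 x x x (Rel.refl s 0 x) (Rel.refl s 0 x)
  linarith

lemma Cocycle.swap {c : X → X → ℝ} (hc : s.Cocycle c) {n : ℕ} {x y : X} (h : s.Rel n x y) :
    c y x = - c x y := by
  have := hc.add n x y x h h.symm
  rw [hc.self] at this
  linarith

/-- The supremum of the cocycle over the class. -/
noncomputable def sup (s : Sys X) (c : X → X → ℝ) (x : X) : ℝ :=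
  ⨆ p : (Σ n, Fin (s.k n)), c x (s.tr p.1 p.2 x)

/-- Boundedness. -/
def Bdd (s : Sys X) (c : X → X → ℝ) : Prop := ∃ K, ∀ n x y, s.Rel n x y → |c x y| ≤ K

lemma bddAbove {c : X → X → ℝ} (hb : s.Bdd c) (x : X) :
    BddAbove (range fun p : (Σ n, Fin (s.k n)) => c x (s.tr p.1 p.2 x)) := by
  obtain ⟨K, hK⟩ := hb
  refine ⟨K, ?_⟩
  rintro _ ⟨p, rfl⟩
  exact (le_abs_self _).trans (hK p.1 x _ (s.rel_tr _ _ _))

lemma le_sup {c : X → X → ℝ} (hb : s.Bdd c) {n : ℕ} {x y : X} (h : s.Rel n x y) :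
    c x y ≤ s.sup c x := by
  have := le_ciSup (bddAbove hb x) ⟨n, s.loc n y⟩
  simp only at this
  rw [h] at this
  exact this

lemma sup_le_add {c : X → X → ℝ} (hc : s.Cocycle c) (hb : s.Bdd c) {n : ℕ} {x y : X}
    (h : s.Rel n x y) : s.sup c x ≤ c x y + s.sup c y := by
  haveI : Nonempty (Σ n, Fin (s.k n)) := ⟨⟨0, s.loc 0 x⟩⟩
  apply ciSup_le
  rintro ⟨m, j⟩
  simp only
  have h1 : s.Rel (max n m) x y := h.mono (le_max_left _ _)
  have h2 : s.Rel (max n m) x (s.tr m j x) := (s.rel_tr m j x).mono (le_max_right _ _)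
  have h3 : s.Rel (max n m) y (s.tr m j x) := h1.symm.trans h2
  rw [← hc.add _ _ _ _ h1 h3]
  have := le_sup hb h3
  linarith

lemma sup_eq_add {c : X → X → ℝ} (hc : s.Cocycle c) (hb : s.Bdd c) {n : ℕ} {x y : X}
    (h : s.Rel n x y) : s.sup c x = c x y + s.sup c y := by
  apply le_antisymm (sup_le_add hc hb h)
  have := sup_le_add hc hb h.symm
  rw [hc.swap h] at this
  linarith

lemma lsc_sup {c : X → X → ℝ} (hc : s.Cocycle c) (hb : s.Bdd c) :
    LowerSemicontinuous (s.sup c) := by
  apply lowerSemicontinuous_ciSup (fun x => bddAbove hb x)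
  rintro ⟨n, j⟩
  exact (hc.cont n j).lowerSemicontinuous

/-- Minimality: every class meets every nonempty open set, at a level depending only on the open
set. -/
lemma minimal {U : Set X} (hU : IsOpen U) {z : X} (hz : z ∈ U) :
    ∃ n, ∃ j, ∀ x, s.tr n j x ∈ U := by
  obtain ⟨n, hn⟩ := s.basis z U (hU.mem_nhds hz)
  refine ⟨n, s.loc n z, fun x => hn _ ?_⟩
  rw [s.loc_tr]

lemma Bdd.neg {c : X → X → ℝ} (hb : s.Bdd c) : s.Bdd fun x y => - c x y := by
  obtain ⟨K, hK⟩ := hb
  exact ⟨K, fun n x y h => by rw [abs_neg]; exact hK n x y h⟩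

/-- A bounded continuous cocycle is a continuous coboundary. -/
lemma continuous_sup {c : X → X → ℝ} (hc : s.Cocycle c) (hb : s.Bdd c) :
    Continuous (s.sup c) := by
  set T : X → ℝ := fun x => s.sup c x + s.sup (fun x y => - c x y) x with hT
  have hTlsc : LowerSemicontinuous T := (lsc_sup hc hb).add (lsc_sup hc.neg hb.neg)
  have hTinv : ∀ n x y, s.Rel n x y → T x = T y := by
    intro n x y h
    simp only [hT]
    rw [sup_eq_add hc hb h, sup_eq_add hc.neg hb.neg h]
    ring
  have hTle : ∀ x z, T z ≤ T x := by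
    intro x z
    by_contra hcon
    push Not at hcon
    have hopen : IsOpen {w | T x < T w} := hTlsc.isOpen_preimage _
    obtain ⟨n, j, hj⟩ := minimal (s := s) hopen (z := z) hcon
    have h1 := hj x
    have h2 := hTinv n x _ (s.rel_tr n j x)
    rw [mem_ofPred_eq] at h1
    linarith
  rw [continuous_iff_lower_upperSemicontinuous]
  refine ⟨lsc_sup hc hb, ?_⟩
  rcases isEmpty_or_nonempty X with hX | ⟨⟨x0⟩⟩
  · intro x; exact isEmptyElim x
  have h1 : s.sup c = fun x => T x0 - s.sup (fun x y => - c x y) x := by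
    funext x
    have : T x = T x0 := le_antisymm (hTle _ _) (hTle _ _)
    simp only [hT] at this ⊢
    linarith
  rw [h1]
  have h2 : UpperSemicontinuous fun x => - s.sup (fun x y => - c x y) x := by
    intro x y hy
    have := lsc_sup hc.neg hb.neg x (-y) (by linarith)
    filter_upwards [this] with w hw
    linarith
  have h3 := (upperSemicontinuous_const (z := T x0) (α := X)).add h2
  simpa [sub_eq_add_neg] using h3

/-- A continuous cocycle is bounded at each level. -/
lemma level_bdd [CompactSpace X] {c : X → X → ℝ} (hc : s.Cocycle c) (n : ℕ) :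
    ∃ K, ∀ x y, s.Rel n x y → |c x y| ≤ K := by
  have h1 : ∀ j : Fin (s.k n), ∃ K, ∀ x, |c x (s.tr n j x)| ≤ K := by
    intro j
    obtain ⟨K, hK⟩ := (isCompact_range (hc.cont n j).abs).bddAbove
    exact ⟨K, fun x => hK ⟨x, rfl⟩⟩
  choose K hK using h1
  rcases isEmpty_or_nonempty X with hX | ⟨⟨x0⟩⟩
  · exact ⟨0, fun x => isEmptyElim x⟩
  refine ⟨∑ j, |K j|, fun x y h => ?_⟩
  have h2 := hK (s.loc n y) x
  rw [h] at h2
  refine h2.trans ((le_abs_self _).trans ?_)
  exact Finset.single_le_sum (f := fun j => |K j|) (fun j _ => abs_nonneg _) (Finset.mem_univ _)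

/-- **Abstract theorem.** If a continuous cocycle `c` has the same non-negativity set as a bounded
continuous cocycle `d`, then `c` is bounded. -/
theorem bounded_of_same_sign [CompactSpace X] {c d : X → X → ℝ} (hc : s.Cocycle c)
    (hd : s.Cocycle d) (hb : s.Bdd d)
    (h : ∀ n x y, s.Rel n x y → (0 ≤ c x y ↔ 0 ≤ d x y)) : s.Bdd c := by
  by_cases htriv : ∀ n x y, s.Rel n x y → d x y = 0
  · refine ⟨0, fun n x y hxy => ?_⟩
    have h1 := (h n x y hxy).2 (htriv n x y hxy).ge
    have h2 := (h n y x hxy.symm).2 (htriv n y x hxy.symm).ge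
    rw [hc.swap hxy] at h2
    have : c x y = 0 := le_antisymm (by linarith) h1
    rw [this, abs_zero]
  push Not at htriv
  obtain ⟨n0, x0, y0, hxy0, hne⟩ := htriv
  set S := s.sup d with hS
  have hScont : Continuous S := continuous_sup hd hb
  have hSd : ∀ n x y, s.Rel n x y → d x y = S x - S y := by
    intro n x y hxy
    rw [hS, sup_eq_add hd hb hxy]; ring
  -- two open sets separated by `S`
  obtain ⟨t, u, v, hu, hv⟩ : ∃ (t : ℝ) (u v : X), S u < t ∧ t < S v := by
    have h1 : S x0 ≠ S y0 := by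
      intro hcon
      apply hne
      rw [hSd n0 x0 y0 hxy0, hcon, sub_self]
    rcases lt_or_gt_of_ne h1 with h2 | h2
    · exact ⟨(S x0 + S y0) / 2, x0, y0, by linarith, by linarith⟩
    · exact ⟨(S x0 + S y0) / 2, y0, x0, by linarith, by linarith⟩
  obtain ⟨n1, j1, h1⟩ := minimal (s := s) (isOpen_lt hScont continuous_const) (z := u)
    (show u ∈ {x | S x < t} from hu)
  obtain ⟨n2, j2, h2⟩ := minimal (s := s) (isOpen_lt continuous_const hScont) (z := v)
    (show v ∈ {x | t < S x} from hv)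
  obtain ⟨K1, hK1⟩ := level_bdd hc n1
  obtain ⟨K2, hK2⟩ := level_bdd hc n2
  -- the cocycle is bounded on the open set `S < t`
  have key : ∀ n x y, S x < t → S y < t → s.Rel n x y → c x y ≤ K2 := by
    intro n x y hx hy hxy
    -- pass through a point where `t < S`
    have hw : t < S (s.tr n2 j2 y) := h2 y
    set w := s.tr n2 j2 y with hwdef
    have hyw : s.Rel (max n n2) y w := (s.rel_tr n2 j2 y).mono (le_max_right _ _)
    have hxw : s.Rel (max n n2) x w := (hxy.mono (le_max_left _ _)).trans hyw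
    have h3 : c x w < 0 := by
      by_contra hcon
      push Not at hcon
      have := (h _ _ _ hxw).1 hcon
      rw [hSd _ _ _ hxw] at this
      linarith
    have h4 := hc.add _ _ _ _ hxw hyw.symm
    have h5 := (abs_le.1 (hK2 w y (s.rel_tr n2 j2 y).symm)).2
    linarith
  refine ⟨K1 + K2 + K1, fun n x y hxy => ?_⟩
  -- bounding the absolute value
  have main : ∀ n x y, s.Rel n x y → c x y ≤ K1 + K2 + K1 := by
    intro n x y hxy
    set x' := s.tr n1 j1 x with hx'
    set y' := s.tr n1 j1 y with hy'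
    have hxx : s.Rel (max n n1) x x' := (s.rel_tr n1 j1 x).mono (le_max_right _ _)
    have hyy : s.Rel (max n n1) y y' := (s.rel_tr n1 j1 y).mono (le_max_right _ _)
    have hxy' : s.Rel (max n n1) x y := hxy.mono (le_max_left _ _)
    have hx'y' : s.Rel (max n n1) x' y' := hxx.symm.trans (hxy'.trans hyy)
    have e1 := hc.add _ _ _ _ hxx hx'y'
    have e2 := hc.add _ _ _ _ (hxx.trans hx'y') hyy.symm
    have b1 := (abs_le.1 (hK1 x x' (s.rel_tr n1 j1 x))).2
    have b2 := (abs_le.1 (hK1 y' y (s.rel_tr n1 j1 y).symm)).2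
    have b3 := key _ x' y' (h1 x) (h1 y) hx'y'
    linarith
  rw [abs_le]
  constructor
  · have := main n y x hxy.symm
    rw [hc.swap hxy] at this
    linarith
  · exact main n x y hxy

end Sys

end Pool.Agent.H45.AF
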