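import Mathlib
import Pool.Agent.H45.CH0Defs
set_option autoImplicit false
set_option linter.style.haveILetI false

namespace H45.CH0
open Polynomial

variable {F : Type*} [Field F]

lemma trailingCoeff_mul (p q : F[X]) : (p * q).trailingCoeff = p.trailingCoeff * q.trailingCoeff := by
  by_cases hp : p = 0
  · simp [hp]
  by_cases hq : q = 0
  · simp [hq]
  unfold Polynomial.trailingCoeff
  rw [natTrailingDegree_mul hp hq, coeff_mul_natTrailingDegree_add_natTrailingDegree]
  rfl

lemma trailingCoeff_add_of_lt {p q : F[X]} (hp : p ≠ 0) (h : ∀ m ≤ p.natTrailingDegree, q.coeff m = 0) :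
    (p + q).trailingCoeff = p.trailingCoeff := by
  have h1 : (p + q).coeff p.natTrailingDegree = p.trailingCoeff := by
    rw [coeff_add, h _ le_rfl, add_zero]; rfl
  have h2 : (p + q).coeff p.natTrailingDegree ≠ 0 := by
    rw [h1]; exact trailingCoeff_nonzero_iff_nonzero.mpr hp
  have hne : p + q ≠ 0 := by
    intro h0; rw [h0] at h2; simp at h2
  have h3 : (p + q).natTrailingDegree = p.natTrailingDegree := by
    apply le_antisymm
    · exact natTrailingDegree_le_of_ne_zero h2
    · apply le_natTrailingDegree hne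
      intro m hm
      rw [coeff_add, h m hm.le, add_zero]
      exact coeff_eq_zero_of_lt_natTrailingDegree hm
  unfold Polynomial.trailingCoeff
  rw [h3, h1]; rfl

/-- product of extreme coefficients -/
noncomputable def tau (p : F[X]) : F := p.trailingCoeff * p.leadingCoeff

lemma tau_mul (p q : F[X]) : tau (p * q) = tau p * tau q := by
  unfold tau
  rw [trailingCoeff_mul, leadingCoeff_mul]; ring

lemma tau_ne_zero {p : F[X]} (hp : p ≠ 0) : tau p ≠ 0 :=
  mul_ne_zero (trailingCoeff_nonzero_iff_nonzero.mpr hp) (leadingCoeff_ne_zero.mpr hp)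

lemma tau_pow (p : F[X]) (n : ℕ) (hn : n ≠ 0) : tau (p ^ n) = tau p ^ n := by
  induction n with
  | zero => exact absurd rfl hn
  | succ k ih =>
    rcases Nat.eq_zero_or_pos k with rfl | hk
    · simp
    · rw [pow_succ, tau_mul, ih hk.ne', pow_succ]

lemma X3_natDegree : (X ^ 3 - X : F[X]).natDegree = 3 := by compute_degree!

lemma X3_leadingCoeff : (X ^ 3 - X : F[X]).leadingCoeff = 1 := by
  rw [leadingCoeff, X3_natDegree]; simp [coeff_X]

lemma X3_ne_zero : (X ^ 3 - X : F[X]) ≠ 0 := by
  intro h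
  have := X3_natDegree (F := F)
  rw [h] at this
  simp at this

lemma X3_natTrailingDegree : (X ^ 3 - X : F[X]).natTrailingDegree = 1 := by
  apply le_antisymm
  · apply natTrailingDegree_le_of_ne_zero
    simp [coeff_X]
  · apply le_natTrailingDegree X3_ne_zero
    intro m hm
    interval_cases m
    simp

lemma X3_trailingCoeff : (X ^ 3 - X : F[X]).trailingCoeff = -1 := by
  unfold Polynomial.trailingCoeff
  rw [X3_natTrailingDegree]; simp [coeff_X, coeff_X_pow]

lemma tau_normForm (hm1 : IsSquare (-1 : F)) (A B : F[X]) :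
    IsSquare (tau (A ^ 2 - B ^ 2 * (X ^ 3 - X))) := by
  by_cases hB : B = 0
  · subst hB
    simp only [ne_eq, OfNat.ofNat_ne_zero, not_false_eq_true, zero_pow, zero_mul, sub_zero]
    rw [tau_pow _ _ two_ne_zero]
    exact ⟨tau A, by ring⟩
  have hBd : B ^ 2 * (X ^ 3 - X : F[X]) ≠ 0 := mul_ne_zero (pow_ne_zero _ hB) X3_ne_zero
  by_cases hA : A = 0
  · subst hA
    have h1 : tau (-(B ^ 2 * (X ^ 3 - X : F[X]))) = - (tau B) ^ 2 := by
      have : -(B ^ 2 * (X ^ 3 - X : F[X])) = (C (-1 : F) * (X ^ 3 - X)) * B ^ 2 := by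
        simp; ring
      rw [this, tau_mul, tau_mul, tau_pow _ _ two_ne_zero]
      have h2 : tau (C (-1 : F)) = 1 := by
        unfold tau
        have : (C (-1 : F)).trailingCoeff = -1 := by
          unfold Polynomial.trailingCoeff; simp
        rw [this, leadingCoeff_C]; ring
      have h3 : tau (X ^ 3 - X : F[X]) = -1 := by
        unfold tau; rw [X3_trailingCoeff, X3_leadingCoeff]; ring
      rw [h2, h3]; ring
    have h0 : (0 : F[X]) ^ 2 - B ^ 2 * (X ^ 3 - X) = -(B ^ 2 * (X ^ 3 - X : F[X])) := by ring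
    rw [h0, h1]
    obtain ⟨j, hj⟩ := hm1
    exact ⟨j * tau B, by linear_combination (tau B)^2 * hj⟩
  have hA2 : A ^ 2 ≠ 0 := pow_ne_zero _ hA
  -- degrees
  have dA : (A ^ 2).natDegree = 2 * A.natDegree := by rw [natDegree_pow]
  have dB : (B ^ 2 * (X ^ 3 - X : F[X])).natDegree = 2 * B.natDegree + 3 := by
    rw [natDegree_mul (pow_ne_zero _ hB) X3_ne_zero, natDegree_pow, X3_natDegree]
  have tA : (A ^ 2).natTrailingDegree = 2 * A.natTrailingDegree := by
    rw [pow_two, natTrailingDegree_mul hA hA]; ring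
  have tB : (B ^ 2 * (X ^ 3 - X : F[X])).natTrailingDegree = 2 * B.natTrailingDegree + 1 := by
    rw [natTrailingDegree_mul (pow_ne_zero _ hB) X3_ne_zero, X3_natTrailingDegree, pow_two,
      natTrailingDegree_mul hB hB]; ring
  have cA : (A ^ 2).trailingCoeff = A.trailingCoeff ^ 2 := by rw [pow_two, trailingCoeff_mul]; ring
  have cB : (-(B ^ 2 * (X ^ 3 - X : F[X]))).trailingCoeff = B.trailingCoeff ^ 2 := by
    have : -(B ^ 2 * (X ^ 3 - X : F[X])) = (C (-1 : F) * (X ^ 3 - X)) * (B * B) := by
      simp; ring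
    rw [this, trailingCoeff_mul, trailingCoeff_mul, trailingCoeff_mul, X3_trailingCoeff]
    have : (C (-1 : F)).trailingCoeff = -1 := by
      unfold Polynomial.trailingCoeff; simp
    rw [this]; ring
  have htr : IsSquare ((A ^ 2 - B ^ 2 * (X ^ 3 - X)).trailingCoeff) := by
    rcases lt_or_ge (A ^ 2).natTrailingDegree (B ^ 2 * (X ^ 3 - X : F[X])).natTrailingDegree with h | h
    · rw [sub_eq_add_neg, trailingCoeff_add_of_lt hA2, cA]
      · exact ⟨A.trailingCoeff, by ring⟩
      · intro m hm
        rw [coeff_neg, coeff_eq_zero_of_lt_natTrailingDegree (lt_of_le_of_lt hm h), neg_zero]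
    · have h' : (B ^ 2 * (X ^ 3 - X : F[X])).natTrailingDegree < (A ^ 2).natTrailingDegree := by
        rcases lt_or_eq_of_le h with h | h
        · exact h
        · omega
      rw [sub_eq_add_neg, add_comm, trailingCoeff_add_of_lt (neg_ne_zero.mpr hBd), cB]
      · exact ⟨B.trailingCoeff, by ring⟩
      · intro m hm
        rw [natTrailingDegree_neg] at hm
        exact coeff_eq_zero_of_lt_natTrailingDegree (lt_of_le_of_lt hm h')
  have hld : IsSquare ((A ^ 2 - B ^ 2 * (X ^ 3 - X)).leadingCoeff) := by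
    rcases lt_or_ge (A ^ 2).natDegree (B ^ 2 * (X ^ 3 - X : F[X])).natDegree with h | h
    · rw [leadingCoeff_sub_of_degree_lt' (degree_lt_degree h), leadingCoeff_mul, leadingCoeff_pow, X3_leadingCoeff]
      obtain ⟨j, hj⟩ := hm1
      exact ⟨j * B.leadingCoeff, by linear_combination (B.leadingCoeff)^2 * hj⟩
    · have h' : (B ^ 2 * (X ^ 3 - X : F[X])).natDegree < (A ^ 2).natDegree := by
        rcases lt_or_eq_of_le h with h | h
        · exact h
        · omega
      rw [leadingCoeff_sub_of_degree_lt (degree_lt_degree h'), leadingCoeff_pow]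
      exact ⟨A.leadingCoeff, by ring⟩
  exact htr.mul hld

end H45.CH0

namespace H45.CH0
open Polynomial IntermediateField

lemma norm_quadratic {K E : Type*} [Field K] [Field E] [Algebra K E] (b : Module.Basis (Fin 2) K E)
    (y : E) (h0 : b 0 = 1) (h1 : b 1 = y) (d : K) (hy : y ^ 2 = algebraMap K E d) (β : E) :
    ∃ a c : K, Algebra.norm K β = a ^ 2 - c ^ 2 * d := by
  classical
  refine ⟨b.repr β 0, b.repr β 1, ?_⟩
  set a := b.repr β 0 with ha
  set c := b.repr β 1 with hc
  have hβ : β = a • b 0 + c • b 1 := by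
    conv_lhs => rw [← b.sum_repr β]
    rw [Fin.sum_univ_two]
  have e0 : β * b 0 = a • b 0 + c • b 1 := by rw [h0, mul_one, hβ, h0, h1]
  have e1 : β * b 1 = (c * d) • b 0 + a • b 1 := by
    rw [hβ, h0, h1, add_mul, smul_mul_assoc, smul_mul_assoc, one_mul, ← pow_two, hy,
      Algebra.smul_def c, ← map_mul, Algebra.smul_def (c * d), mul_one, add_comm]
  rw [Algebra.norm_eq_matrix_det b, Matrix.det_fin_two]
  simp only [Algebra.leftMulMatrix_eq_repr_mul, e0, e1]
  simp only [map_add, map_smul, Module.Basis.repr_self, Finsupp.add_apply, Finsupp.smul_apply,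
    smul_eq_mul]
  simp
  ring

lemma exists_normForm {K L : Type*} [Field K] [Field L] [Algebra K L] [FiniteDimensional K L]
    (h2 : (2 : K) ≠ 0) (y : L) (d : K) (hd : d ≠ 0) (hy : y ^ 2 = algebraMap K L d) (α : L) :
    ∃ a c : K, Algebra.norm K α = a ^ 2 - c ^ 2 * d := by
  by_cases hK : ∃ e : K, algebraMap K L e = y
  · obtain ⟨e, rfl⟩ := hK
    have hde : d = e ^ 2 := by
      apply (algebraMap K L).injective
      rw [← hy, map_pow]
    have he : e ≠ 0 := by rintro rfl; simp at hde; exact hd hde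
    refine ⟨(Algebra.norm K α + 1) / 2, (Algebra.norm K α - 1) / (2 * e), ?_⟩
    rw [hde]
    field_simp
    ring
  · have hint : IsIntegral K y := IsIntegral.of_finite K y
    have hmin : minpoly K y = X ^ 2 - C d := by
      symm
      apply minpoly.eq_of_irreducible_of_monic
      · rw [Polynomial.irreducible_iff_roots_eq_zero_of_degree_le_three]
        · rw [Multiset.eq_zero_iff_forall_notMem]
          intro e he
          rw [mem_roots'] at he
          have h := he.2
          simp only [IsRoot.def, eval_sub, eval_pow, eval_X, eval_C] at h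
          have h3 : e ^ 2 = d := sub_eq_zero.mp h
          have h4 : (algebraMap K L e) ^ 2 = y ^ 2 := by rw [hy, ← map_pow, h3]
          rcases sq_eq_sq_iff_eq_or_eq_neg.mp h4 with h5 | h5
          · exact hK ⟨e, h5⟩
          · exact hK ⟨-e, by rw [map_neg, h5, neg_neg]⟩
        · have : (X ^ 2 - C d : K[X]).natDegree = 2 := natDegree_X_pow_sub_C
          omega
        · have : (X ^ 2 - C d : K[X]).natDegree = 2 := natDegree_X_pow_sub_C
          omega
      · simp [hy]
      · exact monic_X_pow_sub_C d two_ne_zero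
    have hdim : (adjoin.powerBasis hint).dim = 2 := by
      rw [adjoin.powerBasis_dim, hmin]
      exact natDegree_X_pow_sub_C
    let b := (adjoin.powerBasis hint).basis.reindex (finCongr hdim)
    have hb0 : b 0 = 1 := by simp [b]
    have hb1 : b 1 = AdjoinSimple.gen K y := by simp [b]
    obtain ⟨a, c, h⟩ := norm_quadratic b (AdjoinSimple.gen K y) hb0 hb1 d
      (by
        apply Subtype.ext
        simp [hy]) (Algebra.norm K⟮y⟯ α)
    refine ⟨a, c, ?_⟩
    rw [← h, Algebra.norm_norm]

end H45.CH0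

namespace H45.CH0
open Ideal UniqueFactorizationMonoid

section
variable (F : Type*) [Field F] {R : Type*} [CommRing R] [IsDedekindDomain R] [Algebra F R]

/-- product of residue norms of `x` over the prime factors of `I` -/
noncomputable def theta (x : R) (I : Ideal R) : F :=
  ((normalizedFactors I).map (fun P => Algebra.norm F (Ideal.Quotient.mk P x))).prod

lemma theta_mul (x : R) {I J : Ideal R} (hI : I ≠ 0) (hJ : J ≠ 0) :
    theta F x (I * J) = theta F x I * theta F x J := by
  unfold theta
  rw [normalizedFactors_mul hI hJ, Multiset.map_add, Multiset.prod_add]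

lemma theta_one (x : R) : theta F x (1 : Ideal R) = 1 := by
  rw [theta, normalizedFactors_one]; simp

lemma theta_pow (x : R) {I : Ideal R} (hI : I ≠ 0) (n : ℕ) :
    theta F x (I ^ n) = theta F x I ^ n := by
  induction n with
  | zero => rw [pow_zero, pow_zero, theta_one]
  | succ k ih => rw [pow_succ, theta_mul F x (pow_ne_zero _ hI) hI, ih, pow_succ]

lemma theta_prime (x : R) {P : Ideal R} (hP : P.IsPrime) (hP0 : P ≠ ⊥) :
    theta F x P = Algebra.norm F (Ideal.Quotient.mk P x) := by
  unfold theta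
  have : Irreducible P := (Ideal.prime_of_isPrime hP0 hP).irreducible
  rw [normalizedFactors_irreducible this]
  simp
end

section
variable (F : Type*) [Field F] {R S : Type*} [CommRing R] [IsDedekindDomain R] [Algebra F R]
  [CommRing S] [IsDedekindDomain S] [Algebra F S] [Algebra R S] [IsScalarTower F R S]
  [Module.Finite R S] [Module.IsTorsionFree R S] [PerfectField (FractionRing R)]
  [Algebra.FiniteType F R]

lemma theta_relNorm (x : R) (I : Ideal S) (hI : I ≠ 0) :
    theta F (algebraMap R S x) I = theta F x (relNorm R I) := by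
  induction I using UniqueFactorizationMonoid.induction_on_prime with
  | h₁ => exact absurd rfl hI
  | h₂ J hJ =>
    have : J = 1 := by
      rw [Ideal.one_eq_top]; exact Ideal.isUnit_iff.mp hJ
    subst this
    rw [theta_one, map_one, theta_one]
  | h₃ J P hJ hP ih =>
    have hPp : P.IsPrime := Ideal.isPrime_of_prime hP
    have hP0 : P ≠ ⊥ := hP.ne_zero
    have hPm : P.IsMaximal := hPp.isMaximal hP0
    have hJn : relNorm R J ≠ 0 := by
      intro h; exact hJ ((relNorm_eq_bot_iff).mp h)
    have hPn : relNorm R P ≠ 0 := by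
      intro h; exact hP0 ((relNorm_eq_bot_iff).mp h)
    rw [theta_mul F _ hP.ne_zero hJ, map_mul, theta_mul F _ hPn hJn, ih hJ]
    congr 1
    let p := P.under R
    have hpm : p.IsMaximal := inferInstance
    have hp0 : p ≠ ⊥ := by
      intro h
      exact hP0 (Ideal.eq_bot_of_comap_eq_bot (R := R) h)
    rw [relNorm_eq_pow_of_isMaximal P p, theta_pow F _ hp0, theta_prime F _ hPp hP0,
      theta_prime F _ hpm.isPrime hp0]
    let : Field (R ⧸ p) := Ideal.Quotient.field p
    let : Field (S ⧸ P) := Ideal.Quotient.field P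
    rw [inertiaDeg_eq_of_isMaximal p P]
    have h1 : (Ideal.Quotient.mk P) ((algebraMap R S) x) =
        algebraMap (R ⧸ p) (S ⧸ P) (Ideal.Quotient.mk p x) := rfl
    have : IsScalarTower F (R ⧸ p) (S ⧸ P) := by
      refine IsScalarTower.of_algebraMap_eq' ?_
      ext a
      change Ideal.Quotient.mk P (algebraMap F S a) = _
      rw [IsScalarTower.algebraMap_apply F R S a]
      rfl
    have : Module.Finite F (R ⧸ p) := by
      have : Algebra.FiniteType F (R ⧸ p) := inferInstance
      exact finite_of_finite_type_of_isJacobsonRing F (R ⧸ p)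
    have : Module.Finite (R ⧸ p) (S ⧸ P) := inferInstance
    rw [h1, ← Algebra.norm_norm (R := F) (S := R ⧸ p), Algebra.norm_algebraMap, map_pow]

end
end H45.CH0

namespace H45.CH0
open Polynomial UniqueFactorizationMonoid

/-- norm of a generator of a finite field extension given by an irreducible polynomial -/
lemma norm_root {F : Type*} [Field F] {K : Type*} [Field K] [Algebra F K] (π : F[X]) (hπ : Irreducible π)
    (x : K) (hx : aeval x π = 0) (hgen : ∀ z : K, ∃ p : F[X], z = aeval x p) :
    Algebra.norm F x * π.leadingCoeff = (-1) ^ π.natDegree * π.coeff 0 := by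
  have hl : π.leadingCoeff ≠ 0 := leadingCoeff_ne_zero.mpr hπ.ne_zero
  have hint : IsIntegral F x := by
    refine ⟨π * C π.leadingCoeff⁻¹, monic_mul_leadingCoeff_inv hπ.ne_zero, ?_⟩
    rw [← aeval_def, map_mul, hx, zero_mul]
  have hmin : minpoly F x = π * C π.leadingCoeff⁻¹ := by
    symm
    apply minpoly.eq_of_irreducible_of_monic _ _ (monic_mul_leadingCoeff_inv hπ.ne_zero)
    · rw [irreducible_mul_isUnit (isUnit_C.mpr (IsUnit.mk0 _ (inv_ne_zero hl)))]
      exact hπ
    · rw [map_mul, hx, zero_mul]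
  have htop : Algebra.adjoin F ({x} : Set K) = ⊤ := by
    rw [eq_top_iff]
    rintro z -
    obtain ⟨p, rfl⟩ := hgen z
    exact aeval_mem_adjoin_singleton F x
  let pb : PowerBasis F K := (Algebra.adjoin.powerBasis hint).map
    ((Subalgebra.equivOfEq _ _ htop).trans Subalgebra.topEquiv)
  have hg : pb.gen = x := rfl
  have hd : pb.dim = (minpoly F x).natDegree := rfl
  have h := Algebra.PowerBasis.norm_gen_eq_coeff_zero_minpoly pb
  rw [hg, hd, hmin] at h
  rw [h, natDegree_mul hπ.ne_zero (C_ne_zero.mpr (inv_ne_zero hl)), natDegree_C, add_zero, coeff_mul_C]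
  field_simp

end H45.CH0

namespace H45.CH0
open Polynomial UniqueFactorizationMonoid

section
variable {F : Type*} [Field F] (i : ℂ →+* F)

lemma isSquare_i (a : ℂ) : IsSquare (i a) := by
  obtain ⟨b, hb⟩ := IsAlgClosed.exists_pow_nat_eq a two_pos
  exact ⟨i b, by rw [← map_mul, ← hb, pow_two]⟩

include i in
lemma isSquare_neg_one : IsSquare (-1 : F) := by
  have := isSquare_i i (-1)
  simpa using this

lemma isSquare_neg_one_pow (n : ℕ) : IsSquare ((-1 : F) ^ n) ∨ IsSquare (-(-1 : F) ^ n) := by
  rcases neg_one_pow_eq_or F n with h | h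
  · left; rw [h]; exact IsSquare.one
  · right; rw [h]; simp

lemma tau_C (c : F) : tau (C c) = c * c := by
  unfold tau
  rw [leadingCoeff_C]
  unfold Polynomial.trailingCoeff; simp

lemma tau_X_sub_C (a : ℂ) : IsSquare (tau (X - C (i a))) := by
  unfold tau
  rw [leadingCoeff_X_sub_C, mul_one]
  by_cases ha : i a = 0
  · rw [ha, C_0, sub_zero]
    unfold Polynomial.trailingCoeff
    rw [natTrailingDegree_X, coeff_X_one]; exact IsSquare.one
  · rw [trailingCoeff_eq_coeff_zero]
    · have : (X - C (i a)).coeff 0 = i (-a) := by simp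
      rw [this]; exact isSquare_i i _
    · simpa using ha

variable (H : ℂ[X]) (hH : H ≠ 0)

include hH in
lemma tau_of_dvd (π : F[X]) (hπ : Prime π) (hd : π ∣ H.map i) : IsSquare (tau π) := by
  have hs : H.Splits := IsAlgClosed.splits H
  obtain ⟨m, hm⟩ := splits_iff_exists_multiset.mp hs
  rw [hm, Polynomial.map_mul, map_C, Polynomial.map_multiset_prod] at hd
  rcases hπ.dvd_or_dvd hd with h | h
  · exfalso
    apply hπ.not_isUnit
    apply isUnit_of_dvd_unit h
    rw [isUnit_C]
    exact IsUnit.mk0 _ ((map_ne_zero i).mpr (leadingCoeff_ne_zero.mpr hH))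
  · rw [Multiset.map_map] at h
    obtain ⟨q, hq, hdq⟩ := hπ.exists_mem_multiset_dvd h
    rw [Multiset.mem_map] at hq
    obtain ⟨a, ha, rfl⟩ := hq
    simp only [Function.comp_apply, Polynomial.map_sub, map_X, map_C] at hdq
    have hirr : Irreducible (X - C (i a)) := irreducible_X_sub_C (i a)
    obtain ⟨u, hu⟩ := (hπ.irreducible.dvd_irreducible_iff_associated hirr).mp hdq
    have hu' : ∃ c : F, (u : F[X]) = C c ∧ c ≠ 0 := by
      obtain ⟨c, hc, hc'⟩ := Polynomial.isUnit_iff.mp u.isUnit
      exact ⟨c, hc'.symm, hc.ne_zero⟩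
    obtain ⟨c, hc, hc0⟩ := hu'
    have h1 := tau_X_sub_C i a
    rw [← hu, tau_mul, hc, tau_C] at h1
    obtain ⟨r, hr⟩ := h1
    refine ⟨r / c, ?_⟩
    field_simp
    linear_combination hr

variable (hXH : (X : ℂ[X]) ∣ H)
variable {Λ : Type*} [CommRing Λ] [IsDedekindDomain Λ] [Algebra F[X] Λ] [Algebra F Λ]
  [IsScalarTower F F[X] Λ] [IsLocalization.Away (H.map i) Λ]

include i hH hXH in
lemma theta_prime_poly (π : F[X]) (hπ : Prime π) :
    IsSquare (theta F (algebraMap F[X] Λ X) (Ideal.span {algebraMap F[X] Λ π}) * tau π) := by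
  by_cases hd : π ∣ H.map i
  · have hu : IsUnit (algebraMap F[X] Λ π) := by
      obtain ⟨q, hq⟩ := hd
      have h1 : IsUnit (algebraMap F[X] Λ (H.map i)) := IsLocalization.Away.algebraMap_isUnit _
      rw [hq, map_mul] at h1
      exact isUnit_of_mul_isUnit_left h1
    rw [Ideal.span_singleton_eq_top.mpr hu, ← Ideal.one_eq_top, theta_one, one_mul]
    exact tau_of_dvd i H hH π hπ hd
  · -- π stays prime
    have hdisj : Disjoint ((Submonoid.powers (H.map i) : Submonoid F[X]) : Set F[X])
        ((Ideal.span {π} : Ideal F[X]) : Set F[X]) := by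
      rw [Set.disjoint_left]
      rintro _ ⟨n, rfl⟩ h
      rw [SetLike.mem_coe, Ideal.mem_span_singleton] at h
      exact hd (hπ.dvd_of_dvd_pow h)
    have hPp : (Ideal.span {π} : Ideal F[X]).IsPrime := (Ideal.span_singleton_prime hπ.ne_zero).mpr hπ
    have hmap : (Ideal.span {algebraMap F[X] Λ π} : Ideal Λ) = (Ideal.span {π}).map (algebraMap F[X] Λ) := by
      rw [Ideal.map_span, Set.image_singleton]
    have hP : (Ideal.span {algebraMap F[X] Λ π} : Ideal Λ).IsPrime := by
      rw [hmap]
      exact IsLocalization.isPrime_of_isPrime_disjoint (Submonoid.powers (H.map i)) Λ _ hPp hdisj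
    set P : Ideal Λ := Ideal.span {algebraMap F[X] Λ π} with hPdef
    have hinj : Function.Injective (algebraMap F[X] Λ) := by
      apply IsLocalization.injective (M := Submonoid.powers (H.map i))
      apply powers_le_nonZeroDivisors_of_noZeroDivisors
      exact (Polynomial.map_ne_zero_iff i.injective).mpr hH
    have hP0 : P ≠ ⊥ := by
      rw [hPdef, Ne, Ideal.span_singleton_eq_bot]
      intro h
      exact hπ.ne_zero (hinj (by rw [h, map_zero]))
    rw [theta_prime F _ hP hP0]
    have hPm : P.IsMaximal := hP.isMaximal hP0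
    let : Field (Λ ⧸ P) := Ideal.Quotient.field P
    -- generator
    have hgen : ∀ z : Λ ⧸ P, ∃ p : F[X], z = aeval (Ideal.Quotient.mk P (algebraMap F[X] Λ X)) p := by
      have key : ∀ p : F[X], aeval (Ideal.Quotient.mk P (algebraMap F[X] Λ X)) p =
          Ideal.Quotient.mk P (algebraMap F[X] Λ p) := by
        intro p
        have : (aeval (Ideal.Quotient.mk P (algebraMap F[X] Λ X)) : F[X] →ₐ[F] Λ ⧸ P) =
            (Ideal.Quotient.mkₐ F P).comp (IsScalarTower.toAlgHom F F[X] Λ) := by
          apply Polynomial.algHom_ext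
          simp
        rw [this]; rfl
      intro z
      obtain ⟨z, rfl⟩ := Ideal.Quotient.mk_surjective z
      obtain ⟨p, m, rfl⟩ := IsLocalization.exists_mk'_eq (Submonoid.powers (H.map i)) z
      obtain ⟨n, hn⟩ := m.2
      have hn' : (m : F[X]) = (H.map i) ^ n := hn.symm
      -- invert H^n mod π
      have hco : IsCoprime ((H.map i) ^ n) π := by
        apply IsCoprime.pow_left
        rw [isCoprime_comm]
        exact (hπ.irreducible.coprime_iff_not_dvd).mpr hd
      obtain ⟨a, b, hab⟩ := hco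
      refine ⟨a * p, ?_⟩
      rw [key, Ideal.Quotient.eq]
      have hu : IsUnit (algebraMap F[X] Λ ((H.map i) ^ n)) := by
        rw [map_pow]
        exact (IsLocalization.Away.algebraMap_isUnit (H.map i)).pow n
      have h1 : algebraMap F[X] Λ ((H.map i) ^ n) *
          (IsLocalization.mk' Λ p m - algebraMap F[X] Λ (a * p)) ∈ P := by
        rw [← hn', mul_sub, IsLocalization.mk'_spec', ← map_mul, ← map_sub, hn']
        have : p - (H.map i) ^ n * (a * p) = π * (b * p) := by linear_combination (-p) * hab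
        rw [this, map_mul]
        exact Ideal.mul_mem_right _ _ (Ideal.mem_span_singleton_self _)
      exact (hP.mem_or_mem h1).resolve_left (fun h => hP.ne_top (Ideal.eq_top_of_isUnit_mem _ h hu))
    have hroot : aeval (Ideal.Quotient.mk P (algebraMap F[X] Λ X)) π = 0 := by
      have : (aeval (Ideal.Quotient.mk P (algebraMap F[X] Λ X)) : F[X] →ₐ[F] Λ ⧸ P) =
            (Ideal.Quotient.mkₐ F P).comp (IsScalarTower.toAlgHom F F[X] Λ) := by
        apply Polynomial.algHom_ext
        simp
      rw [this]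
      change Ideal.Quotient.mk P (algebraMap F[X] Λ π) = 0
      rw [Ideal.Quotient.eq_zero_iff_mem]
      exact Ideal.mem_span_singleton_self _
    have hn := norm_root π hπ.irreducible _ hroot hgen
    have hc0 : π.coeff 0 ≠ 0 := by
      intro h0
      apply hd
      have hX : (X : F[X]) ∣ π := X_dvd_iff.mpr h0
      have hass : Associated X π := (irreducible_X.dvd_irreducible_iff_associated hπ.irreducible).mp hX
      refine hass.symm.dvd.trans ?_
      obtain ⟨q, hq⟩ := hXH
      rw [hq, Polynomial.map_mul, map_X]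
      exact dvd_mul_right _ _
    unfold tau
    rw [trailingCoeff_eq_coeff_zero hc0]
    have h2 : (Algebra.norm F ((Ideal.Quotient.mk P) ((algebraMap F[X] Λ) X))) * (π.coeff 0 * π.leadingCoeff) =
        (-1) ^ π.natDegree * (π.coeff 0) ^ 2 := by
      linear_combination (π.coeff 0) * hn
    rw [h2]
    refine IsSquare.mul ?_ ⟨π.coeff 0, by ring⟩
    rcases neg_one_pow_eq_or F π.natDegree with h | h
    · rw [h]; exact IsSquare.one
    · rw [h]; exact isSquare_neg_one i

include i hH hXH in
lemma theta_poly (ψ : F[X]) (hψ : ψ ≠ 0) :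
    IsSquare (theta F (algebraMap F[X] Λ X) (Ideal.span {algebraMap F[X] Λ ψ}) * tau ψ) := by
  have hinj : Function.Injective (algebraMap F[X] Λ) := by
    apply IsLocalization.injective (M := Submonoid.powers (H.map i))
    apply powers_le_nonZeroDivisors_of_noZeroDivisors
    exact (Polynomial.map_ne_zero_iff i.injective).mpr hH
  induction ψ using UniqueFactorizationMonoid.induction_on_prime with
  | h₁ => exact absurd rfl hψ
  | h₂ u hu =>
    rw [Ideal.span_singleton_eq_top.mpr (hu.map _), ← Ideal.one_eq_top, theta_one, one_mul]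
    obtain ⟨c, hc, rfl⟩ := Polynomial.isUnit_iff.mp hu
    rw [tau_C]
    exact IsSquare.mul_self c
  | h₃ a p ha hp ih =>
    rw [map_mul, ← Ideal.span_singleton_mul_span_singleton, theta_mul, tau_mul]
    · have h1 := theta_prime_poly i H hH hXH (Λ := Λ) p hp
      have h2 := ih ha
      have h3 := h1.mul h2
      rwa [mul_mul_mul_comm] at h3
    · rw [Ne, Submodule.zero_eq_bot, Ideal.span_singleton_eq_bot]
      intro h
      exact hp.ne_zero (hinj (by rw [h, map_zero]))
    · rw [Ne, Submodule.zero_eq_bot, Ideal.span_singleton_eq_bot]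
      intro h
      exact ha (hinj (by rw [h, map_zero]))

end
end H45.CH0

namespace H45.CH0
open Polynomial UniqueFactorizationMonoid

section
variable {F : Type*} [Field F] (i : ℂ →+* F) (H : ℂ[X]) (hH : H ≠ 0) (hXH : (X : ℂ[X]) ∣ H)
variable {Λ : Type*} [CommRing Λ] [IsDedekindDomain Λ] [Algebra F[X] Λ] [Algebra F Λ]
  [IsScalarTower F F[X] Λ] [IsLocalization.Away (H.map i) Λ]
variable {S : Type*} [CommRing S] [IsDedekindDomain S] [Algebra F S] [Algebra Λ S]
  [IsScalarTower F Λ S] [Module.Finite Λ S] [Module.IsTorsionFree Λ S]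

include i in
lemma charZero_of_i : CharZero F := charZero_of_injective_ringHom i.injective

lemma tau_map : IsSquare (tau (H.map i)) := by
  have h1 : (H.map i).leadingCoeff = i H.leadingCoeff := leadingCoeff_map i
  have h2 : (H.map i).trailingCoeff = i H.trailingCoeff := by
    unfold Polynomial.trailingCoeff
    have : (H.map i).natTrailingDegree = H.natTrailingDegree := by
      unfold Polynomial.natTrailingDegree Polynomial.trailingDegree
      rw [support_map_of_injective _ i.injective]
    rw [this, coeff_map]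
  unfold tau
  rw [h1, h2, ← map_mul]
  exact isSquare_i i _

include i hH hXH in
lemma theta_principal (y : S) (hy : y ^ 2 = algebraMap Λ S (algebraMap F[X] Λ (X ^ 3 - X))) (g : S) (hg : g ≠ 0) :
    IsSquare (theta F (algebraMap Λ S (algebraMap F[X] Λ X)) (Ideal.span {g})) := by
  classical
  have hc0 : CharZero F := charZero_of_i i
  have hinj : Function.Injective (algebraMap F[X] Λ) := by
    apply IsLocalization.injective (M := Submonoid.powers (H.map i))
    apply powers_le_nonZeroDivisors_of_noZeroDivisors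
    exact (Polynomial.map_ne_zero_iff i.injective).mpr hH
  have hcΛ : CharZero Λ := charZero_of_injective_algebraMap (R := F) (by
    rw [IsScalarTower.algebraMap_eq F F[X] Λ]
    exact hinj.comp (C_injective))
  have hft : Algebra.FiniteType F Λ := by
    have : Algebra.FiniteType F[X] Λ := IsLocalization.finiteType_of_monoid_fg (Submonoid.powers (H.map i)) Λ
    exact Algebra.FiniteType.trans (S := F[X]) inferInstance this
  have hspan : Ideal.span {g} ≠ (0 : Ideal S) := by
    rw [Ne, Submodule.zero_eq_bot, Ideal.span_singleton_eq_bot]; exact hg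
  rw [theta_relNorm F (algebraMap F[X] Λ X) _ hspan, Ideal.relNorm_singleton]
  -- the norm
  let K := FractionRing Λ
  let L := FractionRing S
  let _ : Algebra K L := FractionRing.liftAlgebra Λ L
  have hd : algebraMap Λ K (algebraMap F[X] Λ (X ^ 3 - X)) ≠ 0 := by
    rw [Ne, FaithfulSMul.algebraMap_eq_zero_iff]
    intro h
    exact X3_ne_zero (F := F) (hinj (by rw [h, map_zero]))
  have hyL : (algebraMap S L y) ^ 2 = algebraMap K L (algebraMap Λ K (algebraMap F[X] Λ (X ^ 3 - X))) := by
    rw [← map_pow, hy, ← IsScalarTower.algebraMap_apply Λ K L, ← IsScalarTower.algebraMap_apply Λ S L]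
  have hfin : FiniteDimensional K L := inferInstance
  obtain ⟨a, c, hac⟩ := exists_normForm (two_ne_zero) (algebraMap S L y) _ hd hyL (algebraMap S L g)
  have hint : algebraMap Λ K (Algebra.intNorm Λ S g) = Algebra.norm K (algebraMap S L g) :=
    Algebra.algebraMap_intNorm (A := Λ) (K := K) (L := L) (B := S) g
  obtain ⟨ν, hν⟩ : ∃ ν, ν = Algebra.intNorm Λ S g := ⟨_, rfl⟩
  have hν0 : ν ≠ 0 := by
    rw [hν]
    exact Algebra.intNorm_ne_zero.mpr hg
  rw [← hν] at hint ⊢
  -- write ν = ψ / H^k
  obtain ⟨ψ, m, hm⟩ := IsLocalization.exists_mk'_eq (Submonoid.powers (H.map i)) ν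
  obtain ⟨k, hk⟩ := m.2
  have hk' : (m : F[X]) = (H.map i) ^ k := hk.symm
  have hψ : algebraMap F[X] Λ ψ = algebraMap F[X] Λ ((H.map i) ^ k) * ν := by
    rw [← hm, ← hk', IsLocalization.mk'_spec']
  have hu : IsUnit (algebraMap F[X] Λ ((H.map i) ^ k)) := by
    rw [map_pow]
    exact (IsLocalization.Away.algebraMap_isUnit (H.map i)).pow k
  have hψ0 : ψ ≠ 0 := by
    intro h
    rw [h, map_zero] at hψ
    exact hν0 ((hu.mul_right_eq_zero).mp hψ.symm)
  have hspan2 : Ideal.span {ν} = Ideal.span {algebraMap F[X] Λ ψ} := by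
    rw [hψ]
    exact (Ideal.span_singleton_mul_left_unit hu ν).symm
  rw [hspan2]
  have key := theta_poly i H hH hXH (Λ := Λ) ψ hψ0
  -- clear denominators
  have hinjK : Function.Injective (fun q : F[X] => algebraMap Λ K (algebraMap F[X] Λ q)) :=
    (FaithfulSMul.algebraMap_injective Λ K).comp hinj
  have hden : ∀ w : K, ∃ A E : F[X], E ≠ 0 ∧ w * algebraMap Λ K (algebraMap F[X] Λ E) =
      algebraMap Λ K (algebraMap F[X] Λ A) := by
    intro w
    obtain ⟨a1, e1, he1, rfl⟩ := IsFractionRing.div_surjective (A := Λ) w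
    have he1' : e1 ≠ 0 := nonZeroDivisors.ne_zero he1
    obtain ⟨A1, m1, hm1⟩ := IsLocalization.exists_mk'_eq (Submonoid.powers (H.map i)) a1
    obtain ⟨E1, m2, hm2⟩ := IsLocalization.exists_mk'_eq (Submonoid.powers (H.map i)) e1
    have h1 : algebraMap F[X] Λ A1 = algebraMap F[X] Λ m1 * a1 := by
      rw [← hm1, IsLocalization.mk'_spec']
    have h2 : algebraMap F[X] Λ E1 = algebraMap F[X] Λ m2 * e1 := by
      rw [← hm2, IsLocalization.mk'_spec']
    have hm1n : (m1 : F[X]) ≠ 0 := by
      obtain ⟨k1, hk1⟩ := m1.2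
      have : (m1 : F[X]) = (H.map i) ^ k1 := hk1.symm
      rw [this]
      exact pow_ne_zero _ ((Polynomial.map_ne_zero_iff i.injective).mpr hH)
    have hE1 : E1 ≠ 0 := by
      intro h
      rw [h, map_zero] at h2
      have hm2n : (m2 : F[X]) ≠ 0 := by
        obtain ⟨k1, hk1⟩ := m2.2
        have : (m2 : F[X]) = (H.map i) ^ k1 := hk1.symm
        rw [this]
        exact pow_ne_zero _ ((Polynomial.map_ne_zero_iff i.injective).mpr hH)
      rcases mul_eq_zero.mp h2.symm with h3 | h3
      · exact hm2n (hinj (by rw [h3, map_zero]))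
      · exact he1' h3
    refine ⟨A1 * m2, E1 * m1, mul_ne_zero hE1 hm1n, ?_⟩
    have hene : algebraMap Λ K e1 ≠ 0 := by
      rw [Ne, FaithfulSMul.algebraMap_eq_zero_iff]; exact he1'
    rw [map_mul, map_mul, map_mul, map_mul, h1, h2, map_mul, map_mul, div_mul_eq_mul_div, div_eq_iff hene]
    ring
  obtain ⟨A1, E1, hE1, hA1⟩ := hden a
  obtain ⟨A2, E2, hE2, hA2⟩ := hden c
  have hpoly : ψ * (E1 * E2) ^ 2 = (H.map i) ^ k * ((A1 * E2) ^ 2 - (A2 * E1) ^ 2 * (X ^ 3 - X)) := by
    apply hinjK
    simp only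
    obtain ⟨D, hD⟩ : ∃ D : F[X], D = X ^ 3 - X := ⟨_, rfl⟩
    rw [← hD] at hac ⊢
    have e1 : algebraMap Λ K (algebraMap F[X] Λ ψ) = algebraMap Λ K (algebraMap F[X] Λ ((H.map i) ^ k)) *
        (a ^ 2 - c ^ 2 * algebraMap Λ K (algebraMap F[X] Λ D)) := by
      rw [hψ, map_mul, hint, hac]
    have e2 : ∀ p q : F[X], algebraMap Λ K (algebraMap F[X] Λ (p * q)) =
      algebraMap Λ K (algebraMap F[X] Λ p) * algebraMap Λ K (algebraMap F[X] Λ q) := by
      intro p q; rw [map_mul, map_mul]
    have e3 : ∀ p q : F[X], algebraMap Λ K (algebraMap F[X] Λ (p - q)) =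
      algebraMap Λ K (algebraMap F[X] Λ p) - algebraMap Λ K (algebraMap F[X] Λ q) := by
      intro p q; rw [map_sub, map_sub]
    have e4 : ∀ (p : F[X]), algebraMap Λ K (algebraMap F[X] Λ (p ^ 2)) =
      algebraMap Λ K (algebraMap F[X] Λ p) ^ 2 := by
      intro p; rw [map_pow, map_pow]
    rw [e2, e1, e4, e2 E1 E2, e2 ((H.map i) ^ k), e3, e4, e2 A1 E2, e2 (_ ^ 2), e4, e2 A2 E1, ← hA1, ← hA2]
    ring
  -- tau ψ is a square
  have hτ : IsSquare (tau ψ) := by
    have h1 := congrArg tau hpoly
    rw [tau_mul ψ, tau_pow _ _ two_ne_zero, tau_mul ((H.map i) ^ k)] at h1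
    have h2 := tau_normForm (isSquare_neg_one i) (A1 * E2) (A2 * E1)
    have h3 : IsSquare (tau ((H.map i) ^ k)) := by
      rcases Nat.eq_zero_or_pos k with rfl | hk0
      · rw [pow_zero]
        have : tau (1 : F[X]) = 1 := by
          rw [← C_1, tau_C, mul_one]
        rw [this]; exact IsSquare.one
      · rw [tau_pow _ _ hk0.ne']
        exact (tau_map i H).pow k
    obtain ⟨r, hr⟩ := h3.mul h2
    have h4 : tau (E1 * E2) ≠ 0 := tau_ne_zero (mul_ne_zero hE1 hE2)
    refine ⟨r / tau (E1 * E2), ?_⟩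
    rw [hr] at h1
    field_simp
    linear_combination h1
  obtain ⟨r, hr⟩ := key
  obtain ⟨r', hr'⟩ := hτ
  have hτ0 : tau ψ ≠ 0 := tau_ne_zero hψ0
  have hr0 : r' ≠ 0 := by
    rintro rfl; rw [mul_zero] at hr'; exact hτ0 hr'
  refine ⟨r / r', ?_⟩
  rw [hr'] at hr
  field_simp
  linear_combination hr
end
end H45.CH0

namespace H45.CH0
open UniqueFactorizationMonoid

lemma zpow_unit {O K : Type*} [CommRing O] [IsDomain O] [Field K] [Algebra O K] [IsFractionRing O K]
    (ϖ : O) (hϖ : Irreducible ϖ) (m : ℤ) (u : Oˣ) (h : (algebraMap O K ϖ) ^ m = algebraMap O K (u : O)) : m = 0 := by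
  have hinj : Function.Injective (algebraMap O K) := FaithfulSMul.algebraMap_injective O K
  have key : ∀ (k : ℕ) (u : Oˣ), (algebraMap O K ϖ) ^ k = algebraMap O K (u : O) → k = 0 := by
    intro k u hk
    by_contra hk0
    rw [← map_pow] at hk
    have h1 : ϖ ^ k = u := hinj hk
    apply hϖ.not_isUnit
    apply isUnit_of_dvd_unit (dvd_pow_self ϖ hk0)
    rw [h1]; exact u.isUnit
  rcases Int.eq_nat_or_neg m with ⟨k, rfl | rfl⟩
  · rw [zpow_natCast] at h
    simp [key k u h]
  · rw [zpow_neg, zpow_natCast] at h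
    have h2 : (algebraMap O K ϖ) ^ k = algebraMap O K ((u⁻¹ : Oˣ) : O) := by
      rw [← inv_inv ((algebraMap O K ϖ) ^ k), h, map_units_inv]
    simp [key k _ h2]

section
variable {S O : Type*} [CommRing S] [IsDedekindDomain S] [CommRing O] [IsLocalRing O] [Algebra S O]
  (P : Ideal S) [P.IsPrime] [IsLocalization.AtPrime O P]

lemma map_eq_pow (hP0 : P ≠ ⊥) (I : Ideal S) (hI : I ≠ 0) :
    I.map (algebraMap S O) = (IsLocalRing.maximalIdeal O) ^ ((normalizedFactors I).count P) := by
  classical
  induction I using UniqueFactorizationMonoid.induction_on_prime with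
  | h₁ => exact absurd rfl hI
  | h₂ J hJ =>
    have : J = 1 := by
      rw [Ideal.one_eq_top]; exact Ideal.isUnit_iff.mp hJ
    subst this
    rw [normalizedFactors_one, Multiset.count_zero, pow_zero, Ideal.one_eq_top, Ideal.map_top, Ideal.one_eq_top]
  | h₃ J Q hJ hQ ih =>
    have hQp : Q.IsPrime := Ideal.isPrime_of_prime hQ
    have hQm : Q.IsMaximal := hQp.isMaximal hQ.ne_zero
    rw [Ideal.map_mul, ih hJ, normalizedFactors_mul hQ.ne_zero hJ, Multiset.count_add, pow_add,
      normalizedFactors_irreducible hQ.irreducible, normalize_eq]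
    congr 1
    by_cases hQP : Q = P
    · subst hQP
      rw [Multiset.count_singleton_self, pow_one]
      exact IsLocalization.AtPrime.map_eq_maximalIdeal Q O
    · rw [Multiset.count_singleton, if_neg (fun h => hQP h.symm), pow_zero, Ideal.one_eq_top]
      have hnle : ¬ Q ≤ P := fun h => hQP (hQm.eq_of_le ‹P.IsPrime›.ne_top h)
      obtain ⟨q, hq, hqP⟩ := SetLike.not_le_iff_exists.mp hnle
      exact Ideal.eq_top_of_isUnit_mem _ (Ideal.mem_map_of_mem _ hq)
        ((IsLocalization.AtPrime.isUnit_to_map_iff O P q).mpr hqP)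

variable {K : Type*} [Field K] [Algebra O K] [Algebra S K] [IsScalarTower S O K] [IsDomain O] [IsFractionRing O K]

lemma ord_eq (hP0 : P ≠ ⊥) (a b : S) (ha : a ≠ 0) (hb : b ≠ 0) (g : K)
    (hg : g * algebraMap S K b = algebraMap S K a) (n : ℤ) (hn : IsOrd O K g n) :
    n = ((normalizedFactors (Ideal.span {a})).count P : ℤ) - (normalizedFactors (Ideal.span {b})).count P := by
  classical
  have hinj : Function.Injective (algebraMap O K) := FaithfulSMul.algebraMap_injective O K
  obtain ⟨ϖ, u, hϖ, hgu⟩ := hn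
  have hdvr : IsDiscreteValuationRing O :=
    IsLocalization.AtPrime.isDiscreteValuationRing_of_dedekind_domain S hP0 O
  have hmax : IsLocalRing.maximalIdeal O = Ideal.span {ϖ} := hϖ.maximalIdeal_eq
  have hspan : ∀ c : S, c ≠ 0 → ∃ w : Oˣ, algebraMap S O c =
      ϖ ^ ((normalizedFactors (Ideal.span {c})).count P) * w := by
    intro c hc
    have hI : Ideal.span {c} ≠ (0 : Ideal S) := by
      rw [Ne, Submodule.zero_eq_bot, Ideal.span_singleton_eq_bot]; exact hc
    have h1 := map_eq_pow (O := O) P hP0 _ hI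
    rw [Ideal.map_span, Set.image_singleton, hmax, Ideal.span_singleton_pow,
      Ideal.span_singleton_eq_span_singleton] at h1
    obtain ⟨w, hw⟩ := h1.symm
    exact ⟨w, hw.symm⟩
  obtain ⟨wa, hwa⟩ := hspan a ha
  obtain ⟨wb, hwb⟩ := hspan b hb
  have hϖK : algebraMap O K ϖ ≠ 0 := by
    rw [Ne, FaithfulSMul.algebraMap_eq_zero_iff]; exact hϖ.ne_zero
  rw [IsScalarTower.algebraMap_apply S O K, IsScalarTower.algebraMap_apply S O K, hwa, hwb, hgu,
    map_mul, map_mul, map_pow, map_pow] at hg
  set ka := (normalizedFactors (Ideal.span {a})).count P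
  set kb := (normalizedFactors (Ideal.span {b})).count P
  have hunit : ∀ w : Oˣ, algebraMap O K (w : O) ≠ 0 := by
    intro w
    rw [Ne, FaithfulSMul.algebraMap_eq_zero_iff]; exact w.ne_zero
  have h3 : (algebraMap O K ϖ) ^ (n - (ka - kb)) = algebraMap O K ((wa * wb⁻¹ * u⁻¹ : Oˣ) : O) := by
    rw [Units.val_mul, Units.val_mul, map_mul, map_mul, map_units_inv, map_units_inv,
      zpow_sub₀ hϖK, zpow_sub₀ hϖK, zpow_natCast, zpow_natCast]
    have e1 := hunit u
    have e2 := hunit wb
    field_simp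
    linear_combination hg
  have := zpow_unit ϖ hϖ _ _ h3
  omega

variable (F : Type*) [Field F] [Algebra F S]

lemma theta_eq_prod (x : S) (I : Ideal S) (T : Finset (Ideal S))
    (hT : ∀ Q ∈ normalizedFactors I, Q ∈ T) :
    theta F x I = ∏ Q ∈ T, (Algebra.norm F (Ideal.Quotient.mk Q x)) ^ ((normalizedFactors I).count Q) := by
  classical
  unfold theta
  rw [Finset.prod_multiset_map_count]
  apply Finset.prod_subset
  · intro Q hQ
    exact hT Q (Multiset.mem_toFinset.mp hQ)
  · intro Q _ hQ
    rw [Multiset.mem_toFinset] at hQ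
    rw [Multiset.count_eq_zero_of_notMem hQ, pow_zero]

/-- the product formula over primes, in terms of two numerators -/
lemma isSquare_prod (x : S) (a b : S)
    (hsa : IsSquare (theta F x (Ideal.span {a}))) (hsb : IsSquare (theta F x (Ideal.span {b})))
    (hN : ∀ Q : Ideal S, Q.IsPrime → Q ≠ ⊥ → Algebra.norm F (Ideal.Quotient.mk Q x) ≠ 0)
    (n : Ideal S → ℤ) (T : Finset (Ideal S)) (hT : ∀ Q ∈ T, Q.IsPrime ∧ Q ≠ ⊥)
    (hT' : ∀ Q : Ideal S, Q.IsPrime → Q ≠ ⊥ → n Q ≠ 0 → Q ∈ T)
    (hn : ∀ Q : Ideal S, Q.IsPrime → Q ≠ ⊥ → n Q = ((normalizedFactors (Ideal.span {a})).count Q : ℤ)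
      - (normalizedFactors (Ideal.span {b})).count Q) :
    IsSquare (∏ Q ∈ T, (Algebra.norm F (Ideal.Quotient.mk Q x)) ^ (n Q)) := by
  classical
  let T' : Finset (Ideal S) := T ∪ (normalizedFactors (Ideal.span {a})).toFinset ∪
    (normalizedFactors (Ideal.span {b})).toFinset
  have hT'p : ∀ Q ∈ T', Q.IsPrime ∧ Q ≠ ⊥ := by
    intro Q hQ
    rw [Finset.mem_union, Finset.mem_union] at hQ
    rcases hQ with (hQ | hQ) | hQ
    · exact hT Q hQ
    · have := prime_of_normalized_factor Q (Multiset.mem_toFinset.mp hQ)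
      exact ⟨Ideal.isPrime_of_prime this, this.ne_zero⟩
    · have := prime_of_normalized_factor Q (Multiset.mem_toFinset.mp hQ)
      exact ⟨Ideal.isPrime_of_prime this, this.ne_zero⟩
  have h1 : ∏ Q ∈ T, (Algebra.norm F (Ideal.Quotient.mk Q x)) ^ (n Q) =
      ∏ Q ∈ T', (Algebra.norm F (Ideal.Quotient.mk Q x)) ^ (n Q) := by
    apply Finset.prod_subset
    · intro Q hQ
      exact Finset.mem_union_left _ (Finset.mem_union_left _ hQ)
    · intro Q hQ hQT
      have : n Q = 0 := by
        by_contra h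
        exact hQT (hT' Q (hT'p Q hQ).1 (hT'p Q hQ).2 h)
      rw [this, zpow_zero]
  have h2 : ∏ Q ∈ T', (Algebra.norm F (Ideal.Quotient.mk Q x)) ^ (n Q) =
      theta F x (Ideal.span {a}) / theta F x (Ideal.span {b}) := by
    rw [theta_eq_prod F x (Ideal.span {a}) T' (fun Q hQ => Finset.mem_union_left _
        (Finset.mem_union_right _ (Multiset.mem_toFinset.mpr hQ))),
      theta_eq_prod F x (Ideal.span {b}) T' (fun Q hQ => Finset.mem_union_right _
        (Multiset.mem_toFinset.mpr hQ)), ← Finset.prod_div_distrib]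
    apply Finset.prod_congr rfl
    intro Q hQ
    rw [hn Q (hT'p Q hQ).1 (hT'p Q hQ).2, zpow_sub₀ (hN Q (hT'p Q hQ).1 (hT'p Q hQ).2), zpow_natCast, zpow_natCast]
  rw [h1, h2]
  exact hsa.div hsb
end
end H45.CH0
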