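import Mathlib
import Pool.Agent.H45.CH0Line
set_option autoImplicit false
namespace H45.CH0
open AlgebraicGeometry CategoryTheory CategoryTheory.Limits Polynomial

section
variable {F : Type} [Field F] (i : ℂ →+* F) {A : CommRingCat.{0}} (ιA : ℂ →+* A) (t0 : A)
  {W : Scheme.{0}} (a : W ⟶ Spec A) (σ : W ⟶ Spec (.of F))
  (hcomp : ∀ c : ℂ, (gam σ).hom (i c) = (gam a).hom (ιA c))
  (hmono : ∀ (T : Scheme.{0}) (u v : T ⟶ W), u ≫ a = v ≫ a → u ≫ σ = v ≫ σ → u = v)
  (hlift : ∀ (T : Type) (_ : CommRing T) (θ : A →+* T) (jF : F →+* T), (∀ c, θ (ιA c) = jF (i c)) →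
    ∃ β : Spec (.of T) ⟶ W, β ≫ a = Spec.map (CommRingCat.ofHom θ) ∧ β ≫ σ = Spec.map (CommRingCat.ofHom jF))
  (hline : ∀ (κ : Type) (_ : Field κ) (v : A →+* κ), ∃ (θ : A →+* κ[X]) (c0 : κ),
    (∀ z, (θ z).eval c0 = v z) ∧ (∀ c : ℂ, θ (ιA c) = C (v (ιA c))) ∧ θ t0 = X ^ 2 - 1)

lemma spec_ev (g : W ⟶ Spec A) (w : W) : Spec.map (CommRingCat.ofHom (ev g w)) = W.fromSpecResidueField w ≫ g := by
  unfold ev
  exact Spec.map_preimage _

/-- map to the affine line -/
noncomputable def toLine : W ⟶ Spec (.of F[X]) :=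
  W.toSpecΓ ≫ Spec.map (CommRingCat.ofHom (eval₂RingHom (gam σ).hom ((gam a).hom t0)))

lemma toLine_sep [IsSeparated σ] : IsSeparated (toLine t0 a σ) := by
  have h1 : toLine t0 a σ ≫ Spec.map (CommRingCat.ofHom (C : F →+* F[X])) = σ := by
    apply hom_ext_gam
    rw [gam_spec]
    unfold toLine
    rw [gam_toSpecΓ]
    ext z
    simp
  have h2 : IsSeparated (toLine t0 a σ ≫ Spec.map (CommRingCat.ofHom (C : F →+* F[X]))) := by
    rw [h1]; infer_instance
  exact IsSeparated.of_comp _ (Spec.map (CommRingCat.ofHom (C : F →+* F[X])))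

include hcomp hmono hlift hline in
lemma single_mem_Rat' [LocallyOfFiniteType σ] [IsSeparated σ] (w : W) (hw : IsClosed ({w} : Set W)) :
    Finsupp.single w 1 ∈ Rat W := by
  obtain ⟨θ, c0, h1, h2, h3⟩ := hline (W.residueField w) inferInstance (ev a w)
  have h4 : ∀ c : ℂ, ev a w (ιA c) = ev σ w (i c) := by
    intro c
    rw [ev_eq_evaluation, ev_eq_evaluation, hcomp]
  obtain ⟨p, hp1, hp2⟩ := hlift _ inferInstance θ ((C : W.residueField w →+* (W.residueField w)[X]).comp (ev σ w)) (by
    intro c
    rw [h2, h4]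
    rfl)
  have hfin : IsFinite p := by
    have h5 : p ≫ toLine t0 a σ = Spec.map (CommRingCat.ofHom
        (eval₂RingHom ((C : W.residueField w →+* (W.residueField w)[X]).comp (ev σ w)) (X ^ 2 - 1))) := by
      apply hom_ext_gam
      rw [gam_comp]
      unfold toLine
      rw [gam_toSpecΓ]
      have e1 : gam (Spec.map (CommRingCat.ofHom (eval₂RingHom
          ((C : W.residueField w →+* (W.residueField w)[X]).comp (ev σ w)) (X ^ 2 - 1)))) =
          CommRingCat.ofHom (eval₂RingHom ((C : W.residueField w →+* (W.residueField w)[X]).comp (ev σ w)) (X ^ 2 - 1)) ≫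
            (Scheme.ΓSpecIso _).inv := by
        have := gam_spec (𝟙 _) (CommRingCat.ofHom (eval₂RingHom
          ((C : W.residueField w →+* (W.residueField w)[X]).comp (ev σ w)) (X ^ 2 - 1)))
        rw [Category.id_comp] at this
        rw [this]
        congr 1
      rw [e1]
      have e2 : gam σ ≫ p.appTop = CommRingCat.ofHom ((C : W.residueField w →+* (W.residueField w)[X]).comp (ev σ w)) ≫
          (Scheme.ΓSpecIso _).inv := by
        rw [← gam_comp, hp2]
        have := gam_spec (𝟙 _) (CommRingCat.ofHom ((C : W.residueField w →+* (W.residueField w)[X]).comp (ev σ w)))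
        rw [Category.id_comp] at this
        rw [this]
        congr 1
      have e3 : gam a ≫ p.appTop = CommRingCat.ofHom θ ≫ (Scheme.ΓSpecIso _).inv := by
        rw [← gam_comp, hp1]
        have := gam_spec (𝟙 _) (CommRingCat.ofHom θ)
        rw [Category.id_comp] at this
        rw [this]
        congr 1
      apply CommRingCat.hom_ext
      apply Polynomial.ringHom_ext
      · intro z
        have := congrArg (fun f => f.hom z) e2
        simp only [CommRingCat.hom_comp, RingHom.comp_apply, CommRingCat.hom_ofHom, coe_eval₂RingHom, eval₂_C] at this ⊢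
        exact this
      · have := congrArg (fun f => f.hom t0) e3
        simp only [CommRingCat.hom_comp, RingHom.comp_apply, CommRingCat.hom_ofHom, coe_eval₂RingHom, eval₂_X] at this ⊢
        rw [this, h3]
    have h6 : IsFinite (p ≫ toLine t0 a σ) := by
      rw [h5, IsFinite.SpecMap_iff]
      exact finite_poly (ev σ w) (finite_of_isClosed σ w hw)
    have h7 := toLine_sep t0 a σ
    exact IsFinite.of_comp p (toLine t0 a σ)
  refine single_mem_Rat w p c0 ?_
  apply hmono
  · rw [Category.assoc, hp1, ← spec_ev, ← Spec.map_comp, ← CommRingCat.ofHom_comp]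
    congr 2
    ext z
    exact h1 z
  · rw [Category.assoc, hp2, ← spec_ev, ← Spec.map_comp, ← CommRingCat.ofHom_comp]
    congr 2
    ext z
    simp

include hcomp hmono hlift hline in
/-- all zero-cycles are rationally trivial -/
lemma all_mem_Rat [LocallyOfFiniteType σ] [IsSeparated σ] (z : W →₀ ℤ) (hz : IsZeroCycle z) : z ∈ Rat W := by
  classical
  rw [← Finsupp.sum_single z]
  apply AddSubgroup.sum_mem
  intro w hw
  have h1 := single_mem_Rat' i ιA t0 a σ hcomp hmono hlift hline w (hz w hw)
  have h2 : Finsupp.single w (z w) = (z w) • Finsupp.single w (1 : ℤ) := by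
    rw [Finsupp.smul_single, smul_eq_mul, mul_one]
  rw [h2]
  exact AddSubgroup.zsmul_mem _ h1 _

end
end H45.CH0
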