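import Mathlib
import Pool.Agent.H45.CH0Ell
set_option autoImplicit false
namespace H45.CH0
open Polynomial

/-- the right hand side of the equation of the double curve surface -/
noncomputable def aX : EE[X] := C xE * X ^ 2 * (X + 1)

/-- coordinate ring of `X : r ^ 2 = x t ^ 2 (t + 1)` -/
abbrev AX : Type := QuadraticAlgebra EE[X] aX 0

/-- the functions on `X` -/
noncomputable def xA : AX := algebraMap EE[X] AX (C xE)
/-- the functions on `X` -/
noncomputable def yA : AX := algebraMap EE[X] AX (C yE)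
/-- the functions on `X` -/
noncomputable def tA : AX := algebraMap EE[X] AX X
/-- the functions on `X` -/
noncomputable def rA : AX := qw aX

lemma rA_sq : rA ^ 2 = xA * tA ^ 2 * (tA + 1) := by
  unfold rA xA tA
  rw [qw_sq]
  change algebraMap EE[X] AX (C xE * X ^ 2 * (X + 1)) = _
  rw [map_mul, map_mul, map_pow, map_add, map_one]

lemma yA_sq : yA ^ 2 = xA ^ 3 - xA := by
  unfold yA xA
  rw [← map_pow, ← map_pow, ← map_pow, ← map_pow, yE_sq, ← map_sub, ← map_sub]

lemma isUnit_xA : IsUnit xA := (isUnit_xE.map (C : EE →+* EE[X])).map _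

lemma p0_hom_ext {T : Type*} [CommRing T] (u v : P0 →+* T) (h1 : ∀ c : ℂ, u (algebraMap ℂ P0 c) = v (algebraMap ℂ P0 c))
    (h2 : u xP = v xP) : u = v := by
  apply IsLocalization.ringHom_ext (Submonoid.powers (X ^ 3 - X : ℂ[X]))
  apply Polynomial.ringHom_ext
  · intro a
    have := h1 a
    rwa [IsScalarTower.algebraMap_apply ℂ ℂ[X] P0] at this
  · exact h2

lemma ee_hom_ext {T : Type*} [CommRing T] (u v : EE →+* T) (h1 : ∀ c : ℂ, u (algebraMap ℂ EE c) = v (algebraMap ℂ EE c))
    (h2 : u xE = v xE) (h3 : u yE = v yE) : u = v := by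
  apply q_hom_ext
  · have : u.comp (algebraMap P0 EE) = v.comp (algebraMap P0 EE) := by
      apply p0_hom_ext
      · intro c
        simp only [RingHom.comp_apply, ← IsScalarTower.algebraMap_apply]
        exact h1 c
      · exact h2
    intro c
    exact congrArg (fun f => f c) this
  · exact h3

lemma ax_hom_ext (T : Type) (_ : CommRing T) (u v : AX →+* T)
    (h1 : ∀ c : ℂ, u (algebraMap ℂ AX c) = v (algebraMap ℂ AX c))
    (h2 : u xA = v xA) (h3 : u yA = v yA) (h4 : u tA = v tA) (h5 : u rA = v rA) : u = v := by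
  apply q_hom_ext
  · have : u.comp (algebraMap EE[X] AX) = v.comp (algebraMap EE[X] AX) := by
      apply Polynomial.ringHom_ext
      · have h6 : (u.comp (algebraMap EE[X] AX)).comp C = (v.comp (algebraMap EE[X] AX)).comp C := by
          apply ee_hom_ext
          · intro c
            exact h1 c
          · exact h2
          · exact h3
        intro c
        exact congrArg (fun f => f c) h6
      · exact h4
    intro c
    exact congrArg (fun f => f c) this
  · exact h5

/-- coordinate ring of `Y`, obtained by adjoining a square root of `x` -/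
abbrev AY : Type := QuadraticAlgebra AX xA 0

/-- coordinate ring of the resolution of `Y` -/
abbrev Q1 : Type := QuadraticAlgebra EE[X] (C xE) 0

instance : IsDomain Q1 := isDomain_of_NS _ (NS_poly _ NS_xE)

/-- the square root of `x` -/
noncomputable def s1 : Q1 := qw (C xE)
/-- the coordinate on the resolution -/
noncomputable def σ1 : Q1 := algebraMap EE[X] Q1 X

lemma s1_sq : s1 ^ 2 = algebraMap EE[X] Q1 (C xE) := qw_sq

/-- `t ↦ σ ^ 2 - 1` -/
noncomputable def φt : EE[X] →+* Q1 := (algebraMap EE[X] Q1).comp (Polynomial.compRingHom (X ^ 2 - 1))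

lemma φt_C (c : EE) : φt (C c) = algebraMap EE[X] Q1 (C c) := by
  simp [φt]

lemma φt_X : φt X = σ1 ^ 2 - 1 := by
  simp [φt, σ1]

/-- the map of coordinate rings for the normalisation of `X` after base change -/
noncomputable def φX : AX →+* Q1 := qLift φt (s1 * σ1 * (σ1 ^ 2 - 1)) (by
  unfold aX
  rw [map_mul, map_mul, map_pow, map_add, map_one, φt_C, φt_X, ← s1_sq]
  ring)

/-- the map of coordinate rings for the resolution of `Y` -/
noncomputable def φY : AY →+* Q1 := qLift φX s1 (by
  unfold φX xA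
  rw [qLift_C, φt_C, s1_sq])

lemma comp_inj (p : EE[X]) (h : p.comp (X ^ 2 - 1) = 0) : p = 0 := by
  rw [comp_eq_zero_iff] at h
  rcases h with h | ⟨_, h⟩
  · exact h
  · exfalso
    have h1 := congrArg natDegree h
    rw [natDegree_C] at h1
    have : (X ^ 2 - 1 : EE[X]).natDegree = 2 := by compute_degree!
    omega

lemma two_ne_zero_EE : (2 : EE) ≠ 0 := by
  have h2 : algebraMap P0 EE 2 ≠ 0 := by
    rw [Ne, FaithfulSMul.algebraMap_eq_zero_iff]; exact two_ne_zero_P0
  rw [map_ofNat] at h2
  exact h2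

lemma even_odd (p q : EE[X]) (h : p.comp (X ^ 2 - 1) + X * q.comp (X ^ 2 - 1) = 0) : p = 0 ∧ q = 0 := by
  have h1 := congrArg (fun f => f.comp (-X)) h
  simp only [add_comp, mul_comp, X_comp, comp_assoc, sub_comp, pow_comp, one_comp, zero_comp] at h1
  have e : ((-X : EE[X]) ^ 2 - 1) = X ^ 2 - 1 := by ring
  rw [e] at h1
  have h2 : C (2 : EE) * p.comp (X ^ 2 - 1) = 0 := by
    have : (C (2 : EE) : EE[X]) = 2 := map_ofNat C 2
    rw [this]
    linear_combination h + h1
  have h3 : p.comp (X ^ 2 - 1) = 0 := (mul_eq_zero.mp h2).resolve_left (C_ne_zero.mpr two_ne_zero_EE)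
  have hp := comp_inj p h3
  refine ⟨hp, ?_⟩
  rw [h3, zero_add] at h
  exact comp_inj q ((mul_eq_zero.mp h).resolve_left X_ne_zero)

lemma q_zero {R : Type*} [CommRing R] {a : R} (p q : R)
    (h : algebraMap R (QuadraticAlgebra R a 0) p + algebraMap R (QuadraticAlgebra R a 0) q * qw a = 0) :
    p = 0 ∧ q = 0 := by
  have hre := congrArg QuadraticAlgebra.re h
  have him := congrArg QuadraticAlgebra.im h
  simp [qw] at hre him
  exact ⟨hre, him⟩

lemma φY_injective : Function.Injective φY := by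
  rw [injective_iff_map_eq_zero]
  intro z hz
  have h1 : φY z = φX z.re + φX z.im * s1 := rfl
  have h2 : ∀ w : AX, φX w = φt w.re + φt w.im * (s1 * σ1 * (σ1 ^ 2 - 1)) := fun w => rfl
  rw [h1, h2, h2] at hz
  have e1 : ∀ p : EE[X], φt p = algebraMap EE[X] Q1 (p.comp (X ^ 2 - 1)) := fun p => rfl
  have e2 : σ1 * (σ1 ^ 2 - 1) = algebraMap EE[X] Q1 (X * (X ^ 2 - 1)) := by
    unfold σ1
    rw [map_mul, map_sub, map_pow, map_one]
  have h3 : algebraMap EE[X] Q1 (z.re.re.comp (X ^ 2 - 1) + C xE * (z.im.im.comp (X ^ 2 - 1) * (X * (X ^ 2 - 1))))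
      + algebraMap EE[X] Q1 (z.re.im.comp (X ^ 2 - 1) * (X * (X ^ 2 - 1)) + z.im.re.comp (X ^ 2 - 1)) * qw (C xE) = 0 := by
    have e3 : ∀ p q : EE[X], algebraMap EE[X] Q1 (p * q) = algebraMap EE[X] Q1 p * algebraMap EE[X] Q1 q :=
      fun p q => map_mul _ p q
    rw [map_add, map_add, e3 (C xE), e3 _ (X * (X ^ 2 - 1)), e3 _ (X * (X ^ 2 - 1)), ← e2, ← e1, ← e1, ← e1,
      ← e1, ← s1_sq]
    change _ + _ * s1 = 0
    linear_combination hz
  obtain ⟨h4, h5⟩ := q_zero _ _ h3
  have h6 := even_odd z.re.re (C xE * z.im.im * X) (by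
    rw [mul_comp, mul_comp, C_comp, X_comp]
    linear_combination h4)
  have h7 := even_odd z.im.re (z.re.im * X) (by
    rw [mul_comp, X_comp]
    linear_combination h5)
  have h8 : z.im.im = 0 := by
    have := (mul_eq_zero.mp h6.2).resolve_right X_ne_zero
    exact (mul_eq_zero.mp this).resolve_left (C_ne_zero.mpr isUnit_xE.ne_zero)
  have h9 : z.re.im = 0 := (mul_eq_zero.mp h7.2).resolve_right X_ne_zero
  have hzr : z.re = 0 := QuadraticAlgebra.ext h6.1 h9
  have hzi : z.im = 0 := QuadraticAlgebra.ext h7.1 h8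
  rw [q_eta z, hzr, hzi, map_zero, zero_mul, zero_add]

instance : IsDomain AY := φY_injective.isDomain φY

instance : IsDomain AX :=
  (FaithfulSMul.algebraMap_injective AX AY).isDomain (algebraMap AX AY)

end H45.CH0
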