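import Mathlib
import Pool.Agent.H45.CH0Surf
set_option autoImplicit false
namespace H45.CH0
open Polynomial

/-- ring homomorphisms from `Q1` -/
noncomputable def q1Lift {T : Type} [CommRing T] (j : EE →+* T) (s σ : T) (hs : s ^ 2 = j xE) : Q1 →+* T :=
  qLift (eval₂RingHom j σ) s (by rw [coe_eval₂RingHom, eval₂_C, hs])

section
variable {T : Type} [CommRing T] (j : EE →+* T) (s σ : T) (hs : s ^ 2 = j xE)

lemma q1Lift_C (c : EE) : q1Lift j s σ hs (algebraMap EE[X] Q1 (C c)) = j c := by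
  unfold q1Lift
  rw [qLift_C]; simp

lemma q1Lift_σ : q1Lift j s σ hs σ1 = σ := by
  unfold q1Lift σ1
  rw [qLift_C]; simp

lemma q1Lift_s : q1Lift j s σ hs s1 = s := by
  unfold q1Lift s1
  rw [qLift_qw]

lemma q1_hom_ext (u v : Q1 →+* T) (h1 : ∀ c : EE, u (algebraMap EE[X] Q1 (C c)) = v (algebraMap EE[X] Q1 (C c)))
    (h2 : u σ1 = v σ1) (h3 : u s1 = v s1) : u = v := by
  apply q_hom_ext
  · have : u.comp (algebraMap EE[X] Q1) = v.comp (algebraMap EE[X] Q1) := by
      apply Polynomial.ringHom_ext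
      · exact h1
      · exact h2
    intro c
    exact congrArg (fun f => f c) this
  · exact h3

/-- elements of `AY` -/
noncomputable abbrev toAY : AX →+* AY := algebraMap AX AY
/-- the square root of `x` -/
noncomputable def sA : AY := qw xA

lemma sA_sq : sA ^ 2 = toAY xA := qw_sq

lemma ay_hom_ext (u v : AY →+* T) (h1 : ∀ c : EE, u (toAY (algebraMap EE[X] AX (C c))) = v (toAY (algebraMap EE[X] AX (C c))))
    (h2 : u (toAY tA) = v (toAY tA)) (h3 : u (toAY rA) = v (toAY rA)) (h4 : u sA = v sA) : u = v := by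
  apply q_hom_ext
  · have : u.comp toAY = v.comp toAY := by
      apply q_hom_ext
      · have h5 : (u.comp toAY).comp (algebraMap EE[X] AX) = (v.comp toAY).comp (algebraMap EE[X] AX) := by
          apply Polynomial.ringHom_ext
          · exact h1
          · exact h2
        intro c
        exact congrArg (fun f => f c) h5
      · exact h3
    intro c
    exact congrArg (fun f => f c) this
  · exact h4

lemma φX_C (c : EE) : φX (algebraMap EE[X] AX (C c)) = algebraMap EE[X] Q1 (C c) := by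
  unfold φX
  rw [qLift_C, φt_C]

lemma φX_t : φX tA = σ1 ^ 2 - 1 := by
  unfold φX tA
  rw [qLift_C, φt_X]

lemma φX_r : φX rA = s1 * σ1 * (σ1 ^ 2 - 1) := by
  unfold φX rA
  rw [qLift_qw]

lemma φY_toAY (z : AX) : φY (toAY z) = φX z := by
  unfold φY toAY
  rw [qLift_C]

lemma φY_s : φY sA = s1 := by
  unfold φY sA
  rw [qLift_qw]

end

/-- lines on the resolution -/
lemma hline_Q1 (κ : Type) (_ : Field κ) (v : Q1 →+* κ) : ∃ (θ : Q1 →+* κ[X]) (c0 : κ),
    (∀ z, (θ z).eval c0 = v z) ∧ (∀ c : ℂ, θ (algebraMap ℂ Q1 c) = C (v (algebraMap ℂ Q1 c))) ∧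
    θ (σ1 ^ 2 - 1) = X ^ 2 - 1 := by
  have hs : (C (v s1) : κ[X]) ^ 2 = ((C : κ →+* κ[X]).comp (v.comp ((algebraMap EE[X] Q1).comp C))) xE := by
    change _ = C (v (algebraMap EE[X] Q1 (C xE)))
    rw [← s1_sq, map_pow, map_pow]
  refine ⟨q1Lift ((C : κ →+* κ[X]).comp (v.comp ((algebraMap EE[X] Q1).comp C))) (C (v s1)) X hs, v σ1, ?_, ?_, ?_⟩
  · have h1 : (evalRingHom (v σ1)).comp (q1Lift ((C : κ →+* κ[X]).comp (v.comp ((algebraMap EE[X] Q1).comp C)))
        (C (v s1)) X hs) = v := by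
      apply q1_hom_ext
      · intro c
        rw [RingHom.comp_apply, q1Lift_C]
        simp
      · rw [RingHom.comp_apply, q1Lift_σ]
        simp
      · rw [RingHom.comp_apply, q1Lift_s]
        simp
    intro z
    exact congrArg (fun f => f z) h1
  · intro c
    have : algebraMap ℂ Q1 c = algebraMap EE[X] Q1 (C (algebraMap ℂ EE c)) := rfl
    rw [this, q1Lift_C]
    rfl
  · rw [map_sub, map_pow, q1Lift_σ, map_one]

/-- lifting points of `Y` -/
lemma exists_lift (κ : Type) (_ : Field κ) (v : AY →+* κ) : ∃ v' : Q1 →+* κ, v'.comp φY = v := by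
  have hs : v sA ^ 2 = v (toAY xA) := by rw [← map_pow, sA_sq]
  have hx : v (toAY xA) ≠ 0 := ((isUnit_xA.map toAY).map v).ne_zero
  have hs0 : v sA ≠ 0 := by
    intro h
    rw [h] at hs
    apply hx
    rw [← hs]; ring
  have hr : v (toAY rA) ^ 2 = v (toAY xA) * v (toAY tA) ^ 2 * (v (toAY tA) + 1) := by
    rw [← map_pow, ← map_pow, rA_sq]
    simp only [map_mul, map_pow, map_add, map_one]
  obtain ⟨σ0, h1, h2⟩ : ∃ σ0 : κ, σ0 ^ 2 - 1 = v (toAY tA) ∧ v sA * σ0 * (σ0 ^ 2 - 1) = v (toAY rA) := by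
    by_cases ht : v (toAY tA) = 0
    · refine ⟨1, ?_, ?_⟩
      · rw [ht]; ring
      · rw [ht] at hr
        have : v (toAY rA) = 0 := by
          apply pow_eq_zero_iff (two_ne_zero) |>.mp
          rw [hr]; ring
        rw [this]; ring
    · have e : (v (toAY rA) / (v sA * v (toAY tA))) ^ 2 - 1 = v (toAY tA) := by
        rw [div_pow, hr, mul_pow, hs]
        field_simp
        ring
      refine ⟨v (toAY rA) / (v sA * v (toAY tA)), e, ?_⟩
      rw [e]
      field_simp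
  obtain ⟨j, hj⟩ : ∃ j : EE →+* κ, ∀ c, j c = v (toAY (algebraMap EE[X] AX (C c))) :=
    ⟨v.comp (toAY.comp ((algebraMap EE[X] AX).comp C)), fun c => rfl⟩
  have hs' : v sA ^ 2 = j xE := by rw [hs, hj]; rfl
  refine ⟨q1Lift j (v sA) σ0 hs', ?_⟩
  apply ay_hom_ext
  · intro c
    rw [RingHom.comp_apply, φY_toAY, φX_C, q1Lift_C, hj]
  · rw [RingHom.comp_apply, φY_toAY, φX_t, map_sub, map_pow, q1Lift_σ, map_one, h1]
  · rw [RingHom.comp_apply, φY_toAY, φX_r, map_mul, map_mul, map_sub, map_pow, q1Lift_σ, map_one, q1Lift_s, h2]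
  · rw [RingHom.comp_apply, φY_s, q1Lift_s]

lemma φY_alg (c : ℂ) : φY (algebraMap ℂ AY c) = algebraMap ℂ Q1 c := by
  have h1 : algebraMap ℂ AY c = toAY (algebraMap EE[X] AX (C (algebraMap ℂ EE c))) := rfl
  rw [h1, φY_toAY, φX_C]
  rfl

/-- lines on `Y` -/
lemma hline_AY (κ : Type) (_ : Field κ) (v : AY →+* κ) : ∃ (θ : AY →+* κ[X]) (c0 : κ),
    (∀ z, (θ z).eval c0 = v z) ∧ (∀ c : ℂ, θ (algebraMap ℂ AY c) = C (v (algebraMap ℂ AY c))) ∧
    θ (toAY tA) = X ^ 2 - 1 := by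
  obtain ⟨v', hv'⟩ := exists_lift κ inferInstance v
  obtain ⟨θ, c0, h1, h2, h3⟩ := hline_Q1 κ inferInstance v'
  have h4 : ∀ z, v' (φY z) = v z := fun z => congrArg (fun f => f z) hv'
  refine ⟨θ.comp φY, c0, ?_, ?_, ?_⟩
  · intro z
    rw [RingHom.comp_apply, h1, h4]
  · intro c
    rw [RingHom.comp_apply, φY_alg, h2, ← φY_alg, h4]
  · rw [RingHom.comp_apply, φY_toAY, φX_t, h3]

end H45.CH0
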