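import Mathlib
import Pool.Agent.H45.CH0Ev
import Pool.Agent.H45.CH0Quad
set_option autoImplicit false
namespace H45.CH0
open AlgebraicGeometry CategoryTheory CategoryTheory.Limits Polynomial

lemma isUnit_of_basicOpen_eq_top {Z : Scheme.{0}} (g : Γ(Z, ⊤)) (h : Z.basicOpen g = ⊤) : IsUnit g := by
  apply RingedSpace.isUnit_of_isUnit_germ
  intro z hz
  have : z ∈ Z.basicOpen g := by rw [h]; exact hz
  exact (Z.mem_basicOpen g z hz).mp this

lemma isUnit_of_mem_basicOpen {Z C : Scheme.{0}} (u : Z ⟶ C) (g : Γ(C, ⊤))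
    (h : ∀ z : Z, u z ∈ C.basicOpen g) : IsUnit (u.appTop g) := by
  apply isUnit_of_basicOpen_eq_top
  rw [← Scheme.preimage_basicOpen_top]
  ext z
  simp only [TopologicalSpace.Opens.coe_top, Set.mem_univ, iff_true]
  exact h z

section
variable {F : Type} [Field F] (i : ℂ →+* F) (H : ℂ[X])
variable {A : CommRingCat.{0}} (ιA : ℂ →+* A) (xA yA tA rA : A)
variable {W C : Scheme.{0}} (a : W ⟶ Spec A) (σ : W ⟶ Spec (.of F))
  (p : C ⟶ W)

/-- the locus of `C` where `H(x)` does not vanish -/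
noncomputable def CU : C.Opens := C.basicOpen ((gam (p ≫ a)).hom (H.eval₂ ιA xA))

variable (hcomp : ∀ c : ℂ, (gam σ).hom (i c) = (gam a).hom (ιA c))
  (hy : yA ^ 2 = xA ^ 3 - xA)

lemma gam_comp_apply {A : CommRingCat.{0}} {W Z : Scheme.{0}} (u : Z ⟶ W) (g : W ⟶ Spec A) (z : A) :
    (gam (u ≫ g)).hom z = u.appTop.hom ((gam g).hom z) := by
  rw [gam_comp]; rfl

include hcomp in
lemma gam_hcomp {Z : Scheme.{0}} (u : Z ⟶ W) (c : ℂ) :
    (gam (u ≫ σ)).hom (i c) = (gam (u ≫ a)).hom (ιA c) := by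
  rw [gam_comp_apply, gam_comp_apply, hcomp]

include hcomp in
lemma eval₂_gam {Z : Scheme.{0}} (u : Z ⟶ W) :
    H.eval₂ ((gam (u ≫ σ)).hom.comp i) ((gam (u ≫ a)).hom xA) = (gam (u ≫ a)).hom (H.eval₂ ιA xA) := by
  rw [Polynomial.hom_eval₂]
  congr 1
  ext c
  exact gam_hcomp i ιA a σ hcomp u c

include hcomp in
lemma isUnit_chart {Z : Scheme.{0}} (u : Z ⟶ C) (hu : ∀ z : Z, u z ∈ CU H ιA xA a p) :
    IsUnit (H.eval₂ ((gam ((u ≫ p) ≫ σ)).hom.comp i) ((gam ((u ≫ p) ≫ a)).hom xA)) := by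
  rw [eval₂_gam i H ιA xA a σ hcomp, Category.assoc, gam_comp_apply]
  exact isUnit_of_mem_basicOpen u _ hu

include hy in
lemma y_chart {Z : Scheme.{0}} (u : Z ⟶ C) :
    ((gam ((u ≫ p) ≫ a)).hom yA) ^ 2 = ((gam ((u ≫ p) ≫ a)).hom xA) ^ 3 - (gam ((u ≫ p) ≫ a)).hom xA := by
  rw [← map_pow, hy]; simp

/-- the morphism from (schemes over) the open subset to the affine curve -/
noncomputable def chart {Z : Scheme.{0}} (u : Z ⟶ C) (hu : ∀ z : Z, u z ∈ CU H ιA xA a p) :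
    Z ⟶ Spec (.of (RH i H)) :=
  Z.toSpecΓ ≫ Spec.map (CommRingCat.ofHom (rhLift i H (gam ((u ≫ p) ≫ σ)).hom ((gam ((u ≫ p) ≫ a)).hom xA)
    ((gam ((u ≫ p) ≫ a)).hom yA) (y_chart xA yA a p hy u) (isUnit_chart i H ιA xA a σ p hcomp u hu)))

lemma gam_chart {Z : Scheme.{0}} (u : Z ⟶ C) (hu : ∀ z : Z, u z ∈ CU H ιA xA a p) :
    gam (chart i H ιA xA yA a σ p hcomp hy u hu) =
    CommRingCat.ofHom (rhLift i H (gam ((u ≫ p) ≫ σ)).hom ((gam ((u ≫ p) ≫ a)).hom xA)
    ((gam ((u ≫ p) ≫ a)).hom yA) (y_chart xA yA a p hy u) (isUnit_chart i H ιA xA a σ p hcomp u hu)) := by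
  unfold chart
  rw [gam_toSpecΓ]

variable (β : Spec (.of (RH i H)) ⟶ W) (θ : A →+* RH i H) (hβa : β ≫ a = Spec.map (CommRingCat.ofHom θ))
  (hβσ : β ≫ σ = Spec.map (CommRingCat.ofHom (algebraMap F (RH i H))))
  (hmono : ∀ (T : Scheme.{0}) (u v : T ⟶ W), u ≫ a = v ≫ a → u ≫ σ = v ≫ σ → u = v)
  (hθι : ∀ c : ℂ, θ (ιA c) = algebraMap F (RH i H) (i c))
  (hθx : θ xA = algebraMap _ _ (lx i H)) (hθy : θ yA = qw _) (hθt : θ tA = 0) (hθr : θ rA = 0)
  (hA : ∀ (T : Type) (_ : CommRing T) (u v : A →+* T), (∀ c, u (ιA c) = v (ιA c)) → u xA = v xA →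
    u yA = v yA → u tA = v tA → u rA = v rA → u = v)
  (hpt : (gam (p ≫ a)).hom tA = 0) (hpr : (gam (p ≫ a)).hom rA = 0)

include hβa hβσ hmono hθι hθx hθy hθt hθr hA hpt hpr in
lemma chart_comp {Z : Scheme.{0}} (u : Z ⟶ C) (hu : ∀ z : Z, u z ∈ CU H ιA xA a p) :
    chart i H ιA xA yA a σ p hcomp hy u hu ≫ β = u ≫ p := by
  apply hmono
  · rw [Category.assoc, hβa]
    apply hom_ext_gam
    rw [gam_spec, gam_chart]
    ext : 1
    have e1 := y_chart xA yA a p hy u
    have e2 := isUnit_chart i H ιA xA a σ p hcomp u hu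
    apply hA
    · intro c
      change rhLift i H _ _ _ e1 e2 (θ (ιA c)) = (gam ((u ≫ p) ≫ a)).hom (ιA c)
      rw [hθι, rhLift_F, gam_hcomp i ιA a σ hcomp]
    · change rhLift i H _ _ _ e1 e2 (θ xA) = (gam ((u ≫ p) ≫ a)).hom xA
      rw [hθx, rhLift_x]
    · change rhLift i H _ _ _ e1 e2 (θ yA) = (gam ((u ≫ p) ≫ a)).hom yA
      rw [hθy, rhLift_y]
    · change rhLift i H _ _ _ e1 e2 (θ tA) = (gam ((u ≫ p) ≫ a)).hom tA
      rw [hθt, map_zero, Category.assoc, gam_comp_apply, hpt, map_zero]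
    · change rhLift i H _ _ _ e1 e2 (θ rA) = (gam ((u ≫ p) ≫ a)).hom rA
      rw [hθr, map_zero, Category.assoc, gam_comp_apply, hpr, map_zero]
  · rw [Category.assoc, hβσ]
    apply hom_ext_gam
    rw [gam_spec, gam_chart]
    ext : 1
    ext c
    have e1 := y_chart xA yA a p hy u
    have e2 := isUnit_chart i H ιA xA a σ p hcomp u hu
    exact rhLift_F i H _ _ _ e1 e2 c

include hβa hβσ hθx hθy in
/-- the chart is determined by its composition with the map to the variety -/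
lemma chart_unique {Z : Scheme.{0}} (v v' : Z ⟶ Spec (.of (RH i H))) (h : v ≫ β = v' ≫ β) : v = v' := by
  apply hom_ext_gam
  ext : 1
  have h1 : v ≫ Spec.map (CommRingCat.ofHom θ) = v' ≫ Spec.map (CommRingCat.ofHom θ) := by
    rw [← hβa, ← Category.assoc, h, Category.assoc]
  have h2 : v ≫ Spec.map (CommRingCat.ofHom (algebraMap F (RH i H))) =
      v' ≫ Spec.map (CommRingCat.ofHom (algebraMap F (RH i H))) := by
    rw [← hβσ, ← Category.assoc, h, Category.assoc]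
  have g1 : ∀ z : A, (gam v).hom (θ z) = (gam v').hom (θ z) := by
    intro z
    have := congrArg (fun f => (gam f).hom z) h1
    simp only [gam_spec] at this
    exact this
  have g2 : ∀ z : F, (gam v).hom (algebraMap F (RH i H) z) = (gam v').hom (algebraMap F (RH i H) z) := by
    intro z
    have := congrArg (fun f => (gam f).hom z) h2
    simp only [gam_spec] at this
    exact this
  apply rh_hom_ext
  · exact g2
  · rw [← hθx]; exact g1 _
  · rw [← hθy]; exact g1 _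

include hθι hθx in
lemma isUnit_theta : IsUnit (θ (H.eval₂ ιA xA)) := by
  rw [Polynomial.hom_eval₂, hθx]
  have h1 : H.eval₂ (θ.comp ιA) (algebraMap (Lam i H) (RH i H) (lx i H)) =
      algebraMap (Lam i H) (RH i H) (algebraMap F[X] (Lam i H) (H.map i)) := by
    have h2 : algebraMap F[X] (Lam i H) (H.map i) = H.eval₂ ((algebraMap F (Lam i H)).comp i) (lx i H) := by
      unfold lx
      rw [← Polynomial.eval₂_map, ← Polynomial.aeval_def, Polynomial.aeval_algebraMap_apply]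
      simp
    rw [h2, Polynomial.hom_eval₂]
    congr 1
    ext c : 1
    exact (hθι c)
  rw [h1]
  exact (IsLocalization.Away.algebraMap_isUnit (S := Lam i H) (H.map i)).map _

include hβa hθι hθx in
lemma mem_CU_of_factor {Z : Scheme.{0}} (u : Z ⟶ C) (v : Z ⟶ Spec (.of (RH i H))) (h : u ≫ p = v ≫ β) (z : Z) :
    u z ∈ CU H ιA xA a p := by
  have h1 : u.appTop.hom ((gam (p ≫ a)).hom (H.eval₂ ιA xA)) = (gam v).hom (θ (H.eval₂ ιA xA)) := by
    rw [← gam_comp_apply, ← Category.assoc, h, Category.assoc, hβa, gam_spec]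
    rfl
  have h2 : IsUnit (u.appTop.hom ((gam (p ≫ a)).hom (H.eval₂ ιA xA))) := by
    rw [h1]
    exact (isUnit_theta i H ιA xA θ hθι hθx).map _
  have h3 : u ⁻¹ᵁ (CU H ιA xA a p) = ⊤ := by
    unfold CU
    rw [Scheme.preimage_basicOpen_top]
    exact Scheme.basicOpen_of_isUnit _ h2
  have h4 : z ∈ u ⁻¹ᵁ (CU H ιA xA a p) := by rw [h3]; trivial
  exact h4

include hβa hβσ hmono hθι hθx hθy hθt hθr hA hpt hpr in
/-- the open subset of the curve is the preimage of the affine curve -/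
lemma isPullback_chart :
    IsPullback (CU H ιA xA a p).ι (chart i H ιA xA yA a σ p hcomp hy (CU H ιA xA a p).ι (fun z => z.2)) p β := by
  have hcm := chart_comp i H ιA xA yA tA rA a σ p hcomp hy β θ hβa hβσ hmono hθι hθx hθy hθt hθr hA hpt hpr
    (CU H ιA xA a p).ι (fun z => z.2)
  have hrange : ∀ s : PullbackCone p β, Set.range s.fst ⊆ Set.range (CU H ιA xA a p).ι := by
    rintro s _ ⟨z, rfl⟩
    rw [Scheme.Opens.range_ι]
    exact mem_CU_of_factor i H ιA xA a p β θ hβa hθι hθx s.fst s.snd s.condition z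
  refine ⟨⟨hcm.symm⟩, ⟨PullbackCone.IsLimit.mk _
    (fun s => IsOpenImmersion.lift (CU H ιA xA a p).ι s.fst (hrange s)) ?_ ?_ ?_⟩⟩
  · intro s
    exact IsOpenImmersion.lift_fac _ _ _
  · intro s
    apply chart_unique i H xA yA a σ β θ hβa hβσ hθx hθy
    rw [Category.assoc, hcm, ← Category.assoc, IsOpenImmersion.lift_fac, s.condition]
  · intro s m h1 _
    rw [← cancel_mono (CU H ιA xA a p).ι, h1, IsOpenImmersion.lift_fac]

include hβa hβσ hmono hθι hθx hθy hθt hθr hA hpt hpr in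
lemma isFinite_chart [IsFinite p] :
    IsFinite (chart i H ιA xA yA a σ p hcomp hy (CU H ιA xA a p).ι (fun z => z.2)) :=
  MorphismProperty.of_isPullback (isPullback_chart i H ιA xA yA tA rA a σ p hcomp hy β θ hβa hβσ hmono hθι
    hθx hθy hθt hθr hA hpt hpr) inferInstance

end
end H45.CH0
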