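import Mathlib
import Pool.Agent.H45.CH0Alg
import Pool.Agent.H45.CH0Quad
set_option autoImplicit false
namespace H45.CH0
open Polynomial UniqueFactorizationMonoid

section
variable {F : Type} [Field F] (i : ℂ →+* F) (H : ℂ[X]) (hH : H ≠ 0) (hXH : (X : ℂ[X]) ∣ H)
variable {S : Type} [CommRing S] [IsDomain S] [Algebra F S] [Algebra (Lam i H) S]
  [IsScalarTower F (Lam i H) S] [Module.Finite (Lam i H) S]
variable {K : Type} [Field K] [Algebra S K] [IsFractionRing S K]

/-- `Q` has a localization which is a discrete valuation ring, in which `g` has valuation `n`. -/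
def LocOrd (Q : Ideal S) (g : K) (n : ℤ) : Prop :=
  ∀ [Q.IsPrime], ∃ (O : Type) (_ : CommRing O) (_ : IsDomain O) (_ : IsDiscreteValuationRing O) (_ : Algebra S O)
    (_ : IsLocalization.AtPrime O Q) (_ : Algebra O K) (_ : IsScalarTower S O K) (_ : IsFractionRing O K),
    IsOrd O K g n

include hH in
lemma lam_dedekind : IsDedekindDomain (Lam i H) := by
  have h1 : Submonoid.powers (H.map i) ≤ nonZeroDivisors F[X] := by
    apply powers_le_nonZeroDivisors_of_noZeroDivisors
    exact (Polynomial.map_ne_zero_iff i.injective).mpr hH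
  have h2 : IsDomain (Lam i H) := IsLocalization.isDomain_localization h1
  exact IsLocalization.isDedekindDomain F[X] h1 (Lam i H)

include hH hXH in
theorem ring_reciprocity (y : S) (hy : y ^ 2 = algebraMap (Lam i H) S ((lx i H) ^ 3 - lx i H))
    (g : K) (hg : g ≠ 0) (n : Ideal S → ℤ) (hn : ∀ Q : Ideal S, Q.IsMaximal → LocOrd Q g (n Q))
    (hx : ∀ Q : Ideal S, Q.IsMaximal → Algebra.norm F (Ideal.Quotient.mk Q (algebraMap (Lam i H) S (lx i H))) ≠ 0)
    (T : Finset (Ideal S)) (hT : ∀ Q ∈ T, Q.IsMaximal) (hT' : ∀ Q : Ideal S, Q.IsMaximal → n Q ≠ 0 → Q ∈ T) :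
    IsSquare (∏ Q ∈ T, (Algebra.norm F (Ideal.Quotient.mk Q (algebraMap (Lam i H) S (lx i H)))) ^ (n Q)) := by
  classical
  have hded : IsDedekindDomain (Lam i H) := lam_dedekind i H hH
  have hint : Algebra.IsIntegral (Lam i H) S := inferInstance
  -- `S` is not a field
  have hnf : ∀ Q : Ideal S, Q.IsMaximal → Q ≠ ⊥ := by
    intro Q hQ h0
    have hQp : Q.IsPrime := hQ.isPrime
    obtain ⟨O, i1, i2, i3, i4, i5, i6, i7, i8, hO⟩ := hn Q hQ
    have h1 : Q.map (algebraMap S O) = IsLocalRing.maximalIdeal O := IsLocalization.AtPrime.map_eq_maximalIdeal Q O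
    rw [h0, Ideal.map_bot] at h1
    exact IsDiscreteValuationRing.not_a_field O h1.symm
  have hinj : Function.Injective (algebraMap (Lam i H) S) := by
    rw [RingHom.injective_iff_ker_eq_bot]
    by_contra hker
    have hp : (RingHom.ker (algebraMap (Lam i H) S)).IsPrime := RingHom.ker_isPrime _
    have hm : (RingHom.ker (algebraMap (Lam i H) S)).IsMaximal := hp.isMaximal hker
    have : (⊥ : Ideal S).IsMaximal := by
      have hb : (⊥ : Ideal S).IsPrime := Ideal.isPrime_bot
      exact Ideal.isMaximal_of_isIntegral_of_isMaximal_comap (R := Lam i H) ⊥ hm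
    exact hnf _ this rfl
  have htf : Module.IsTorsionFree (Lam i H) S := by
    exact Module.isTorsionFree_iff_algebraMap_injective.mpr hinj
  have hprime : ∀ P : Ideal S, P ≠ ⊥ → P.IsPrime → P.IsMaximal := by
    intro P hP0 hP
    have h1 : (P.comap (algebraMap (Lam i H) S)) ≠ ⊥ := by
      intro h
      exact hP0 (Ideal.eq_bot_of_comap_eq_bot (R := Lam i H) h)
    have h2 : (P.comap (algebraMap (Lam i H) S)).IsPrime := inferInstance
    exact Ideal.isMaximal_of_isIntegral_of_isMaximal_comap (R := Lam i H) P (h2.isMaximal h1)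
  have hSded : IsDedekindDomain S := by
    have : IsDedekindDomainDvr S :=
      { toIsNoetherian := IsNoetherianRing.of_finite (Lam i H) S
        is_dvr_at_nonzero_prime := by
          intro P hP0 hP
          obtain ⟨O, i1, i2, i3, i4, i5, i6, i7, i8, hO⟩ := hn P (hprime P hP0 hP)
          exact IsDiscreteValuationRing.RingEquivClass.isDiscreteValuationRing (IsLocalization.algEquiv P.primeCompl O (Localization.AtPrime P)) }
    infer_instance
  obtain ⟨a, b, hb, hab⟩ := IsFractionRing.div_surjective (A := S) g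
  have hb0 : b ≠ 0 := nonZeroDivisors.ne_zero hb
  have ha0 : a ≠ 0 := by
    rintro rfl
    rw [map_zero, zero_div] at hab
    exact hg hab.symm
  have hbK : algebraMap S K b ≠ 0 := by
    rw [Ne, FaithfulSMul.algebraMap_eq_zero_iff]; exact hb0
  have hgab : g * algebraMap S K b = algebraMap S K a := by
    rw [← hab]; field_simp
  have hxx : algebraMap (Lam i H) S (lx i H) = algebraMap (Lam i H) S (algebraMap F[X] (Lam i H) X) := rfl
  have hyy : y ^ 2 = algebraMap (Lam i H) S (algebraMap F[X] (Lam i H) (X ^ 3 - X)) := by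
    rw [hy]; unfold lx; rw [map_sub, map_sub, map_sub, map_pow, map_pow, map_pow]
  rw [hxx]
  apply isSquare_prod F _ a b
  · exact theta_principal i H hH hXH y hyy a ha0
  · exact theta_principal i H hH hXH y hyy b hb0
  · intro Q hQ hQ0
    exact hx Q (hprime Q hQ0 hQ)
  · intro Q hQ
    exact ⟨(hT Q hQ).isPrime, hnf Q (hT Q hQ)⟩
  · intro Q hQ hQ0 hnQ
    exact hT' Q (hprime Q hQ0 hQ) hnQ
  · intro Q hQ hQ0
    obtain ⟨O, i1, i2, i3, i4, i5, i6, i7, i8, hO⟩ := hn Q (hprime Q hQ0 hQ)
    exact ord_eq (O := O) Q hQ0 a b ha0 hb0 g hgab (n Q) hO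
end
end H45.CH0
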