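import Mathlib
import Pool.Agent.H45.CH0Ev
import Pool.Agent.H45.CH0Rec
set_option autoImplicit false
namespace H45.CH0
open AlgebraicGeometry CategoryTheory CategoryTheory.Limits Polynomial

section
variable {F : Type} [Field F] (i : ℂ →+* F) (H : ℂ[X]) (hH : H ≠ 0) (hXH : (X : ℂ[X]) ∣ H)
variable {C : Scheme.{0}} (σC : C ⟶ Spec (.of F)) {U : C.Opens} (hU : IsAffineOpen U)
  (lam : Lam i H →+* Γ(C, U)) (hlam : lam.Finite)
  (hlamF : ∀ (c : C) (hc : c ∈ U) (z : F), C.evaluation U c hc (lam (algebraMap F _ z)) = ev σC c z)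

/-- the prime ideal of a point -/
noncomputable def qId (c : C) : Ideal Γ(C, U) := by
  classical
  exact if h : c ∈ U then (hU.primeIdealOf ⟨c, h⟩).asIdeal else ⊤

lemma qId_eq (c : C) (hc : c ∈ U) : qId hU c = (hU.primeIdealOf ⟨c, hc⟩).asIdeal := by
  unfold qId
  rw [dif_pos hc]

lemma fromSpec_mem (P : PrimeSpectrum Γ(C, U)) : hU.fromSpec P ∈ U := by
  have h1 : hU.fromSpec P ∈ Set.range hU.fromSpec := ⟨P, rfl⟩
  rwa [hU.range_fromSpec] at h1

lemma qId_fromSpec (P : PrimeSpectrum Γ(C, U)) : qId hU (hU.fromSpec P) = P.asIdeal := by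
  rw [qId_eq hU _ (fromSpec_mem hU P)]
  congr 1
  apply hU.fromSpec.isOpenEmbedding.injective
  rw [hU.fromSpec_primeIdealOf]

include hlamF in
/-- the norm at a point in terms of the affine coordinate ring -/
lemma norm_prime [Algebra F Γ(C, U)] (hF : ∀ z : F, algebraMap F Γ(C, U) z = lam (algebraMap F (Lam i H) z))
    (c : C) (hc : c ∈ U) (hcl : IsClosed ({c} : Set C)) (z : Γ(C, U)) :
    Algebra.norm F (Ideal.Quotient.mk (hU.primeIdealOf ⟨c, hc⟩).asIdeal z) =
      nrm σC c (C.evaluation U c hc z) := by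
  let _ : Algebra F (C.residueField c) := kalg σC c
  let alg : Algebra Γ(C, U) (C.presheaf.stalk c) := TopCat.Presheaf.algebra_section_stalk C.presheaf ⟨c, hc⟩
  have hmax : (hU.primeIdealOf ⟨c, hc⟩).asIdeal.IsMaximal := hU.primeIdealOf_isMaximal_of_isClosed ⟨c, hc⟩ hcl
  have hloc : IsLocalization.AtPrime (C.presheaf.stalk c) (hU.primeIdealOf ⟨c, hc⟩).asIdeal :=
    hU.isLocalization_stalk ⟨c, hc⟩
  let e : (Γ(C, U) ⧸ (hU.primeIdealOf ⟨c, hc⟩).asIdeal) ≃+* (C.residueField c) :=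
    IsLocalization.AtPrime.equivQuotMaximalIdeal (hU.primeIdealOf ⟨c, hc⟩).asIdeal (C.presheaf.stalk c)
  have he : ∀ z : Γ(C, U), e (Ideal.Quotient.mk _ z) = C.evaluation U c hc z := by
    intro z
    exact IsLocalization.AtPrime.equivQuotMaximalIdeal_apply_mk _ _ _
  let e' : (Γ(C, U) ⧸ (hU.primeIdealOf ⟨c, hc⟩).asIdeal) ≃ₐ[F] (C.residueField c) :=
    AlgEquiv.ofRingEquiv (f := e) (by
      intro w
      have h1 : algebraMap F (Γ(C, U) ⧸ (hU.primeIdealOf ⟨c, hc⟩).asIdeal) w =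
        Ideal.Quotient.mk _ (algebraMap F Γ(C, U) w) := rfl
      rw [h1, he, hF, hlamF c hc]
      rfl)
  have h2 := Algebra.norm_eq_of_algEquiv e' (Ideal.Quotient.mk _ z)
  rw [← h2]
  change Algebra.norm F (e (Ideal.Quotient.mk _ z)) = _
  rw [he]
  rfl

include hH hXH hU hlam hlamF in
/-- reciprocity on the affine part of the curve -/
theorem curve_reciprocity [IsIntegral C] [LocallyOfFiniteType σC]
    (hdvr : ∀ c : C, IsClosed ({c} : Set C) → IsDiscreteValuationRing (C.presheaf.stalk c))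
    (g : C.functionField) (hg : g ≠ 0) (d : C →₀ ℤ) (hd : IsDiv C g d) (hne : Nonempty U)
    (y : Γ(C, U)) (hy : y ^ 2 = lam ((lx i H) ^ 3 - lx i H))
    (M : C → F) (hM : ∀ (c : C) (hc : c ∈ U), M c = nrm σC c (C.evaluation U c hc (lam (lx i H))))
    (hM0 : ∀ c : C, M c ≠ 0) (s : Finset C) (hs : ∀ c, c ∈ s ↔ (c ∈ d.support ∧ c ∈ U)) :
    IsSquare (∏ c ∈ s, (M c) ^ (d c)) := by
  classical
  let _ : Algebra (Lam i H) Γ(C, U) := lam.toAlgebra
  let _ : Algebra F Γ(C, U) := (lam.comp (algebraMap F (Lam i H))).toAlgebra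
  have hst : IsScalarTower F (Lam i H) Γ(C, U) := IsScalarTower.of_algebraMap_eq' rfl
  have hfin : Module.Finite (Lam i H) Γ(C, U) := hlam
  have hfrac : IsFractionRing Γ(C, U) C.functionField := functionField_isFractionRing_of_isAffineOpen C U hU
  have hjac : JacobsonSpace C := LocallyOfFiniteType.jacobsonSpace σC
  -- closed points
  have hclosed : ∀ Q : Spec Γ(C, U), Q.asIdeal.IsMaximal → IsClosed ({hU.fromSpec Q} : Set C) := by
    intro Q hQ
    have h1 : IsClosed ({Q} : Set (Spec Γ(C, U))) := (PrimeSpectrum.isClosed_singleton_iff_isMaximal Q).mpr hQ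
    apply isClosed_singleton_of_isLocallyClosed_singleton
    have h2 : ({hU.fromSpec Q} : Set C) = hU.fromSpec '' {Q} := Set.image_singleton.symm
    rw [h2]
    exact (h1.isLocallyClosed.image hU.fromSpec.isOpenEmbedding.isInducing
      hU.fromSpec.isOpenEmbedding.isOpen_range.isLocallyClosed)
  let n : Ideal Γ(C, U) → ℤ := fun Q => if h : Q.IsPrime then d (hU.fromSpec ⟨Q, h⟩) else 0
  have hn : ∀ (Q : Ideal Γ(C, U)) (h : Q.IsPrime), n Q = d (hU.fromSpec ⟨Q, h⟩) := by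
    intro Q h
    simp only [n]
    rw [dif_pos h]
  have hinj : ∀ c c' : C, c ∈ U → c' ∈ U → qId hU c = qId hU c' → c = c' := by
    intro c c' hc hc' h
    rw [qId_eq hU c hc, qId_eq hU c' hc'] at h
    have h1 : hU.primeIdealOf ⟨c, hc⟩ = hU.primeIdealOf ⟨c', hc'⟩ := PrimeSpectrum.ext h
    have h2 := congrArg hU.fromSpec h1
    rwa [hU.fromSpec_primeIdealOf, hU.fromSpec_primeIdealOf] at h2
  have hnorm : ∀ (Q : PrimeSpectrum Γ(C, U)), Q.asIdeal.IsMaximal →
      Algebra.norm F (Ideal.Quotient.mk Q.asIdeal (lam (lx i H))) = M (hU.fromSpec Q) := by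
    intro Q hQ
    have hmem := fromSpec_mem hU Q
    have hQ' : hU.primeIdealOf ⟨hU.fromSpec Q, hmem⟩ = Q := by
      apply hU.fromSpec.isOpenEmbedding.injective
      rw [hU.fromSpec_primeIdealOf]
    have h1 := norm_prime i H σC hU lam hlamF (fun z => rfl) (hU.fromSpec Q) hmem (hclosed Q hQ) (lam (lx i H))
    rw [hQ'] at h1
    rw [h1, hM _ hmem]
  have key := ring_reciprocity i H hH hXH (S := Γ(C, U)) (K := C.functionField) y hy g hg n
    (by
      intro Q hQ hQp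
      have hmem := fromSpec_mem hU ⟨Q, hQp⟩
      have hcl := hclosed ⟨Q, hQp⟩ hQ
      refine ⟨C.presheaf.stalk (hU.fromSpec ⟨Q, hQp⟩), inferInstance, inferInstance, hdvr _ hcl,
        TopCat.Presheaf.algebra_section_stalk C.presheaf ⟨hU.fromSpec ⟨Q, hQp⟩, hmem⟩,
        hU.isLocalization_stalk' ⟨Q, hQp⟩ hmem, inferInstance,
        functionField_isScalarTower C U ⟨hU.fromSpec ⟨Q, hQp⟩, hmem⟩, inferInstance, ?_⟩
      rw [hn Q hQp]
      exact hd.isOrd _ hcl)
    (by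
      intro Q hQ
      have h1 := hnorm ⟨Q, hQ.isPrime⟩ hQ
      intro h2
      exact hM0 _ (h1.symm.trans h2))
    (s.image (qId hU))
    (by
      intro Q hQ
      rw [Finset.mem_image] at hQ
      obtain ⟨c, hc, rfl⟩ := hQ
      obtain ⟨h1, h2⟩ := (hs c).mp hc
      rw [qId_eq hU c h2]
      exact hU.primeIdealOf_isMaximal_of_isClosed ⟨c, h2⟩ (hd.isZeroCycle c h1))
    (by
      intro Q hQ hnQ
      rw [hn Q hQ.isPrime] at hnQ
      rw [Finset.mem_image]
      refine ⟨hU.fromSpec ⟨Q, hQ.isPrime⟩, ?_, qId_fromSpec hU _⟩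
      rw [hs]
      exact ⟨Finsupp.mem_support_iff.mpr hnQ, fromSpec_mem hU _⟩)
  rw [Finset.prod_image] at key
  · convert key using 1
    apply Finset.prod_congr rfl
    intro c hc
    obtain ⟨h1, h2⟩ := (hs c).mp hc
    have hcl := hd.isZeroCycle c h1
    have hmax := hU.primeIdealOf_isMaximal_of_isClosed ⟨c, h2⟩ hcl
    have h3 := hnorm (hU.primeIdealOf ⟨c, h2⟩) hmax
    have h4 : n (qId hU c) = d c := by
      rw [qId_eq hU c h2, hn _ hmax.isPrime]
      congr 1
      exact hU.fromSpec_primeIdealOf ⟨c, h2⟩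
    rw [h4, qId_eq hU c h2]
    rw [hU.fromSpec_primeIdealOf] at h3
    rw [← h3]
    rfl
  · intro c hc c' hc' h
    exact hinj c c' ((hs c).mp hc).2 ((hs c').mp hc').2 h
end
end H45.CH0
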