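import Mathlib
import Pool.Agent.H45.CH0Curve
import Pool.Agent.H45.CH0Chart
set_option autoImplicit false
namespace H45.CH0
open AlgebraicGeometry CategoryTheory CategoryTheory.Limits Polynomial

section
variable {C : Scheme.{0}} (U : C.Opens)

/-- restriction of global functions -/
noncomputable def resU : Γ(C, ⊤) ⟶ Γ(C, U) := C.presheaf.map (homOfLE le_top : U ⟶ ⊤).op

lemma resU_topIso : resU U ≫ U.topIso.inv = U.ι.appTop := by
  rw [Scheme.Opens.ι_appTop]
  change C.presheaf.map _ ≫ C.presheaf.map _ = C.presheaf.map _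
  exact (C.presheaf.map_comp _ _).symm

lemma evaluation_resU (c : C) (hc : c ∈ U) (z : Γ(C, ⊤)) :
    C.evaluation U c hc (resU U z) = C.Γevaluation c z := by
  change C.residue c (C.presheaf.germ U c hc (C.presheaf.map (homOfLE le_top : U ⟶ ⊤).op z)) =
      C.residue c (C.presheaf.germ ⊤ c trivial z)
  rw [TopCat.Presheaf.germ_res_apply]
end

section
variable {F : Type} [Field F] (i : ℂ →+* F) (H : ℂ[X]) (hH : H ≠ 0) (hXH : (X : ℂ[X]) ∣ H)
variable {A : CommRingCat.{0}} (ιA : ℂ →+* A) (xA yA tA rA : A)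
variable {W C : Scheme.{0}} (a : W ⟶ Spec A) (σ : W ⟶ Spec (.of F))
  (p : C ⟶ W)
variable (hcomp : ∀ c : ℂ, (gam σ).hom (i c) = (gam a).hom (ιA c))
  (hy : yA ^ 2 = xA ^ 3 - xA)
variable (β : Spec (.of (RH i H)) ⟶ W) (θ : A →+* RH i H) (hβa : β ≫ a = Spec.map (CommRingCat.ofHom θ))
  (hβσ : β ≫ σ = Spec.map (CommRingCat.ofHom (algebraMap F (RH i H))))
  (hmono : ∀ (T : Scheme.{0}) (u v : T ⟶ W), u ≫ a = v ≫ a → u ≫ σ = v ≫ σ → u = v)
  (hθι : ∀ c : ℂ, θ (ιA c) = algebraMap F (RH i H) (i c))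
  (hθx : θ xA = algebraMap _ _ (lx i H)) (hθy : θ yA = qw _) (hθt : θ tA = 0) (hθr : θ rA = 0)
  (hA : ∀ (T : Type) (_ : CommRing T) (u v : A →+* T), (∀ c, u (ιA c) = v (ιA c)) → u xA = v xA →
    u yA = v yA → u tA = v tA → u rA = v rA → u = v)
  (hpt : (gam (p ≫ a)).hom tA = 0) (hpr : (gam (p ≫ a)).hom rA = 0)

include hcomp in
lemma isUnit_resU : IsUnit (H.eval₂ (((resU (CU H ιA xA a p)).hom.comp (gam (p ≫ σ)).hom).comp i)
    (resU (CU H ιA xA a p) ((gam (p ≫ a)).hom xA))) := by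
  have h1 : H.eval₂ (((resU (CU H ιA xA a p)).hom.comp (gam (p ≫ σ)).hom).comp i)
    ((resU (CU H ιA xA a p)).hom ((gam (p ≫ a)).hom xA)) =
      (resU (CU H ιA xA a p)).hom ((gam (p ≫ a)).hom (H.eval₂ ιA xA)) := by
    rw [← eval₂_gam i H ιA xA a σ hcomp, Polynomial.hom_eval₂]
    rfl
  have h2 : IsUnit ((resU (CU H ιA xA a p)).hom ((gam (p ≫ a)).hom (H.eval₂ ιA xA))) :=
    RingedSpace.isUnit_res_basicOpen _ _
  rw [← h1] at h2
  exact h2

/-- the ring homomorphism to the coordinate ring of the affine part of the curve -/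
noncomputable def lamC : Lam i H →+* Γ(C, CU H ιA xA a p) :=
  lamLift i H ((resU (CU H ιA xA a p)).hom.comp (gam (p ≫ σ)).hom)
    (resU (CU H ιA xA a p) ((gam (p ≫ a)).hom xA)) (isUnit_resU i H ιA xA a σ p hcomp)

include hβa hβσ hmono hθι hθx hθy hθt hθr hA hpt hpr hy in
lemma lamC_finite [IsFinite p] : IsAffineOpen (CU H ιA xA a p) ∧ (lamC i H ιA xA a σ p hcomp).Finite := by
  have h1 := isFinite_chart i H ιA xA yA tA rA a σ p hcomp hy β θ hβa hβσ hmono hθι hθx hθy hθt hθr hA hpt hpr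
  obtain ⟨χ, hχ⟩ : ∃ χ, χ = chart i H ιA xA yA a σ p hcomp hy (CU H ιA xA a p).ι (fun z => z.2) := ⟨_, rfl⟩
  rw [← hχ] at h1
  have haff : IsAffine (CU H ιA xA a p).toScheme := isAffine_of_isAffineHom χ
  refine ⟨haff, ?_⟩
  -- the global sections are finite over the chart
  have h2 : IsFinite (χ ≫ Spec.map (CommRingCat.ofHom (algebraMap (Lam i H) (RH i H)))) := by
    have : IsFinite (Spec.map (CommRingCat.ofHom (algebraMap (Lam i H) (RH i H)))) := by
      rw [IsFinite.SpecMap_iff]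
      exact RingHom.finite_algebraMap.mpr inferInstance
    infer_instance
  have h3 := Scheme.Hom.finite_appTop (χ ≫ Spec.map (CommRingCat.ofHom (algebraMap (Lam i H) (RH i H))))
  have h4 : (gam (χ ≫ Spec.map (CommRingCat.ofHom (algebraMap (Lam i H) (RH i H))))).hom.Finite := by
    unfold gam
    exact RingHom.Finite.comp h3 (RingHom.Finite.of_surjective _
      (Scheme.ΓSpecIso (.of (Lam i H))).symm.commRingCatIsoToRingEquiv.surjective)
  have h5 : (CU H ιA xA a p).topIso.inv.hom.comp (lamC i H ιA xA a σ p hcomp) =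
      (gam (χ ≫ Spec.map (CommRingCat.ofHom (algebraMap (Lam i H) (RH i H))))).hom := by
    have hti : ∀ z, (CU H ιA xA a p).topIso.inv.hom ((resU (CU H ιA xA a p)).hom z) =
        (CU H ιA xA a p).ι.appTop.hom z := by
      intro z
      exact congrArg (fun f => f.hom z) (resU_topIso (CU H ιA xA a p))
    have e1 := y_chart xA yA a p hy (CU H ιA xA a p).ι
    have e2 := isUnit_chart i H ιA xA a σ p hcomp (CU H ιA xA a p).ι (fun z => z.2)
    have e3 : ∀ z : RH i H, (gam χ).hom z = rhLift i H _ _ _ e1 e2 z := by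
      intro z
      rw [hχ]
      exact congrArg (fun f => f.hom z)
        (gam_chart i H ιA xA yA a σ p hcomp hy (CU H ιA xA a p).ι (fun z => z.2))
    apply lam_hom_ext
    · intro z
      rw [gam_spec]
      change (CU H ιA xA a p).topIso.inv.hom (lamC i H ιA xA a σ p hcomp (algebraMap F (Lam i H) z)) =
        (gam χ).hom (algebraMap (Lam i H) (RH i H) (algebraMap F (Lam i H) z))
      unfold lamC
      rw [lamLift_F, e3, ← IsScalarTower.algebraMap_apply, rhLift_F, RingHom.comp_apply, hti,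
        Category.assoc]
      exact (gam_comp_apply _ _ _).symm
    · rw [gam_spec]
      change (CU H ιA xA a p).topIso.inv.hom (lamC i H ιA xA a σ p hcomp (lx i H)) =
        (gam χ).hom (algebraMap (Lam i H) (RH i H) (lx i H))
      unfold lamC
      rw [lamLift_x, e3, rhLift_x]
      change (CU H ιA xA a p).topIso.inv.hom ((resU (CU H ιA xA a p)).hom _) = _
      rw [hti, Category.assoc]
      exact (gam_comp_apply _ _ _).symm
  have h6 : lamC i H ιA xA a σ p hcomp = (CU H ιA xA a p).topIso.hom.hom.comp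
      (gam (χ ≫ Spec.map (CommRingCat.ofHom (algebraMap (Lam i H) (RH i H))))).hom := by
    rw [← h5]
    ext z
    have := congrArg (fun f => f.hom (lamC i H ιA xA a σ p hcomp z)) (CU H ιA xA a p).topIso.inv_hom_id
    exact this.symm
  rw [h6]
  exact RingHom.Finite.comp (RingHom.Finite.of_surjective _
      (CU H ιA xA a p).topIso.commRingCatIsoToRingEquiv.surjective) h4
end
end H45.CH0
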