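import Mathlib
import Pool.Agent.H45.CH0Fin
set_option autoImplicit false
namespace H45.CH0
open AlgebraicGeometry CategoryTheory CategoryTheory.Limits Polynomial

section
variable {F : Type} [Field F] {A : CommRingCat.{0}} (xA tA : A) {W : Scheme.{0}} (a : W ⟶ Spec A)
  (σ : W ⟶ Spec (.of F))

/-- contribution of a point -/
noncomputable def NN (w : W) : F := by
  classical
  exact if ev a w tA = 0 then nrm σ w (ev a w xA) else 1

lemma NN_of_zero (w : W) (h : ev a w tA = 0) : NN xA tA a σ w = nrm σ w (ev a w xA) := by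
  unfold NN; rw [if_pos h]

lemma NN_of_ne (w : W) (h : ev a w tA ≠ 0) : NN xA tA a σ w = 1 := by
  unfold NN; rw [if_neg h]

lemma NN_ne_zero (hx : IsUnit xA) (w : W) : NN xA tA a σ w ≠ 0 := by
  by_cases h : ev a w tA = 0
  · rw [NN_of_zero xA tA a σ w h]
    exact nrm_ne_zero σ w _ (hx.map (ev a w)).ne_zero
  · rw [NN_of_ne xA tA a σ w h]
    exact one_ne_zero

/-- the contribution of a point where the function is a constant is a square -/
lemma isSquare_nrm_const (i : ℂ →+* F) (w : W) (c : ℂ) : IsSquare (nrm σ w (ev σ w (i c))) := by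
  obtain ⟨b, hb⟩ := isSquare_i i c
  rw [hb, map_mul, nrm_mul]
  exact ⟨_, rfl⟩

/-- at a root of a complex polynomial -/
lemma isSquare_nrm_root (i : ℂ →+* F) (H : ℂ[X]) (hH : H ≠ 0) (w : W) (z : W.residueField w)
    (hz : H.eval₂ ((ev σ w).comp i) z = 0) : IsSquare (nrm σ w z) := by
  have hs : H.Splits := IsAlgClosed.splits H
  obtain ⟨m, hm⟩ := splits_iff_exists_multiset.mp hs
  have h1 : (H.map ((ev σ w).comp i)).eval z = 0 := by rwa [Polynomial.eval_map]
  rw [hm, Polynomial.map_mul, Polynomial.map_C, Polynomial.map_multiset_prod, Polynomial.eval_mul,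
    Polynomial.eval_C, Polynomial.eval_multiset_prod, mul_eq_zero] at h1
  rcases h1 with h1 | h1
  · exfalso
    exact hH (leadingCoeff_eq_zero.mp ((map_eq_zero _).mp h1))
  · rw [Multiset.prod_eq_zero_iff, Multiset.map_map, Multiset.map_map, Multiset.mem_map] at h1
    obtain ⟨c, _, hc⟩ := h1
    simp only [Function.comp_apply, Polynomial.map_sub, Polynomial.map_X, Polynomial.map_C,
      Polynomial.eval_sub, Polynomial.eval_X, Polynomial.eval_C] at hc
    have h2 : z = ev σ w (i c) := sub_eq_zero.mp hc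
    rw [h2]
    exact isSquare_nrm_const σ i w c
end

section
variable {F : Type} [Field F] (i : ℂ →+* F) (H : ℂ[X]) (hH : H ≠ 0) (hXH : (X : ℂ[X]) ∣ H)
variable {A : CommRingCat.{0}} (ιA : ℂ →+* A) (xA yA tA rA : A)
variable {W C : Scheme.{0}} (a : W ⟶ Spec A) (σ : W ⟶ Spec (.of F))
  (p : C ⟶ W)
variable (hcomp : ∀ c : ℂ, (gam σ).hom (i c) = (gam a).hom (ιA c))
  (hy : yA ^ 2 = xA ^ 3 - xA)
variable (β : Spec (.of (RH i H)) ⟶ W) (θ : A →+* RH i H) (hβa : β ≫ a = Spec.map (CommRingCat.ofHom θ))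
  (hβσ : β ≫ σ = Spec.map (CommRingCat.ofHom (algebraMap F (RH i H))))
  (hmono : ∀ (T : Scheme.{0}) (u v : T ⟶ W), u ≫ a = v ≫ a → u ≫ σ = v ≫ σ → u = v)
  (hθι : ∀ c : ℂ, θ (ιA c) = algebraMap F (RH i H) (i c))
  (hθx : θ xA = algebraMap _ _ (lx i H)) (hθy : θ yA = qw _) (hθt : θ tA = 0) (hθr : θ rA = 0)
  (hA : ∀ (T : Type) (_ : CommRing T) (u v : A →+* T), (∀ c, u (ιA c) = v (ιA c)) → u xA = v xA →
    u yA = v yA → u tA = v tA → u rA = v rA → u = v)
  (hpt : (gam (p ≫ a)).hom tA = 0) (hpr : (gam (p ≫ a)).hom rA = 0)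

include hH hXH hβa hβσ hmono hθι hθx hθy hθt hθr hA hpt hpr hcomp hy in
/-- reciprocity for curves contained in the double curve -/
theorem isSquare_case2 [IsIntegral C] [IsFinite p] [LocallyOfFiniteType σ] (hxu : IsUnit xA)
    (hdvr : ∀ c : C, IsClosed ({c} : Set C) → IsDiscreteValuationRing (C.presheaf.stalk c))
    (g : C.functionField) (hg : g ≠ 0) (d : C →₀ ℤ) (hd : IsDiv C g d) :
    IsSquare (thetaC (NN xA tA a σ) (push p d)) := by
  classical
  have hjW : JacobsonSpace W := LocallyOfFiniteType.jacobsonSpace σ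
  let M : C → F := fun c => nrm (p ≫ σ) c (ev (p ≫ a) c xA)
  have hM : ∀ c ∈ d.support, (NN xA tA a σ (p c)) ^ (p.residueDegree c) = M c := by
    intro c hc
    have hcl := hd.isZeroCycle c hc
    have h1 : ev a (p c) tA = 0 := by
      have h2 : ev (p ≫ a) c tA = 0 := by
        rw [ev_eq_evaluation, hpt, map_zero]
      rw [ev_comp] at h2
      exact (map_eq_zero _).mp h2
    have hcl' : IsClosed ({p c} : Set W) := by
      have := p.isClosedMap _ hcl
      rwa [Set.image_singleton] at this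
    rw [NN_of_zero xA tA a σ _ h1, nrm_tower σ p c _ (finite_of_isClosed σ _ hcl') (finite_of_isClosed (p ≫ σ) _ hcl),
      ← ev_comp]
  rw [thetaC_push _ (NN_ne_zero xA tA a σ hxu), Finset.prod_congr rfl (fun c hc => by rw [hM c hc])]
  rw [← Finset.prod_filter_mul_prod_filter_not d.support (fun c => c ∈ CU H ιA xA a p)]
  apply IsSquare.mul
  · by_cases hne : Nonempty (CU H ιA xA a p)
    · obtain ⟨haff, hfin⟩ := lamC_finite i H ιA xA yA tA rA a σ p hcomp hy β θ hβa hβσ hmono hθι hθx hθy hθt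
        hθr hA hpt hpr
      refine curve_reciprocity i H hH hXH (p ≫ σ) haff (lamC i H ιA xA a σ p hcomp) hfin ?_ hdvr g hg d hd hne
        (resU (CU H ιA xA a p) ((gam (p ≫ a)).hom yA)) ?_ M ?_ ?_ _ ?_
      · intro c hc z
        unfold lamC
        rw [lamLift_F, ev_eq_evaluation]
        exact evaluation_resU _ c hc _
      · unfold lamC
        rw [map_sub, map_pow, lamLift_x, ← map_pow, ← map_pow, hy]
        simp
      · intro c hc
        unfold lamC
        rw [lamLift_x]
        simp only [M]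
        rw [evaluation_resU _ c hc, ev_eq_evaluation]
      · intro c
        exact nrm_ne_zero _ _ _ (hxu.map (ev (p ≫ a) c)).ne_zero
      · intro c
        rw [Finset.mem_filter]
    · have : d.support.filter (fun c => c ∈ CU H ιA xA a p) = ∅ := by
        rw [Finset.filter_eq_empty_iff]
        intro c _ hc
        exact hne ⟨c, hc⟩
      rw [this, Finset.prod_empty]
      exact IsSquare.one
  · apply Finset.isSquare_prod
    intro c hc
    rw [Finset.mem_filter] at hc
    apply IsSquare.zpow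
    apply isSquare_nrm_root (p ≫ σ) i H hH
    have h1 : ev (p ≫ a) c (H.eval₂ ιA xA) = 0 := by
      rw [ev_eq_evaluation]
      exact (Scheme.evaluation_eq_zero_iff_notMem_basicOpen C (U := ⊤) c trivial _).mpr hc.2
    rw [Polynomial.hom_eval₂] at h1
    rw [← h1]
    congr 1
    ext z
    change ev (p ≫ σ) c (i z) = ev (p ≫ a) c (ιA z)
    rw [ev_eq_evaluation, ev_eq_evaluation, gam_hcomp i ιA a σ hcomp]
end
end H45.CH0
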