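import Mathlib
import Pool.Agent.H45.CH0Surf
set_option autoImplicit false
namespace H45.CH0
open Polynomial

/-- restriction of functions to the double curve -/
noncomputable def πE : AX →+* EE := qLift (evalRingHom 0) 0 (by
  change (0 : EE) ^ 2 = evalRingHom 0 (C xE * X ^ 2 * (X + 1))
  simp)

lemma πE_x : πE xA = xE := by
  unfold πE xA
  rw [qLift_C]; simp

lemma πE_y : πE yA = yE := by
  unfold πE yA
  rw [qLift_C]; simp

lemma πE_t : πE tA = 0 := by
  unfold πE tA
  rw [qLift_C]; simp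

lemma πE_r : πE rA = 0 := by
  unfold πE rA
  rw [qLift_qw]

lemma πE_alg (c : ℂ) : πE (algebraMap ℂ AX c) = algebraMap ℂ EE c := by
  have h1 : algebraMap ℂ AX c = algebraMap EE[X] AX (C (algebraMap ℂ EE c)) := rfl
  rw [h1]
  unfold πE
  rw [qLift_C]; simp

lemma ker_πE (f : AX) (hf : πE f = 0) : ∃ a b : AX, f = a * tA + b * rA := by
  have h1 : πE f = f.re.eval 0 := by
    unfold πE
    rw [qLift_apply]; simp
  rw [h1] at hf
  have h2 : (X : EE[X]) ∣ f.re := by
    rw [X_dvd_iff, coeff_zero_eq_eval_zero]; exact hf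
  obtain ⟨g, hg⟩ := h2
  refine ⟨algebraMap EE[X] AX g, algebraMap EE[X] AX f.im, ?_⟩
  unfold tA rA
  rw [← map_mul, mul_comm g, ← hg]
  exact q_eta f

section
variable {T : Type} [CommRing T] (j : ℂ →+* T) (x y : T) (hy : y ^ 2 = x ^ 3 - x) (hu : IsUnit (x ^ 3 - x))

/-- construction of ring homomorphisms -/
noncomputable def p0Lift : P0 →+* T :=
  IsLocalization.Away.lift (S := P0) (X ^ 3 - X : ℂ[X]) (g := eval₂RingHom j x) (by simpa using hu)

@[simp] lemma p0Lift_x : p0Lift j x hu xP = x := by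
  unfold p0Lift xP
  rw [IsLocalization.Away.lift_eq]; simp

@[simp] lemma p0Lift_C (a : ℂ) : p0Lift j x hu (algebraMap ℂ _ a) = j a := by
  unfold p0Lift
  rw [IsScalarTower.algebraMap_apply ℂ ℂ[X] P0, IsLocalization.Away.lift_eq]; simp

/-- construction of ring homomorphisms -/
noncomputable def eeLift : EE →+* T :=
  qLift (p0Lift j x hu) y (by rw [map_sub, map_pow, p0Lift_x, hy])

@[simp] lemma eeLift_x : eeLift j x y hy hu xE = x := by
  unfold eeLift xE
  rw [qLift_C, p0Lift_x]

@[simp] lemma eeLift_y : eeLift j x y hy hu yE = y := by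
  unfold eeLift yE
  rw [qLift_qw]

@[simp] lemma eeLift_C (a : ℂ) : eeLift j x y hy hu (algebraMap ℂ _ a) = j a := by
  unfold eeLift
  rw [IsScalarTower.algebraMap_apply ℂ P0 EE, qLift_C, p0Lift_C]
end

/-- a non-zero function on the curve divides a non-zero polynomial in `x` -/
lemma exists_H (e : EE) (he : e ≠ 0) :
    ∃ H : ℂ[X], H ≠ 0 ∧ (X ^ 3 - X) ∣ H ∧ e ∣ H.eval₂ (algebraMap ℂ EE) xE := by
  have hinj : Function.Injective (algebraMap ℂ[X] P0) :=
    IsLocalization.injective P0 (powers_le_nonZeroDivisors_of_noZeroDivisors X3_ne)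
  have hn : QuadraticAlgebra.norm e ≠ 0 := by
    intro h0
    have h2 := QuadraticAlgebra.algebraMap_norm_eq_mul_star e
    rw [h0, map_zero] at h2
    rcases mul_eq_zero.mp h2.symm with h3 | h3
    · exact he h3
    · exact he (star_eq_zero.mp h3)
  obtain ⟨H0, m, hm⟩ := IsLocalization.exists_mk'_eq (Submonoid.powers (X ^ 3 - X : ℂ[X])) (QuadraticAlgebra.norm e)
  have h1 : algebraMap ℂ[X] P0 H0 = algebraMap ℂ[X] P0 m * QuadraticAlgebra.norm e := by
    rw [← hm, IsLocalization.mk'_spec']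
  have hH0 : H0 ≠ 0 := by
    intro h
    rw [h, map_zero] at h1
    rcases mul_eq_zero.mp h1.symm with h2 | h2
    · have : (m : ℂ[X]) = 0 := hinj (by rw [h2, map_zero])
      exact nonZeroDivisors.ne_zero ((powers_le_nonZeroDivisors_of_noZeroDivisors X3_ne) m.2) this
    · exact hn h2
  refine ⟨H0 * (X ^ 3 - X), mul_ne_zero hH0 X3_ne, Dvd.intro_left _ rfl, ?_⟩
  have h2 : ∀ p : ℂ[X], p.eval₂ (algebraMap ℂ EE) xE = algebraMap P0 EE (algebraMap ℂ[X] P0 p) := by
    intro p
    have : (eval₂RingHom (algebraMap ℂ EE) xE) = (algebraMap P0 EE).comp (algebraMap ℂ[X] P0) := by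
      apply Polynomial.ringHom_ext
      · intro a; simp; rfl
      · simp; rfl
    exact congrArg (fun f => f p) this
  rw [h2, map_mul, map_mul, h1, map_mul, QuadraticAlgebra.algebraMap_norm_eq_mul_star]
  exact ⟨algebraMap P0 EE (algebraMap ℂ[X] P0 m) * star e * algebraMap P0 EE (algebraMap ℂ[X] P0 (X ^ 3 - X)),
    by ring⟩

section
variable {F : Type} [Field F] (i : ℂ →+* F) (H : ℂ[X]) (hXH : (X ^ 3 - X : ℂ[X]) ∣ H)

include hXH in
lemma isUnit_lx : IsUnit ((lx i H) ^ 3 - lx i H) := by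
  have h1 : IsUnit (algebraMap F[X] (Lam i H) (H.map i)) := IsLocalization.Away.algebraMap_isUnit _
  have hd : ((X ^ 3 - X : ℂ[X]).map i) ∣ H.map i := Polynomial.map_dvd i hXH
  have h2 := isUnit_of_dvd_unit (map_dvd (algebraMap F[X] (Lam i H)) hd) h1
  unfold lx
  simpa using h2

/-- the map to the affine chart of the double curve over `F` -/
noncomputable def θE : EE →+* RH i H :=
  eeLift ((algebraMap F (RH i H)).comp i) (algebraMap (Lam i H) (RH i H) (lx i H)) (qw _)
    (by rw [qw_sq, map_sub, map_pow])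
    (by
      have := (isUnit_lx i H hXH).map (algebraMap (Lam i H) (RH i H))
      rwa [map_sub, map_pow] at this)

end

end H45.CH0
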