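import Mathlib
import Pool.Agent.H45.CH0Maps
import Pool.Agent.H45.CH0Case2
import Pool.Agent.H45.CH0Smooth
set_option autoImplicit false
namespace H45.CH0
open Polynomial AlgebraicGeometry CategoryTheory CategoryTheory.Limits

/-- the surface `X` -/
noncomputable abbrev XX : Scheme.{0} := Spec (.of AX)
/-- its structure morphism -/
noncomputable abbrev sX : XX ⟶ Spec (.of ℂ) := Spec.map (CommRingCat.ofHom (algebraMap ℂ AX))

section
variable (V : XX.Opens) (f0 : AX) (hle : ∀ z : XX, f0 ∉ z.asIdeal → z ∈ V)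
variable {F : Type} [Field F] (i : ℂ →+* F)

/-- `V_F` -/
noncomputable abbrev WW : Scheme.{0} := pullback (V.ι ≫ sX) (Spec.map (CommRingCat.ofHom i))
/-- the map from `V_F` to `X` -/
noncomputable abbrev aa : WW V i ⟶ Spec (.of AX) := pullback.fst _ _ ≫ V.ι
/-- the map from `V_F` to `Spec F` -/
noncomputable abbrev ss : WW V i ⟶ Spec (.of F) := pullback.snd _ _

lemma ww_comp (c : ℂ) : (gam (ss V i)).hom (i c) = (gam (aa V i)).hom (algebraMap ℂ AX c) := by
  have h1 : ss V i ≫ Spec.map (CommRingCat.ofHom i) = aa V i ≫ sX := by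
    rw [Category.assoc]
    exact pullback.condition.symm
  have h2 := congrArg (fun f => (gam f).hom c) h1
  simp only [gam_spec] at h2
  exact h2

lemma ww_mono (T : Scheme.{0}) (u v : T ⟶ WW V i) (h1 : u ≫ aa V i = v ≫ aa V i)
    (h2 : u ≫ ss V i = v ≫ ss V i) : u = v := by
  apply pullback.hom_ext
  · rw [← cancel_mono V.ι, Category.assoc, Category.assoc]
    exact h1
  · exact h2

include hle in
lemma exists_ww_lift {T : Type} [CommRing T] (θ : AX →+* T) (jF : F →+* T) (hu : IsUnit (θ f0))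
    (hc : ∀ c : ℂ, θ (algebraMap ℂ AX c) = jF (i c)) :
    ∃ β : Spec (.of T) ⟶ WW V i, β ≫ aa V i = Spec.map (CommRingCat.ofHom θ) ∧
      β ≫ ss V i = Spec.map (CommRingCat.ofHom jF) := by
  have hrange : Set.range (Spec.map (CommRingCat.ofHom θ)) ⊆ Set.range V.ι := by
    rintro _ ⟨z, rfl⟩
    rw [Scheme.Opens.range_ι]
    apply hle
    intro h
    have h1 : θ f0 ∈ z.asIdeal := h
    exact z.isPrime.ne_top (Ideal.eq_top_of_isUnit_mem _ h1 hu)
  have hfac := IsOpenImmersion.lift_fac V.ι (Spec.map (CommRingCat.ofHom θ)) hrange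
  refine ⟨pullback.lift (IsOpenImmersion.lift V.ι (Spec.map (CommRingCat.ofHom θ)) hrange)
    (Spec.map (CommRingCat.ofHom jF)) ?_, ?_, ?_⟩
  · rw [← Category.assoc, hfac, ← Spec.map_comp, ← Spec.map_comp, ← CommRingCat.ofHom_comp,
      ← CommRingCat.ofHom_comp]
    congr 2
    ext c
    exact hc c
  · rw [pullback.lift_fst_assoc, hfac]
  · rw [pullback.lift_snd]

end

lemma exists_f0 (V : XX.Opens) (x0 : XX) (hx : x0 ∈ V) :
    ∃ f0 : AX, f0 ∉ x0.asIdeal ∧ ∀ z : XX, f0 ∉ z.asIdeal → z ∈ V := by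
  obtain ⟨_, ⟨f0, rfl⟩, hx0, hle⟩ :=
    PrimeSpectrum.isTopologicalBasis_basic_opens.exists_subset_of_mem_open (a := x0) (u := (V : Set XX)) hx V.isOpen
  exact ⟨f0, hx0, fun z hz => hle hz⟩

lemma πE_ne_zero (x0 : XX) (ht : tA ∈ x0.asIdeal) (hr : rA ∈ x0.asIdeal) (f0 : AX) (hf : f0 ∉ x0.asIdeal) :
    πE f0 ≠ 0 := by
  intro h
  obtain ⟨a, b, hab⟩ := ker_πE f0 h
  apply hf
  rw [hab]
  exact x0.asIdeal.add_mem (x0.asIdeal.mul_mem_left _ ht) (x0.asIdeal.mul_mem_left _ hr)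

end H45.CH0
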