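import Mathlib
import Pool.Agent.H45.CH0Neg0
import Pool.Agent.H45.CH0Sect
import Pool.Agent.H45.CH0Dense
set_option autoImplicit false
namespace H45.CH0
open Polynomial AlgebraicGeometry CategoryTheory CategoryTheory.Limits

section
variable {F : Type} [Field F] (i : ℂ →+* F) (H : ℂ[X]) (hXH : (X ^ 3 - X : ℂ[X]) ∣ H)

lemma θE_alg (c : ℂ) : θE i H hXH (algebraMap ℂ EE c) = algebraMap F (RH i H) (i c) := by
  unfold θE
  rw [eeLift_C]
  rfl

lemma θE_x : θE i H hXH xE = algebraMap (Lam i H) (RH i H) (lx i H) := by
  unfold θE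
  rw [eeLift_x]

lemma θE_y : θE i H hXH yE = qw _ := by
  unfold θE
  rw [eeLift_y]

lemma isUnit_θE_H : IsUnit (θE i H hXH (H.eval₂ (algebraMap ℂ EE) xE)) := by
  have h1 : IsUnit (algebraMap F[X] (Lam i H) (H.map i)) := IsLocalization.Away.algebraMap_isUnit _
  have h2 := h1.map (algebraMap (Lam i H) (RH i H))
  have h3 : θE i H hXH (H.eval₂ (algebraMap ℂ EE) xE) =
      algebraMap (Lam i H) (RH i H) (algebraMap F[X] (Lam i H) (H.map i)) := by
    rw [Polynomial.hom_eval₂]
    have h4 : ((algebraMap (Lam i H) (RH i H)).comp (algebraMap F[X] (Lam i H))).comp (mapRingHom i) =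
      eval₂RingHom ((θE i H hXH).comp (algebraMap ℂ EE)) (θE i H hXH xE) := by
      apply Polynomial.ringHom_ext
      · intro a
        simp only [RingHom.comp_apply, coe_mapRingHom, Polynomial.map_C, coe_eval₂RingHom, eval₂_C]
        rw [θE_alg]
        rfl
      · simp only [RingHom.comp_apply, coe_mapRingHom, Polynomial.map_X, coe_eval₂RingHom, eval₂_X]
        rw [θE_x]
        rfl
    exact (congrArg (fun f => f H) h4).symm
  rw [h3]
  exact h2

end

instance : Algebra.FiniteType ℂ P0 := by
  have h : Algebra.FiniteType ℂ[X] P0 := IsLocalization.finiteType_of_monoid_fg (Submonoid.powers (X ^ 3 - X : ℂ[X])) P0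
  exact Algebra.FiniteType.trans (S := ℂ[X]) inferInstance h

lemma q_finite {R : Type*} [CommRing R] (a : R) : Module.Finite R (QuadraticAlgebra R a 0) := by
  infer_instance

instance : Algebra.FiniteType ℂ EE := by
  have h := q_finite (xP ^ 3 - xP)
  have h2 : Algebra.FiniteType P0 EE := inferInstance
  exact Algebra.FiniteType.trans (S := P0) inferInstance h2

instance : Algebra.FiniteType ℂ EE[X] :=
  Algebra.FiniteType.trans (S := EE) inferInstance inferInstance

instance : Algebra.FiniteType ℂ AX := by
  have h := q_finite aX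
  have h2 : Algebra.FiniteType EE[X] AX := inferInstance
  exact Algebra.FiniteType.trans (S := EE[X]) inferInstance h2

instance : Algebra.FiniteType ℂ AY := by
  have h := q_finite xA
  have h2 : Algebra.FiniteType AX AY := inferInstance
  exact Algebra.FiniteType.trans (S := AX) inferInstance h2

end H45.CH0
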