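import Mathlib
import Pool.Agent.H45.CH0Lift
import Pool.Agent.H45.CH0All
import Pool.Agent.H45.CH0Neg1
set_option autoImplicit false
namespace H45.CH0
open AlgebraicGeometry CategoryTheory CategoryTheory.Limits Polynomial

/-- the surface `Y` -/
noncomputable abbrev YY : Scheme.{0} := Spec (.of AY)
/-- its structure morphism -/
noncomputable abbrev sY : YY ⟶ Spec (.of ℂ) := Spec.map (CommRingCat.ofHom (algebraMap ℂ AY))
/-- the open subset `Y` of `Y` -/
noncomputable abbrev VY : YY.Opens := ⊤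

instance isIso_VY : IsIso VY.ι := inferInstanceAs (IsIso (Scheme.topIso YY).hom)

/-- the resolution of `Y` -/
noncomputable def fY : Spec (.of Q1) ⟶ VY.toScheme := Spec.map (CommRingCat.ofHom φY) ≫ inv VY.ι

lemma fY_ι : fY ≫ VY.ι = Spec.map (CommRingCat.ofHom φY) := by
  unfold fY
  rw [Category.assoc, IsIso.inv_hom_id, Category.comp_id]

lemma fY_s : fY ≫ VY.ι ≫ sY = Spec.map (CommRingCat.ofHom (algebraMap ℂ Q1)) := by
  have h : φY.comp (algebraMap ℂ AY) = algebraMap ℂ Q1 := RingHom.ext φY_alg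
  rw [← Category.assoc, fY_ι, ← Spec.map_comp, ← CommRingCat.ofHom_comp, h]

instance locallyOfFiniteType_sY : LocallyOfFiniteType sY := by
  rw [HasRingHomProperty.Spec_iff (P := @LocallyOfFiniteType)]
  change (algebraMap ℂ AY).FiniteType
  rw [RingHom.finiteType_algebraMap]
  infer_instance

section
variable {F : Type} [Field F] (i : ℂ →+* F)

/-- `Y_F` -/
noncomputable abbrev WY : Scheme.{0} := pullback (VY.ι ≫ sY) (Spec.map (CommRingCat.ofHom i))
/-- the map from `Y_F` to `Y` -/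
noncomputable abbrev aaY : WY i ⟶ Spec (.of AY) := pullback.fst _ _ ≫ VY.ι
/-- the map from `Y_F` to `Spec F` -/
noncomputable abbrev ssY : WY i ⟶ Spec (.of F) := pullback.snd _ _

lemma wy_cond : ssY i ≫ Spec.map (CommRingCat.ofHom i) = aaY i ≫ sY := by
  rw [Category.assoc]
  exact pullback.condition.symm

lemma comp_of_cond {A : CommRingCat.{0}} (ιA : ℂ →+* A) {W : Scheme.{0}} (a : W ⟶ Spec A) (σ : W ⟶ Spec (.of F))
    (h : σ ≫ Spec.map (CommRingCat.ofHom i) = a ≫ Spec.map (CommRingCat.ofHom ιA)) (c : ℂ) :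
    (gam σ).hom (i c) = (gam a).hom (ιA c) := by
  have h2 := congrArg (fun f => (gam f).hom c) h
  simp only [gam_spec] at h2
  exact h2

lemma wy_mono (T : Scheme.{0}) (u v : T ⟶ WY i) (h1 : u ≫ aaY i = v ≫ aaY i)
    (h2 : u ≫ ssY i = v ≫ ssY i) : u = v := by
  apply pullback.hom_ext
  · rw [← cancel_mono VY.ι, Category.assoc, Category.assoc]
    exact h1
  · exact h2

lemma wy_lift (T : Type) (_ : CommRing T) (θ : AY →+* T) (jF : F →+* T)
    (hc : ∀ c : ℂ, θ (algebraMap ℂ AY c) = jF (i c)) :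
    ∃ β : Spec (.of T) ⟶ WY i, β ≫ aaY i = Spec.map (CommRingCat.ofHom θ) ∧
      β ≫ ssY i = Spec.map (CommRingCat.ofHom jF) := by
  refine ⟨pullback.lift (Spec.map (CommRingCat.ofHom θ) ≫ inv VY.ι) (Spec.map (CommRingCat.ofHom jF)) ?_, ?_, ?_⟩
  · rw [Category.assoc, IsIso.inv_hom_id_assoc, ← Spec.map_comp, ← Spec.map_comp, ← CommRingCat.ofHom_comp,
      ← CommRingCat.ofHom_comp]
    congr 2
    ext c
    exact hc c
  · rw [pullback.lift_fst_assoc, Category.assoc, IsIso.inv_hom_id, Category.comp_id]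
  · rw [pullback.lift_snd]

instance : LocallyOfFiniteType (ssY i) := by
  exact inferInstanceAs (LocallyOfFiniteType (pullback.snd (VY.ι ≫ sY) (Spec.map (CommRingCat.ofHom i))))

instance : IsSeparated (ssY i) := by
  exact inferInstanceAs (IsSeparated (pullback.snd (VY.ι ≫ sY) (Spec.map (CommRingCat.ofHom i))))

/-- all zero-cycles on `Y_F` are trivial -/
lemma wy_all (z : WY i →₀ ℤ) (hz : IsZeroCycle z) : z ∈ Rat (WY i) :=
  all_mem_Rat (A := .of AY) i (algebraMap ℂ AY) (toAY tA) (aaY i) (ssY i)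
    (comp_of_cond (A := .of AY) i (algebraMap ℂ AY) (aaY i) (ssY i) (wy_cond i)) (wy_mono i) (wy_lift i) hline_AY z hz

/-- the base change of the resolution -/
noncomputable abbrev WQ : Scheme.{0} := pullback fY (pullback.fst (VY.ι ≫ sY) (Spec.map (CommRingCat.ofHom i)))
/-- the map to the resolution -/
noncomputable abbrev aaQ : WQ i ⟶ Spec (.of Q1) := pullback.fst _ _
/-- the map to `Y_F` -/
noncomputable abbrev qqQ : WQ i ⟶ WY i := pullback.snd _ _

lemma wq_cond : (qqQ i ≫ ssY i) ≫ Spec.map (CommRingCat.ofHom i) = aaQ i ≫ Spec.map (CommRingCat.ofHom (algebraMap ℂ Q1)) := by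
  rw [Category.assoc, wy_cond, ← fY_s]
  have h : qqQ i ≫ pullback.fst (VY.ι ≫ sY) (Spec.map (CommRingCat.ofHom i)) = aaQ i ≫ fY := pullback.condition.symm
  rw [← Category.assoc (qqQ i), ← Category.assoc (qqQ i), h]
  simp only [Category.assoc]

lemma wq_mono (T : Scheme.{0}) (u v : T ⟶ WQ i) (h1 : u ≫ aaQ i = v ≫ aaQ i)
    (h2 : u ≫ (qqQ i ≫ ssY i) = v ≫ (qqQ i ≫ ssY i)) : u = v := by
  have h : qqQ i ≫ pullback.fst (VY.ι ≫ sY) (Spec.map (CommRingCat.ofHom i)) = aaQ i ≫ fY := pullback.condition.symm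
  apply pullback.hom_ext
  · exact h1
  · apply pullback.hom_ext
    · rw [Category.assoc, Category.assoc, h, ← Category.assoc, h1, Category.assoc]
    · rw [Category.assoc, Category.assoc]
      exact h2

lemma wq_lift (T : Type) (_ : CommRing T) (θ : Q1 →+* T) (jF : F →+* T)
    (hc : ∀ c : ℂ, θ (algebraMap ℂ Q1 c) = jF (i c)) :
    ∃ β : Spec (.of T) ⟶ WQ i, β ≫ aaQ i = Spec.map (CommRingCat.ofHom θ) ∧
      β ≫ (qqQ i ≫ ssY i) = Spec.map (CommRingCat.ofHom jF) := by
  refine ⟨pullback.lift (Spec.map (CommRingCat.ofHom θ))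
    (pullback.lift (Spec.map (CommRingCat.ofHom θ) ≫ fY) (Spec.map (CommRingCat.ofHom jF)) ?_) ?_, ?_, ?_⟩
  · rw [Category.assoc, fY_s, ← Spec.map_comp, ← Spec.map_comp, ← CommRingCat.ofHom_comp,
      ← CommRingCat.ofHom_comp]
    congr 2
    ext c
    exact hc c
  · rw [pullback.lift_fst]
  · rw [pullback.lift_fst]
  · rw [pullback.lift_snd_assoc, pullback.lift_snd]

end
end H45.CH0
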