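import Mathlib
import Pool.Agent.H45.CH0Quad
set_option autoImplicit false
namespace H45.CH0
open Polynomial

/-- adjoining a square root of a unit is etale if two is invertible -/
lemma etale_quad {R : Type} [CommRing R] (a : R) (ha : IsUnit a) (h2 : IsUnit (2 : R)) :
    Algebra.Etale R (QuadraticAlgebra R a 0) := by
  obtain ⟨b, hb⟩ := ha.exists_right_inv
  obtain ⟨h, hh⟩ := h2.exists_right_inv
  let P : StandardEtalePair R :=
    { f := X ^ 2 - C a
      monic_f := monic_X_pow_sub_C a two_ne_zero
      g := 1
      cond := by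
        refine ⟨C (h * b) * X, - C b, 0, ?_⟩
        have h1 : (C 2 : R[X]) = 2 := map_ofNat C 2
        have h3 : (C a * C b : R[X]) = 1 := by rw [← C_mul, hb, C_1]
        have h4 : (2 * C h : R[X]) = 1 := by rw [← h1, ← C_mul, hh, C_1]
        simp only [derivative_sub, derivative_X_pow, derivative_C, sub_zero, pow_zero, C_mul]
        norm_num
        rw [h1]
        linear_combination (X ^ 2 * C b) * h4 + h3 }
  have hm : P.HasMap (qw a) := by
    refine ⟨?_, ?_⟩
    · change aeval (qw a) (X ^ 2 - C a) = 0
      rw [map_sub, map_pow, aeval_X, aeval_C, qw_sq, sub_self]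
    · change IsUnit (aeval (qw a) 1)
      rw [map_one]
      exact isUnit_one
  have hX : P.X ^ 2 = algebraMap R P.Ring a := by
    have h1 : aeval P.X (X ^ 2 - C a) = 0 := P.hasMap_X.1
    rw [map_sub, map_pow, aeval_X, aeval_C, sub_eq_zero] at h1
    exact h1
  let g : QuadraticAlgebra R a 0 →ₐ[R] P.Ring :=
    { qLift (algebraMap R P.Ring) P.X hX with
      commutes' := by
        intro r
        exact qLift_C _ _ _ r }
  have hgX : g (qw a) = P.X := qLift_qw (algebraMap R P.Ring) P.X hX
  let e : P.Ring ≃ₐ[R] QuadraticAlgebra R a 0 := AlgEquiv.ofAlgHom (P.lift (qw a) hm) g (by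
      apply AlgHom.coe_ringHom_injective
      apply q_hom_ext
      · intro c
        simp
      · change P.lift (qw a) hm (g (qw a)) = qw a
        rw [hgX, P.lift_X]) (by
      apply P.hom_ext
      change g (P.lift (qw a) hm P.X) = P.X
      rw [P.lift_X, hgX])
  exact Algebra.Etale.of_equiv e

end H45.CH0
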