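import Mathlib
import Pool.Agent.H45.CH0Etale
import Pool.Agent.H45.CH0Lift
import Pool.Agent.H45.CH0Neg1
set_option autoImplicit false
namespace H45.CH0
open Polynomial

lemma isUnit_two {R : Type*} [CommRing R] [Algebra ℂ R] : IsUnit (2 : R) := by
  have h : IsUnit (algebraMap ℂ R 2) := (IsUnit.mk0 (2 : ℂ) two_ne_zero).map _
  rwa [map_ofNat] at h

instance smooth_P0 : Algebra.Smooth ℂ P0 := by
  have h1 : Algebra.Smooth ℂ ℂ[X] := ⟨inferInstance, inferInstance⟩
  have h2 : Algebra.Etale ℂ[X] P0 := Algebra.Etale.of_isLocalizationAway (X ^ 3 - X : ℂ[X])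
  exact Algebra.Smooth.comp ℂ ℂ[X] P0

lemma isUnit_dP : IsUnit (xP ^ 3 - xP) := by
  have h1 : IsUnit (algebraMap ℂ[X] P0 (X ^ 3 - X)) := IsLocalization.Away.algebraMap_isUnit _
  rwa [map_sub, map_pow] at h1

instance smooth_EE : Algebra.Smooth ℂ EE := by
  have h1 : Algebra.Etale P0 EE := etale_quad (xP ^ 3 - xP) isUnit_dP isUnit_two
  exact Algebra.Smooth.comp ℂ P0 EE

instance smooth_EEX : Algebra.Smooth ℂ EE[X] := by
  have h1 : Algebra.Smooth EE EE[X] := ⟨inferInstance, inferInstance⟩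
  exact Algebra.Smooth.comp ℂ EE EE[X]

instance smooth_Q1 : Algebra.Smooth ℂ Q1 := by
  have h1 : Algebra.Etale EE[X] Q1 := etale_quad (C xE : EE[X]) (isUnit_xE.map C) isUnit_two
  exact Algebra.Smooth.comp ℂ EE[X] Q1

instance etale_AY : Algebra.Etale AX AY := etale_quad xA isUnit_xA isUnit_two

end H45.CH0
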