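import Mathlib
import Pool.Agent.H45.CH0Pos0
import Pool.Agent.H45.CH0Sm
set_option autoImplicit false
namespace H45.CH0
open AlgebraicGeometry CategoryTheory CategoryTheory.Limits Polynomial

lemma φY_finite : φY.Finite := by
  apply RingHom.IsIntegral.to_finite
  · have h1 : ∀ z : AY, φY.IsIntegralElem (φY z) := fun z => φY.isIntegralElem_map
    have h2 : φY.IsIntegralElem σ1 := by
      refine ⟨X ^ 2 - C (toAY tA + 1), monic_X_pow_sub_C _ two_ne_zero, ?_⟩
      rw [eval₂_sub, eval₂_pow, eval₂_X, eval₂_C, map_add, map_one, φY_toAY, φX_t]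
      ring
    have h3 : ∀ p : EE[X], φY.IsIntegralElem (algebraMap EE[X] Q1 p) := by
      intro p
      induction p using Polynomial.induction_on with
      | C a =>
        have : algebraMap EE[X] Q1 (C a) = φY (toAY (algebraMap EE[X] AX (C a))) := by rw [φY_toAY, φX_C]
        rw [this]
        exact h1 _
      | add p q hp hq => rw [map_add]; exact hp.add _ hq
      | monomial n a h =>
        have e : algebraMap EE[X] Q1 (C a * X ^ (n + 1)) = algebraMap EE[X] Q1 (C a * X ^ n) * σ1 := by
          unfold σ1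
          rw [← map_mul]
          congr 1
          ring
        rw [e]
        exact h.mul _ h2
    intro z
    rw [q_eta z]
    refine (h3 _).add _ ((h3 _).mul _ ?_)
    have : qw (C xE) = φY sA := by rw [φY_s]; rfl
    rw [this]
    exact h1 _
  · have h1 : (algebraMap ℂ Q1).FiniteType := by
      rw [RingHom.finiteType_algebraMap]
      have h : Algebra.FinitePresentation ℂ Q1 := (smooth_Q1).finitePresentation
      infer_instance
    have h2 : φY.comp (algebraMap ℂ AY) = algebraMap ℂ Q1 := RingHom.ext φY_alg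
    rw [← h2] at h1
    exact RingHom.FiniteType.of_comp_finiteType h1

lemma t_mul_mem (q : Q1) : ∃ a : AY, φY (toAY tA) * q = φY a := by
  obtain ⟨b, hb⟩ := isUnit_xA.exists_right_inv
  have hσ : ∃ a : AY, φY (toAY tA) * σ1 = φY a := by
    refine ⟨toAY (rA * b) * sA, ?_⟩
    have h1 : φX xA = s1 ^ 2 := by rw [s1_sq]; exact φX_C xE
    have h2 : φX xA * φX b = 1 := by rw [← map_mul, hb, map_one]
    rw [map_mul, φY_toAY, φY_toAY, φY_s, map_mul, φX_t, φX_r]
    rw [h1] at h2
    linear_combination (-(σ1 ^ 2 - 1) * σ1) * h2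
  have hσ2 : σ1 ^ 2 = φY (toAY tA + 1) := by
    rw [map_add, map_one, φY_toAY, φX_t]; ring
  have hpow : ∀ n : ℕ, (∃ a : AY, φY (toAY tA) * σ1 ^ n = φY a) ∧ (∃ a : AY, φY (toAY tA) * σ1 ^ (n + 1) = φY a) := by
    intro n
    induction n with
    | zero =>
      refine ⟨⟨toAY tA, by rw [pow_zero, mul_one]⟩, ?_⟩
      rw [zero_add, pow_one]
      exact hσ
    | succ n ih =>
      refine ⟨ih.2, ?_⟩
      obtain ⟨a, ha⟩ := ih.1
      refine ⟨a * (toAY tA + 1), ?_⟩
      rw [map_mul, ← ha, ← hσ2]
      ring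
  have hC : ∀ c : EE, algebraMap EE[X] Q1 (C c) = φY (toAY (algebraMap EE[X] AX (C c))) := by
    intro c
    rw [φY_toAY, φX_C]
  have hp : ∀ p : EE[X], ∃ a : AY, φY (toAY tA) * algebraMap EE[X] Q1 p = φY a := by
    intro p
    induction p using Polynomial.induction_on' with
    | add p q hp hq =>
      obtain ⟨a, ha⟩ := hp
      obtain ⟨b, hb⟩ := hq
      refine ⟨a + b, ?_⟩
      rw [map_add, map_add, mul_add, ha, hb]
    | monomial n c =>
      obtain ⟨a, ha⟩ := (hpow n).1
      refine ⟨toAY (algebraMap EE[X] AX (C c)) * a, ?_⟩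
      rw [← C_mul_X_pow_eq_monomial, map_mul, map_pow, map_mul, hC, ← ha]
      change φY (toAY tA) * (_ * σ1 ^ n) = _
      ring
  obtain ⟨a, ha⟩ := hp q.re
  obtain ⟨b, hb⟩ := hp q.im
  refine ⟨a + b * sA, ?_⟩
  rw [map_add, map_mul, φY_s, ← ha, ← hb]
  conv_lhs => rw [q_eta q]
  change _ * (_ + _ * s1) = _
  ring

lemma awayMap_bijective : Function.Bijective (Localization.awayMap φY (toAY tA)) := by
  refine ⟨?_, ?_⟩
  · rw [Localization.awayMap_injective_iff]
    intro a ha
    refine ⟨0, ?_⟩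
    have : a = 0 := φY_injective (by rw [ha, map_zero])
    rw [this, mul_zero]
  · rw [Localization.awayMap_surjective_iff]
    intro q
    obtain ⟨a, ha⟩ := t_mul_mem q
    exact ⟨a, 1, by rw [pow_one, ha]⟩

end H45.CH0
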