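import Mathlib
import Pool.Agent.H45.CH0Sm
set_option autoImplicit false
namespace H45.CH0
open Polynomial Topology

/-- The analytic germs at two complex points `p`, `q` of the affine varieties with (reduced, finitely
generated) coordinate rings `A` and `B` are isomorphic.  Generators `a` of `A` embed the variety in `ℂ ^ n`, as the
set of all points `j ↦ u (a j)`, where `u` runs over the homomorphisms of algebras from `A` to `ℂ`; likewise for `b`.
The germs are isomorphic if there are holomorphic maps `f`, `g` between neighbourhoods of the two points in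
the affine spaces that map the two varieties to each other near the points and are inverse to each other on the
varieties near the points. -/
def AnGermIso {A B : Type} [CommRing A] [CommRing B] [Algebra ℂ A] [Algebra ℂ B] (p : A →ₐ[ℂ] ℂ) (q : B →ₐ[ℂ] ℂ) :
    Prop :=
  ∃ (n m : ℕ) (a : Fin n → A) (b : Fin m → B) (f : (Fin n → ℂ) → (Fin m → ℂ)) (g : (Fin m → ℂ) → (Fin n → ℂ)),
    Algebra.adjoin ℂ (Set.range a) = ⊤ ∧ Algebra.adjoin ℂ (Set.range b) = ⊤ ∧
    AnalyticAt ℂ f (fun j => p (a j)) ∧ AnalyticAt ℂ g (fun j => q (b j)) ∧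
    f (fun j => p (a j)) = (fun j => q (b j)) ∧ g (fun j => q (b j)) = (fun j => p (a j)) ∧
    (∀ᶠ z in 𝓝 (fun j => p (a j)), (∃ u : A →ₐ[ℂ] ℂ, z = fun j => u (a j)) →
      (∃ v : B →ₐ[ℂ] ℂ, f z = fun j => v (b j)) ∧ g (f z) = z) ∧
    (∀ᶠ w in 𝓝 (fun j => q (b j)), (∃ v : B →ₐ[ℂ] ℂ, w = fun j => v (b j)) →
      (∃ u : A →ₐ[ℂ] ℂ, g w = fun j => u (a j)) ∧ f (g w) = w)

lemma exists_generators (A : Type) [CommRing A] [Algebra ℂ A] [h : Algebra.FiniteType ℂ A] :
    ∃ (n : ℕ) (a : Fin n → A), Algebra.adjoin ℂ (Set.range a) = ⊤ := by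
  obtain ⟨n, f, hf⟩ := Algebra.FiniteType.iff_quotient_mvPolynomial''.mp h
  refine ⟨n, fun j => f (MvPolynomial.X j), ?_⟩
  rw [Algebra.adjoin_range_eq_range_aeval]
  have : MvPolynomial.aeval (fun j => f (MvPolynomial.X j)) = f := by
    apply MvPolynomial.algHom_ext
    intro j
    simp
  rw [this]
  exact (AlgHom.range_eq_top f).mpr hf

/-- the local square root -/
noncomputable def sqr (s0 : ℂ) (z : ℂ) : ℂ := s0 * Complex.exp (Complex.log (z / s0 ^ 2) / 2)

lemma sqr_sq (s0 z : ℂ) (hs : s0 ≠ 0) (hz : z ≠ 0) : sqr s0 z ^ 2 = z := by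
  unfold sqr
  rw [mul_pow, ← Complex.exp_nat_mul]
  have : ((2 : ℕ) : ℂ) * (Complex.log (z / s0 ^ 2) / 2) = Complex.log (z / s0 ^ 2) := by
    push_cast; ring
  rw [this, Complex.exp_log (by positivity)]
  field_simp

lemma sqr_self (s0 : ℂ) (hs : s0 ≠ 0) : sqr s0 (s0 ^ 2) = s0 := by
  unfold sqr
  rw [div_self (pow_ne_zero 2 hs), Complex.log_one]
  simp

lemma sqr_analytic (s0 : ℂ) (hs : s0 ≠ 0) : AnalyticAt ℂ (sqr s0) (s0 ^ 2) := by
  unfold sqr
  refine analyticAt_const.mul (AnalyticAt.cexp ?_)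
  refine AnalyticAt.div ?_ analyticAt_const two_ne_zero
  refine AnalyticAt.clog ?_ ?_
  · exact analyticAt_id.div analyticAt_const (pow_ne_zero 2 hs)
  · rw [div_self (pow_ne_zero 2 hs)]
    exact Complex.one_mem_slitPlane

end H45.CH0
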