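import Mathlib
import Pool.Agent.H45.CH0Germ0
set_option autoImplicit false
namespace H45.CH0
open Polynomial Topology

section
variable {A : Type} [CommRing A] [Algebra ℂ A] (x : A)

/-- the structure map -/
noncomputable def incl : A →ₐ[ℂ] QuadraticAlgebra A x 0 :=
  { algebraMap A (QuadraticAlgebra A x 0) with
    commutes' := by
      intro r
      exact (IsScalarTower.algebraMap_apply ℂ A (QuadraticAlgebra A x 0) r).symm }

lemma incl_apply (z : A) : incl x z = algebraMap A (QuadraticAlgebra A x 0) z := rfl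

/-- points of the quadratic extension -/
noncomputable def qPoint (u : A →ₐ[ℂ] ℂ) (s : ℂ) (hs : s ^ 2 = u x) : QuadraticAlgebra A x 0 →ₐ[ℂ] ℂ :=
  { qLift (u : A →+* ℂ) s hs with
    commutes' := by
      intro r
      have h : algebraMap ℂ (QuadraticAlgebra A x 0) r = algebraMap A (QuadraticAlgebra A x 0) (algebraMap ℂ A r) :=
        IsScalarTower.algebraMap_apply ℂ A (QuadraticAlgebra A x 0) r
      rw [h]
      exact (qLift_C (u : A →+* ℂ) s hs (algebraMap ℂ A r)).trans (u.commutes r) }

lemma qPoint_incl (u : A →ₐ[ℂ] ℂ) (s : ℂ) (hs : s ^ 2 = u x) (z : A) : qPoint x u s hs (incl x z) = u z :=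
  qLift_C (u : A →+* ℂ) s hs z

lemma qPoint_qw (u : A →ₐ[ℂ] ℂ) (s : ℂ) (hs : s ^ 2 = u x) : qPoint x u s hs (qw x) = s :=
  qLift_qw (u : A →+* ℂ) s hs

/-- adjoining a square root of a unit does not change the analytic germ -/
lemma anGermIso_quad [Algebra.FiniteType ℂ A] (hx : IsUnit x) (q : QuadraticAlgebra A x 0 →ₐ[ℂ] ℂ) :
    AnGermIso (q.comp (incl x)) q := by
  obtain ⟨n, a', ha'⟩ := exists_generators A
  obtain ⟨s0, hs0⟩ : ∃ s0, s0 = q (qw x) := ⟨_, rfl⟩
  have hq : q (incl x x) = s0 ^ 2 := by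
    rw [hs0, ← map_pow, qw_sq]; rfl
  have hs : s0 ≠ 0 := by
    intro h
    have h1 : IsUnit (q (incl x x)) := (hx.map (incl x)).map q
    rw [hq, h] at h1
    simp at h1
  let a : Fin (n + 1) → A := Fin.cons x a'
  let b : Fin (n + 2) → QuadraticAlgebra A x 0 := Fin.cons (qw x) (fun j => incl x (a j))
  have ha : Algebra.adjoin ℂ (Set.range a) = ⊤ := by
    rw [eq_top_iff, ← ha']
    apply Algebra.adjoin_mono
    rintro _ ⟨j, rfl⟩
    exact ⟨j.succ, by simp [a]⟩
  have hb : Algebra.adjoin ℂ (Set.range b) = ⊤ := by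
    rw [eq_top_iff]
    have h1 : ∀ z : A, incl x z ∈ Algebra.adjoin ℂ (Set.range b) := by
      intro z
      have h2 : incl x z ∈ (Algebra.adjoin ℂ (Set.range a)).map (incl x) := ⟨z, by rw [ha]; trivial, rfl⟩
      rw [AlgHom.map_adjoin] at h2
      refine Algebra.adjoin_mono ?_ h2
      rintro _ ⟨_, ⟨j, rfl⟩, rfl⟩
      exact ⟨j.succ, by simp [b]⟩
    have h3 : qw x ∈ Algebra.adjoin ℂ (Set.range b) := Algebra.subset_adjoin ⟨0, by simp [b]⟩
    intro z _
    rw [q_eta z]
    exact add_mem (h1 _) (mul_mem (h1 _) h3)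
  refine ⟨n + 1, n + 2, a, b, fun z => Fin.cons (sqr s0 (z 0)) z, fun w => Fin.tail w, ha, hb, ?_, ?_, ?_, ?_, ?_, ?_⟩
  · rw [analyticAt_pi_iff]
    intro j
    refine Fin.cases ?_ ?_ j
    · simp only [Fin.cons_zero]
      have h1 : AnalyticAt ℂ (fun z : Fin (n + 1) → ℂ => z 0) (fun j => (q.comp (incl x)) (a j)) :=
        (ContinuousLinearMap.proj (R := ℂ) (φ := fun _ : Fin (n + 1) => ℂ) 0).analyticAt _
      have h2 : AnalyticAt ℂ (sqr s0) ((fun z : Fin (n + 1) → ℂ => z 0) (fun j => (q.comp (incl x)) (a j))) := by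
        have : (fun z : Fin (n + 1) → ℂ => z 0) (fun j => (q.comp (incl x)) (a j)) = s0 ^ 2 := by
          simp only [a, Fin.cons_zero, AlgHom.comp_apply]
          exact hq
        rw [this]
        exact sqr_analytic s0 hs
      exact AnalyticAt.comp (f := fun z : Fin (n + 1) → ℂ => z 0) h2 h1
    · intro j
      simp only [Fin.cons_succ]
      exact (ContinuousLinearMap.proj (R := ℂ) (φ := fun _ : Fin (n + 1) => ℂ) j).analyticAt _
  · rw [analyticAt_pi_iff]
    intro j
    exact (ContinuousLinearMap.proj (R := ℂ) (φ := fun _ : Fin (n + 2) => ℂ) j.succ).analyticAt _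
  · funext j
    refine Fin.cases ?_ ?_ j
    · simp only [Fin.cons_zero, a, b, AlgHom.comp_apply]
      rw [hq, sqr_self s0 hs, hs0]
    · intro j
      simp only [Fin.cons_succ, b, AlgHom.comp_apply]
  · funext j
    simp only [Fin.tail, b, Fin.cons_succ, AlgHom.comp_apply]
  · refine Filter.Eventually.of_forall ?_
    rintro z ⟨u, rfl⟩
    have hu : u (a 0) ≠ 0 := by
      simp only [a, Fin.cons_zero]
      exact (hx.map u).ne_zero
    refine ⟨⟨qPoint x u (sqr s0 (u (a 0))) ?_, ?_⟩, ?_⟩
    · rw [sqr_sq s0 _ hs hu]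
      simp [a]
    · funext j
      refine Fin.cases ?_ ?_ j
      · simp only [Fin.cons_zero, b]
        rw [qPoint_qw]
      · intro j
        simp only [Fin.cons_succ, b]
        rw [qPoint_incl]
    · funext j
      simp [Fin.tail]
  · have hc : ∀ᶠ w : Fin (n + 2) → ℂ in 𝓝 (fun j => q (b j)), w 0 + sqr s0 (w 1) ≠ 0 := by
      have h1 : ContinuousAt (fun w : Fin (n + 2) → ℂ => w 0 + sqr s0 (w 1)) (fun j => q (b j)) := by
        apply ContinuousAt.add
        · exact (continuous_apply 0).continuousAt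
        · have h2 : (fun w : Fin (n + 2) → ℂ => w 1) (fun j => q (b j)) = s0 ^ 2 := by
            have : b 1 = incl x x := by
              have : (1 : Fin (n + 2)) = Fin.succ 0 := rfl
              rw [this]
              simp only [b, Fin.cons_succ, a, Fin.cons_zero]
            simp only [this]
            exact hq
          have h3 : ContinuousAt (sqr s0) ((fun w : Fin (n + 2) → ℂ => w 1) (fun j => q (b j))) := by
            rw [h2]
            exact (sqr_analytic s0 hs).continuousAt
          exact ContinuousAt.comp (f := fun w : Fin (n + 2) → ℂ => w 1) h3 (continuous_apply 1).continuousAt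
      apply h1.eventually_ne
      have e1 : b 1 = incl x x := by
        have : (1 : Fin (n + 2)) = Fin.succ 0 := rfl
        rw [this]
        simp only [b, Fin.cons_succ, a, Fin.cons_zero]
      have e0 : b 0 = qw x := by simp [b]
      simp only [e1, e0]
      rw [hq, ← hs0, sqr_self s0 hs]
      intro h
      apply hs
      have h5 : (2 : ℂ) * s0 = 0 := by linear_combination h
      exact (mul_eq_zero.mp h5).resolve_left two_ne_zero
    filter_upwards [hc]
    rintro w hw ⟨v, rfl⟩
    refine ⟨⟨v.comp (incl x), ?_⟩, ?_⟩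
    · funext j
      simp only [Fin.tail, b, Fin.cons_succ, AlgHom.comp_apply]
    · have e1 : b 1 = incl x x := by
        have : (1 : Fin (n + 2)) = Fin.succ 0 := rfl
        rw [this]
        simp only [b, Fin.cons_succ, a, Fin.cons_zero]
      have e0 : b 0 = qw x := by simp [b]
      have h1 : v (b 1) ≠ 0 := by
        rw [e1]
        exact ((hx.map (incl x)).map v).ne_zero
      have h2 : v (b 0) ^ 2 = v (b 1) := by
        rw [e0, e1, ← map_pow, qw_sq]; rfl
      have h3 : sqr s0 (v (b 1)) = v (b 0) := by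
        have h4 := sqr_sq s0 _ hs h1
        have h5 : (v (b 0) - sqr s0 (v (b 1))) * (v (b 0) + sqr s0 (v (b 1))) = 0 := by
          linear_combination h2 - h4
        have h6 := (mul_eq_zero.mp h5).resolve_right hw
        exact (sub_eq_zero.mp h6).symm
      funext j
      refine Fin.cases ?_ ?_ j
      · simp only [Fin.cons_zero, Fin.tail]
        exact h3
      · intro j
        simp only [Fin.cons_succ, Fin.tail]

end
end H45.CH0
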