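import Mathlib
import Pool.Agent.H45.CH0Neg1
set_option autoImplicit false
namespace H45.CH0
open Polynomial AlgebraicGeometry CategoryTheory CategoryTheory.Limits

instance locallyOfFiniteType_sX : LocallyOfFiniteType sX := by
  rw [HasRingHomProperty.Spec_iff (P := @LocallyOfFiniteType)]
  change (algebraMap ℂ AX).FiniteType
  rw [RingHom.finiteType_algebraMap]
  infer_instance

section
variable (V : XX.Opens) (f0 : AX) (hle : ∀ z : XX, f0 ∉ z.asIdeal → z ∈ V)
variable {F : Type} [Field F] (i : ℂ →+* F)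

instance locallyOfFiniteType_ss : LocallyOfFiniteType (ss V i) := by
  have h : LocallyOfFiniteType (V.ι ≫ sX) := inferInstance
  exact inferInstanceAs (LocallyOfFiniteType (pullback.snd (V.ι ≫ sX) (Spec.map (CommRingCat.ofHom i))))

lemma mem_of_gam_eq_zero {C : Scheme.{0}} [IsIntegral C] (b : C ⟶ Spec (.of AX)) (h : (gam b).hom tA = 0) :
    (gam b).hom rA = 0 := by
  have h1 : ((gam b).hom rA) ^ 2 = 0 := by
    rw [← map_pow, rA_sq, map_mul, map_mul, map_pow, h]
    ring
  exact pow_eq_zero_iff (two_ne_zero) |>.mp h1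

include hle in
lemma isSquare_of_mem_Rat (H : ℂ[X]) (hH : H ≠ 0) (hXH : (X ^ 3 - X : ℂ[X]) ∣ H)
    (hdiv : πE f0 ∣ H.eval₂ (algebraMap ℂ EE) xE) (z : WW V i →₀ ℤ) (hz : z ∈ Rat (WW V i)) :
    IsSquare (thetaC (NN (A := .of AX) xA tA (aa V i) (ss V i)) z) := by
  have hN : ∀ w, NN (A := .of AX) xA tA (aa V i) (ss V i) w ≠ 0 := NN_ne_zero (A := .of AX) xA tA _ _ isUnit_xA
  refine isSquare_thetaC_of_mem _ hN z hz ?_
  intro C hC p hp hdvr g d hg hd
  by_cases ht : (gam (p ≫ aa V i)).hom tA = 0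
  · have hr := mem_of_gam_eq_zero (p ≫ aa V i) ht
    obtain ⟨θ, hθ⟩ : ∃ θ : AX →+* RH i H, θ = (θE i H hXH).comp πE := ⟨_, rfl⟩
    have hθ1 : ∀ w, θ w = θE i H hXH (πE w) := by intro w; rw [hθ]; rfl
    have hu : IsUnit (θ f0) := by
      rw [hθ1]
      exact isUnit_of_dvd_unit (map_dvd (θE i H hXH) hdiv) (isUnit_θE_H i H hXH)
    have hc : ∀ c : ℂ, θ (algebraMap ℂ AX c) = algebraMap F (RH i H) (i c) := by
      intro c
      rw [hθ1, πE_alg, θE_alg]
    obtain ⟨β, hβ1, hβ2⟩ := exists_ww_lift V f0 hle i θ (algebraMap F (RH i H)) hu hc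
    have hX : (X : ℂ[X]) ∣ H := (Dvd.intro (X ^ 2 - 1) (by ring)).trans hXH
    exact isSquare_case2 (A := .of AX) i H hH hX (algebraMap ℂ AX) xA yA tA rA (aa V i) (ss V i) p (ww_comp V i) yA_sq
      β θ hβ1 hβ2 (ww_mono V i) hc (by rw [hθ1, πE_x, θE_x]) (by rw [hθ1, πE_y, θE_y])
      (by rw [hθ1, πE_t, map_zero]) (by rw [hθ1, πE_r, map_zero]) ax_hom_ext ht hr isUnit_xA hdvr g hg d hd
  · refine isSquare_thetaC_push _ hN p d ?_
    intro c hc
    by_cases h0 : ev (aa V i) (p c) tA = 0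
    · rw [NN_of_zero (A := .of AX) xA tA (aa V i) (ss V i) _ h0]
      apply isSquare_of_isSquare
      rw [← ev_comp]
      have hd1 := hdvr c (hd.isZeroCycle c hc)
      refine isSquare_ev_of_curve (A := .of AX) xA tA rA rA_sq (p ≫ aa V i) c ht ?_
      rw [ev_comp, h0, map_zero]
    · rw [NN_of_ne (A := .of AX) xA tA (aa V i) (ss V i) _ h0, one_pow]
      exact IsSquare.one

lemma isSquare_of_push {V' : Scheme.{0}} (f : V' ⟶ V.toScheme) (res : IsResolution (V.ι ≫ sX) f)
    (z' : (pullback f (pullback.fst (V.ι ≫ sX) (Spec.map (CommRingCat.ofHom i))) : Scheme.{0}) →₀ ℤ) :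
    IsSquare (thetaC (NN (A := .of AX) xA tA (aa V i) (ss V i))
      (push (pullback.snd f (pullback.fst (V.ι ≫ sX) (Spec.map (CommRingCat.ofHom i)))) z')) := by
  have hN : ∀ w, NN (A := .of AX) xA tA (aa V i) (ss V i) w ≠ 0 := NN_ne_zero (A := .of AX) xA tA _ _ isUnit_xA
  have hsm := res.smooth
  obtain ⟨U, hU, hU', hiso⟩ := res.birational
  refine isSquare_thetaC_push _ hN _ z' ?_
  intro w hw
  by_cases h0 : ev (aa V i) ((pullback.snd f (pullback.fst (V.ι ≫ sX) (Spec.map (CommRingCat.ofHom i)))) w) tA = 0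
  · rw [NN_of_zero (A := .of AX) xA tA (aa V i) (ss V i) _ h0]
    apply isSquare_of_isSquare
    have hq : (pullback.snd f (pullback.fst (V.ι ≫ sX) (Spec.map (CommRingCat.ofHom i)))) ≫ aa V i =
        pullback.fst f (pullback.fst (V.ι ≫ sX) (Spec.map (CommRingCat.ofHom i))) ≫ (f ≫ V.ι) := by
      rw [← Category.assoc, ← pullback.condition, Category.assoc]
    have h1 : ev ((pullback.snd f (pullback.fst (V.ι ≫ sX) (Spec.map (CommRingCat.ofHom i)))) ≫ aa V i) w tA = 0 := by
      rw [ev_comp, h0, map_zero]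
    rw [← ev_comp, hq, ev_comp]
    rw [hq, ev_comp] at h1
    apply IsSquare.map
    have h2 := (map_eq_zero _).mp h1
    refine isSquare_ev_of_smooth (A := .of AX) xA tA rA rA_sq (f ≫ V.ι ≫ sX) (f ≫ V.ι) ?_ _ h2
    intro O hO
    have htA : tA ≠ 0 := by
      intro h
      have := congrArg QuadraticAlgebra.re h
      exact X_ne_zero this
    exact dense_of_resolution (A := .of AX) V V' f U hU' hiso tA htA O hO
  · rw [NN_of_ne (A := .of AX) xA tA (aa V i) (ss V i) _ h0, one_pow]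
    exact IsSquare.one

end

lemma exists_F : ∃ (F : Type) (_ : Field F) (i : ℂ →+* F) (jE : EE →+* F), Function.Injective jE ∧
    (∀ c, jE (algebraMap ℂ EE c) = i c) ∧ ¬ IsSquare (jE xE) := by
  refine ⟨FractionRing EE, inferInstance, (algebraMap EE (FractionRing EE)).comp (algebraMap ℂ EE),
    algebraMap EE (FractionRing EE), IsFractionRing.injective _ _, fun c => rfl, ?_⟩
  rintro ⟨z, hz⟩
  obtain ⟨u, v, hv, rfl⟩ := IsFractionRing.div_surjective (A := EE) z
  have hv0 : v ≠ 0 := nonZeroDivisors.ne_zero hv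
  have hv1 : algebraMap EE (FractionRing EE) v ≠ 0 := by
    rw [Ne, FaithfulSMul.algebraMap_eq_zero_iff]; exact hv0
  have h1 : u ^ 2 = xE * v ^ 2 := by
    apply IsFractionRing.injective EE (FractionRing EE)
    rw [map_mul, hz, map_pow, map_pow]
    field_simp
  exact hv0 (NS_xE _ _ h1)

/-- the surface `X` does not have property (U) at the points of the double curve -/
theorem not_HasU (x0 : XX) (ht : tA ∈ x0.asIdeal) (hr : rA ∈ x0.asIdeal) : ¬ HasU sX x0 := by
  rintro ⟨V, hxV, V', f, res, triv⟩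
  obtain ⟨f0, hf0, hle⟩ := exists_f0 V x0 hxV
  have hne := πE_ne_zero x0 ht hr f0 hf0
  obtain ⟨H, hH, hXH, hdiv⟩ := exists_H (πE f0) hne
  obtain ⟨F, hF, i, jE, hjE, hji, hns⟩ := exists_F
  have hN : ∀ w, NN (A := .of AX) xA tA (aa V i) (ss V i) w ≠ 0 := NN_ne_zero (A := .of AX) xA tA _ _ isUnit_xA
  -- the generic point of the double curve
  have hu : IsUnit ((jE.comp πE) f0) := by
    apply IsUnit.mk0
    change jE (πE f0) ≠ 0
    rw [Ne, map_eq_zero_iff jE hjE]
    exact hne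
  obtain ⟨e, he1, he2⟩ := exists_ww_lift V f0 hle i (jE.comp πE) (RingHom.id F) hu (by
    intro c
    change jE (πE _) = i c
    rw [πE_alg, hji])
  have he3 : e ≫ ss V i = 𝟙 _ := by
    rw [he2]
    exact Spec.map_id _
  let pt : Spec (.of F) := ⟨⊥, Ideal.isPrime_bot⟩
  have hcl := isClosed_section (ss V i) e he3 pt
  obtain ⟨z', hz', hrat⟩ := (triv F hF i).1 (Finsupp.single (e pt) 1) (by
    intro x hx
    have : x = e pt := by
      have := Finsupp.support_single_subset hx
      simpa using this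
    rw [this]
    exact hcl)
  have h1 := isSquare_of_mem_Rat V f0 hle i H hH hXH hdiv _ hrat
  have h2 := isSquare_of_push V i f res z'
  have h3 : IsSquare (thetaC (NN (A := .of AX) xA tA (aa V i) (ss V i)) (Finsupp.single (e pt) 1)) := by
    have h4 := thetaC_add (NN (A := .of AX) xA tA (aa V i) (ss V i)) hN (Finsupp.single (e pt) 1 -
      push (pullback.snd f (pullback.fst (V.ι ≫ sX) (Spec.map (CommRingCat.ofHom i)))) z')
      (push (pullback.snd f (pullback.fst (V.ι ≫ sX) (Spec.map (CommRingCat.ofHom i)))) z')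
    rw [sub_add_cancel] at h4
    rw [h4]
    exact h1.mul h2
  rw [thetaC_single, zpow_one] at h3
  have h5 : ∀ z, ev (aa V i) (e pt) z = ev (ss V i) (e pt) (jE (πE z)) := by
    intro z
    exact ev_section (aa V i) (ss V i) e he3 (jE.comp πE) he1 pt z
  rw [NN_of_zero (A := .of AX) xA tA (aa V i) (ss V i) _ (by rw [h5, πE_t, map_zero, map_zero]), h5,
    nrm_section (ss V i) e he3, πE_x] at h3
  exact hns h3

end H45.CH0
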