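import Mathlib
import Pool.Agent.H45.CH0Bir
set_option autoImplicit false
namespace H45.CH0
open AlgebraicGeometry CategoryTheory CategoryTheory.Limits Polynomial

/-- the open set where `t` does not vanish -/
noncomputable def DY : YY.Opens := PrimeSpectrum.basicOpen (toAY tA)

lemma isIso_restrict_gen {R S : CommRingCat.{0}} (f : R ⟶ S) (r : R)
    (hb : Function.Bijective (Localization.awayMap f.hom r)) : IsIso (Spec.map f ∣_ (PrimeSpectrum.basicOpen r)) := by
  have h := SpecMapRestrictBasicOpenIso f r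
  have h1 : IsIso (Spec.map (CommRingCat.ofHom (Localization.awayMap f.hom r))) := by
    have h2 : IsIso (CommRingCat.ofHom (Localization.awayMap f.hom r)) :=
      (ConcreteCategory.isIso_iff_bijective _).mpr hb
    infer_instance
  exact ((MorphismProperty.isomorphisms Scheme).arrow_mk_iso_iff h).mpr h1

lemma isIso_restrict : IsIso (Spec.map (CommRingCat.ofHom φY) ∣_ DY) :=
  isIso_restrict_gen (CommRingCat.ofHom φY) (toAY tA) awayMap_bijective

/-- the open set on which the resolution is an isomorphism -/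
noncomputable def UY : VY.toScheme.Opens := VY.ι ⁻¹ᵁ DY

lemma isIso_res_of_comp {X Y Z : Scheme.{0}} (f : X ⟶ Y) (g : Y ⟶ Z) (U : Z.Opens) (hg : IsIso g)
    (h : IsIso ((f ≫ g) ∣_ U)) : IsIso (f ∣_ (g ⁻¹ᵁ U)) := by
  have h' : IsIso (f ∣_ (g ⁻¹ᵁ U) ≫ g ∣_ U) := by
    rw [← morphismRestrict_comp]
    exact h
  have h2 : IsIso (g ∣_ U) := inferInstance
  exact IsIso.of_isIso_comp_right (f ∣_ (g ⁻¹ᵁ U)) (g ∣_ U)

lemma tAY_ne : toAY tA ≠ 0 := by
  intro h
  have h1 := congrArg (fun z => z.re.re) h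
  exact X_ne_zero h1

lemma birational_fY : Dense (UY : Set VY.toScheme) ∧ Dense (fY ⁻¹ᵁ UY : Set (Spec (.of Q1))) ∧ IsIso (fY ∣_ UY) := by
  have hdY : IsDomain (CommRingCat.of AY) := inferInstanceAs (IsDomain AY)
  have hdQ : IsDomain (CommRingCat.of Q1) := inferInstanceAs (IsDomain Q1)
  refine ⟨?_, ?_, ?_⟩
  · apply IsOpen.dense UY.isOpen
    refine ⟨⟨(⟨⊥, Ideal.isPrime_bot⟩ : PrimeSpectrum AY), trivial⟩, ?_⟩
    change (⟨⊥, Ideal.isPrime_bot⟩ : PrimeSpectrum AY) ∈ PrimeSpectrum.basicOpen (toAY tA)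
    rw [PrimeSpectrum.mem_basicOpen]
    exact tAY_ne
  · apply IsOpen.dense (fY ⁻¹ᵁ UY).isOpen
    refine ⟨(⟨⊥, Ideal.isPrime_bot⟩ : PrimeSpectrum Q1), ?_⟩
    have h1 : fY ⁻¹ᵁ UY = Spec.map (CommRingCat.ofHom φY) ⁻¹ᵁ DY := by
      rw [← fY_ι]; rfl
    rw [h1]
    intro h2
    have h3 : φY (toAY tA) = 0 := h2
    exact tAY_ne (φY_injective (by rw [h3, map_zero]))
  · have h1 := isIso_restrict
    rw [← fY_ι] at h1
    exact isIso_res_of_comp fY VY.ι DY isIso_VY h1

instance : IsFinite fY := by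
  have h : IsFinite (Spec.map (CommRingCat.ofHom φY)) := by
    rw [IsFinite.SpecMap_iff]
    exact φY_finite
  unfold fY
  infer_instance

lemma resolution_fY : IsResolution (VY.ι ≫ sY) fY where
  isProper := inferInstance
  smooth := by
    rw [fY_s, HasRingHomProperty.Spec_iff (P := @Smooth)]
    change (algebraMap ℂ Q1).Smooth
    rw [RingHom.smooth_algebraMap]
    infer_instance
  birational := ⟨UY, birational_fY⟩

lemma universal_fY : UnivCH0Trivial (VY.ι ≫ sY) fY := by
  intro F hF i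
  have hfin : IsFinite (qqQ i) := inferInstanceAs (IsFinite (pullback.snd fY _))
  refine ⟨?_, ?_⟩
  · intro z hz
    refine ⟨0, ?_, ?_⟩
    · intro x hx
      simp at hx
    · have : push (qqQ i) 0 = 0 := by simp [push]
      rw [this, sub_zero]
      exact wy_all i z hz
  · intro z' hz'
    have h1 : IsZeroCycle (push (qqQ i) z') := by
      classical
      intro x hx
      unfold push Finsupp.sum at hx
      obtain ⟨w, hw, hx⟩ := Finset.mem_biUnion.mp (Finsupp.support_finsetSum hx)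
      have h2 := Finsupp.support_single_subset hx
      rw [Finset.mem_singleton] at h2
      rw [h2]
      have h3 := (qqQ i).isClosedMap _ (hz' w hw)
      rwa [Set.image_singleton] at h3
    have h2 : LocallyOfFiniteType (qqQ i ≫ ssY i) := inferInstance
    have h3 : IsSeparated (qqQ i ≫ ssY i) := inferInstance
    have h4 : z' ∈ Rat (WQ i) := all_mem_Rat (A := .of Q1) i (algebraMap ℂ Q1) (σ1 ^ 2 - 1) (aaQ i) (qqQ i ≫ ssY i)
      (comp_of_cond (A := .of Q1) i (algebraMap ℂ Q1) (aaQ i) (qqQ i ≫ ssY i) (wq_cond i)) (wq_mono i) (wq_lift i)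
      hline_Q1 z' hz'
    exact ⟨fun _ => h4, fun _ => wy_all i _ h1⟩

theorem HasU_Y (y : YY) : HasU sY y :=
  ⟨VY, trivial, Spec (.of Q1), fY, resolution_fY, universal_fY⟩

end H45.CH0
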